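import Pool.Agent.Helper96.AD.BoundG

/-!
# The argument of `(f z - a) / (z - a1) ^ 2` is bounded on the preimage of `V0`: version inside `K`

`bound_GK` is `bound_G` (file Helper96/AD/BoundG, proof by helper15 and helper62) without the hypothesis that the end points
`v`, `v1` of the two segments are outside `K`: the compact sets joining them to infinity are chosen in `V0` and in `f⁻¹ V0`.
-/

set_option autoImplicit false

open Set Topology Metric Bornology Filter Pool.Agent.Helper66.QJ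

namespace Pool.Agent.Helper83.AD

/-- the segment at `a1` -/
private theorem seg83 {c a a1 v1 : ℂ} {V0 : Set ℂ} (ha : a ∉ V0)
    (ha1 : f c a1 ∉ V0) (hne : f c a1 ≠ a)
    (hseg1 : ∀ s ∈ Ioc (0 : ℝ) 1, f c (a1 + s * (v1 - a1)) ∈ V0) {L : ℂ → ℂ} (hL : ContinuousOn L (f c ⁻¹' V0))
    (hLe : ∀ z, f c z ∈ V0 → Complex.exp (L z) = (z - a1) ^ 2 / (f c z - a)) :
    ∃ B : ℝ, ∀ s ∈ Ioc (0 : ℝ) 1, |(L (a1 + s * (v1 - a1))).im| ≤ B := by
  have hva : v1 - a1 ≠ 0 := by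
    intro h0
    apply ha1
    have h1 := hseg1 1 ⟨one_pos, le_rfl⟩
    rwa [h0, mul_zero, add_zero] at h1
  have hc1 : Continuous fun s : ℝ => f c (a1 + s * (v1 - a1)) - a := by
    unfold f
    fun_prop
  have hne : ∀ s ∈ Icc (0 : ℝ) 1, f c (a1 + s * (v1 - a1)) - a ≠ 0 := by
    intro s hs h0
    rw [sub_eq_zero] at h0
    rcases hs.1.eq_or_lt with h1 | h1
    · rw [← h1] at h0
      apply hne
      simpa using h0
    · exact ha (h0 ▸ hseg1 s ⟨h1, hs.2⟩)
  refine bdd_path (H := fun s : ℝ => (v1 - a1) ^ 2 / (f c (a1 + s * (v1 - a1)) - a)) 2 ?_ ?_ ?_ ?_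
  · refine hL.comp (Continuous.continuousOn (by fun_prop)) fun s hs => hseg1 s hs
  · exact ContinuousOn.div continuousOn_const hc1.continuousOn hne
  · intro s hs
    exact div_ne_zero (pow_ne_zero 2 hva) (hne s hs)
  · intro s hs
    rw [hLe _ (hseg1 s hs)]
    rw [add_sub_cancel_left, mul_pow]
    norm_cast
    rw [mul_div_assoc]

/-- the preimage of the segment at `a` -/
private theorem seg83' {c a v a1 : ℂ} {V0 : Set ℂ} (hcV : c ∉ V0) (ha : a ∉ V0)
    (hac : a ≠ c) (hseg : ∀ s ∈ Ioc (0 : ℝ) 1, a + s * (v - a) ∈ V0)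
    (ha1 : f c a1 ∉ V0) (hne : f c a1 ≠ a) {L : ℂ → ℂ} (hL : ContinuousOn L (f c ⁻¹' V0))
    (hLe : ∀ z, f c z ∈ V0 → Complex.exp (L z) = (z - a1) ^ 2 / (f c z - a)) :
    ∃ B : ℝ, ∀ z : ℂ, ∀ s ∈ Ioc (0 : ℝ) 1, f c z = a + s * (v - a) → |(L z).im| ≤ B := by
  have hva : v - a ≠ 0 := by
    intro h0
    apply ha
    have h1 := hseg 1 ⟨one_pos, le_rfl⟩
    rwa [h0, mul_zero, add_zero] at h1
  obtain ⟨l, hl, hle⟩ := log_path (u := fun s : ℝ => a + s * (v - a) - c) (Continuous.continuousOn (by fun_prop)) (by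
    intro s hs h0
    rw [sub_eq_zero] at h0
    rcases hs.1.eq_or_lt with h1 | h1
    · rw [← h1] at h0
      apply hac
      simpa using h0
    · exact hcV (h0 ▸ hseg s ⟨h1, hs.2⟩))
  have hz2 : ∀ s ∈ Icc (0 : ℝ) 1, ∀ σ : ℂ, σ ^ 2 = 1 → f c (σ * Complex.exp (l s / 2)) = a + s * (v - a) := by
    intro s hs σ hσ
    unfold f
    rw [mul_pow, hσ, ← Complex.exp_nat_mul]
    have h1 : ((2 : ℕ) : ℂ) * (l s / 2) = l s := by
      push_cast
      ring
    rw [h1, hle s hs]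
    ring
  have key : ∀ σ : ℂ, σ ^ 2 = 1 → ∃ B : ℝ, ∀ s ∈ Ioc (0 : ℝ) 1, |(L (σ * Complex.exp (l s / 2))).im| ≤ B := by
    intro σ hσ
    have hc1 : ContinuousOn (fun s : ℝ => σ * Complex.exp (l s / 2)) (Icc 0 1) :=
      continuousOn_const.mul ((hl.div_const 2).cexp)
    have hne : ∀ s ∈ Icc (0 : ℝ) 1, σ * Complex.exp (l s / 2) - a1 ≠ 0 := by
      intro s hs h0
      rw [sub_eq_zero] at h0
      have h2 := hz2 s hs σ hσ
      rw [h0] at h2
      rcases hs.1.eq_or_lt with h1 | h1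
      · rw [← h1] at h2
        apply hne
        simpa using h2
      · exact ha1 (h2 ▸ hseg s ⟨h1, hs.2⟩)
    refine bdd_path (H := fun s : ℝ => (σ * Complex.exp (l s / 2) - a1) ^ 2 / (v - a)) (-1) ?_ ?_ ?_ ?_
    · refine hL.comp (hc1.mono Ioc_subset_Icc_self) fun s hs => ?_
      show f c _ ∈ V0
      rw [hz2 s ⟨hs.1.le, hs.2⟩ σ hσ]
      exact hseg s hs
    · exact ((hc1.sub continuousOn_const).pow 2).div_const _
    · intro s hs
      exact div_ne_zero (pow_ne_zero 2 (hne s hs)) hva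
    · intro s hs
      have h0 : (s : ℂ) ≠ 0 := by exact_mod_cast hs.1.ne'
      have h2 := hz2 s ⟨hs.1.le, hs.2⟩ σ hσ
      rw [hLe _ (by rw [h2]; exact hseg s hs), h2, add_sub_cancel_left, zpow_neg_one]
      field_simp
  obtain ⟨B1, hB1⟩ := key 1 (by norm_num)
  obtain ⟨B2, hB2⟩ := key (-1) (by norm_num)
  refine ⟨max B1 B2, fun z s hs hz => ?_⟩
  have h1 : f c z = f c (1 * Complex.exp (l s / 2)) := by
    rw [hz, hz2 s ⟨hs.1.le, hs.2⟩ 1 (by norm_num)]
  rcases f_eq_iff.1 h1 with h2 | h2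
  · rw [h2]
    exact (hB1 s hs).trans (le_max_left _ _)
  · have h3 : z = -1 * Complex.exp (l s / 2) := by
      rw [h2]
      ring
    rw [h3]
    exact (hB2 s hs).trans (le_max_right _ _)

/-- a logarithm of `(z - a)/(z - y)` outside `segment a v ∪ F` -/
private theorem logP83 {a v : ℂ} {y : ℝ} {Ω : Set ℂ} (hΩ : IsOpen Ω) (hΩc : IsPreconnected Ω) (hv : v ∈ Ω)
    (hyK : (y : ℂ) ∈ Ω) :
    ∃ (F : Set ℂ) (P0 : ℂ → ℂ) (B : ℝ), IsCompact F ∧ F ⊆ Ω ∧ (y : ℂ) ∈ F ∧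
      IsClosed (segment ℝ a v ∪ F) ∧ ContinuousOn P0 (segment ℝ a v ∪ F)ᶜ ∧
      (∀ z ∉ segment ℝ a v ∪ F, Complex.exp (P0 z) = (z - a) / (z - y)) ∧
      ∀ z ∉ segment ℝ a v ∪ F, |(P0 z).im| ≤ B := by
  obtain ⟨F, P, B, hF, -, hFK, hvF, hyF, hP, hPe, hPB⟩ :=
    good hΩ hΩc (x := v) (y := (y : ℂ)) hv hyK
  have hsegc : IsClosed (segment ℝ a v) := by
    rw [segment_eq_image]
    exact (isCompact_Icc.image (by fun_prop)).isClosed
  have hneF : ∀ {z w : ℂ}, w ∈ segment ℝ a v ∪ F → z ∉ segment ℝ a v ∪ F → z - w ≠ 0 :=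
    fun hw hz h0 => hz (sub_eq_zero.1 h0 ▸ hw)
  refine ⟨F, fun z => Complex.log ((z - a) / (z - v)) + P z, Real.pi + B, hF, hFK, hyF,
    hsegc.union hF.isClosed, ?_, ?_, ?_⟩
  · exact ((good_segment a v).mono (compl_subset_compl.2 subset_union_left)).add
      (hP.mono (compl_subset_compl.2 subset_union_right))
  · intro z hz
    have h1 := hneF (Or.inl (left_mem_segment ℝ a v)) hz
    have h2 := hneF (Or.inr hvF) hz
    have h3 := hneF (Or.inr hyF) hz
    simp only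
    rw [Complex.exp_add, Complex.exp_log (div_ne_zero h1 h2), hPe z fun h => hz (Or.inr h)]
    field_simp
  · intro z hz
    simp only [Complex.add_im]
    refine (abs_add_le _ _).trans (add_le_add ?_ (hPB z fun h => hz (Or.inr h)))
    rw [Complex.log_im]
    exact Complex.abs_arg_le_pi _

theorem bound_GK {c a v a1 v1 : ℂ} {V0 : Set ℂ} (hV0 : IsOpen V0) (hV1 : IsPreconnected (f c ⁻¹' V0))
    (hKV : (K c)ᶜ ⊆ V0) (hcV : c ∉ V0) (ha : a ∉ V0) (hac : a ≠ c)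
    (hseg : ∀ s ∈ Ioc (0 : ℝ) 1, a + s * (v - a) ∈ V0) (ha1 : f c a1 ∉ V0) (hne : f c a1 ≠ a)
    (hseg1 : ∀ s ∈ Ioc (0 : ℝ) 1, f c (a1 + s * (v1 - a1)) ∈ V0) {L : ℂ → ℂ} (hL : ContinuousOn L (f c ⁻¹' V0))
    (hLe : ∀ z, f c z ∈ V0 → Complex.exp (L z) = (z - a1) ^ 2 / (f c z - a)) {r B0 : ℝ}
    (hfar : ∀ z : ℂ, r ≤ ‖z‖ → |(L z).im| ≤ B0) : ∃ B : ℝ, ∀ z, f c z ∈ V0 → |(L z).im| ≤ B := by
  have hWo : IsOpen (f c ⁻¹' V0) := hV0.preimage (continuous_f c)
  have hV0c : IsPreconnected V0 := by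
    have h1 := hV1.image (f c) (continuous_f c).continuousOn
    rwa [image_preimage_eq V0 fun y => surj_f c y] at h1
  have hvV : v ∈ V0 := by
    have h1 := hseg 1 ⟨one_pos, le_rfl⟩
    rwa [Complex.ofReal_one, one_mul, add_sub_cancel] at h1
  have hv1V : f c v1 ∈ V0 := by
    have h1 := hseg1 1 ⟨one_pos, le_rfl⟩
    rwa [Complex.ofReal_one, one_mul, add_sub_cancel] at h1
  have hWK : ∀ z, z ∉ K c → f c z ∈ V0 := fun z hz => hKV fun h => hz (f_mem_K_iff.1 h)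
  -- far away
  set r2 : ℝ := max r (R0 c) + 1 with hr2
  have hR0 := R0_pos c
  have hr2p : 0 < r2 := by linarith [le_max_right r (R0 c)]
  have hLfar : ∀ z, r2 ≤ ‖z‖ → |(L z).im| ≤ B0 := fun z hz =>
    hfar z (by linarith [le_max_left r (R0 c)])
  have hKfar : ∀ z : ℂ, r2 ≤ ‖z‖ → z ∉ K c := fun z hz => not_mem_K_of_lt (by linarith [le_max_right r (R0 c)])
  set y : ℝ := 8 * (2 * r2 ^ 2 + ‖c‖ + 2 * r2) + 2 * r2 + 1 with hy
  have hyr : r2 ≤ y := by nlinarith [norm_nonneg c, sq_nonneg r2]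
  have hyK : (y : ℂ) ∉ K c := by
    apply hKfar
    rw [Complex.norm_real]
    exact hyr.trans (le_abs_self y)
  obtain ⟨F, P0, B, hF, hFK, hyF, hF0, hP0, hP0e, hP0B⟩ := logP83 (a := a) hV0 hV0c hvV (hKV hyK)
  obtain ⟨F', P1, B', hF', hFK', hyF', hF1, hP1, hP1e, hP1B⟩ := logP83 (a := a1) hWo hV1 hv1V
    (hWK _ hyK)
  set F0 : Set ℂ := segment ℝ a v ∪ F with hF0d
  set F1 : Set ℂ := segment ℝ a1 v1 ∪ F' with hF1d
  have haF0 : a ∈ F0 := Or.inl (left_mem_segment ℝ a v)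
  have haF1 : a1 ∈ F1 := Or.inl (left_mem_segment ℝ a1 v1)
  have hyF0 : (y : ℂ) ∈ F0 := Or.inr hyF
  have hyF1 : (y : ℂ) ∈ F1 := Or.inr hyF'
  have hneF : ∀ {z w : ℂ}, w ∈ F0 → z ∉ F0 → z - w ≠ 0 := fun hw hz h0 => hz (sub_eq_zero.1 h0 ▸ hw)
  have hneF1 : ∀ {z w : ℂ}, w ∈ F1 → z ∉ F1 → z - w ≠ 0 := fun hw hz h0 => hz (sub_eq_zero.1 h0 ▸ hw)
  -- the logarithm `Ψ`
  set w : ℂ → ℂ := fun z => (f c z - y) * (-y) / (z - y) ^ 2 with hwd
  have hw : ∀ z : ℂ, ‖z‖ < r2 → w z ∈ Complex.slitPlane := fun z hz => w_slit c hr2p.le (le_refl _) hz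
  have hy0 : (y : ℂ) ≠ 0 := by
    have : 0 < y := by linarith
    exact_mod_cast this.ne'
  set Ψ : ℂ → ℂ := fun z => 2 * P1 z - P0 (f c z) - Complex.log (w z) + Complex.log (-y) with hΨd
  set V : Set ℂ := {z | f c z ∈ V0 ∧ ‖z‖ < r2 ∧ z ∉ F1 ∧ f c z ∉ F0} with hVd
  have hV : IsOpen V := by
    have h1 : IsOpen {z : ℂ | ‖z‖ < r2} := isOpen_lt continuous_norm continuous_const
    have h2 : IsOpen {z : ℂ | f c z ∉ F0} := (hF0.preimage (continuous_f c)).isOpen_compl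
    exact hWo.inter (h1.inter (hF1.isOpen_compl.inter h2))
  have hΨ : ContinuousOn Ψ V := by
    have h1 : ContinuousOn (fun z => P0 (f c z)) V :=
      hP0.comp (continuous_f c).continuousOn fun z hz => hz.2.2.2
    have h2 : ContinuousOn w V := by
      apply ContinuousOn.div
      · have := continuous_f c
        fun_prop
      · fun_prop
      · intro z hz
        exact pow_ne_zero 2 (hneF1 hyF1 hz.2.2.1)
    have h3 : ContinuousOn (fun z => Complex.log (w z)) V := h2.clog fun z hz => hw z hz.2.1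
    exact (((continuousOn_const.mul (hP1.mono fun z hz => hz.2.2.1)).sub h1).sub h3).add continuousOn_const
  have hΨe : ∀ z ∈ V, Complex.exp (Ψ z) = (z - a1) ^ 2 / (f c z - a) := by
    intro z hz
    have h1 := hneF1 haF1 hz.2.2.1
    have h2 := hneF1 hyF1 hz.2.2.1
    have h3 := hneF haF0 hz.2.2.2
    have h4 := hneF hyF0 hz.2.2.2
    rw [hΨd]
    simp only
    have h5 : Complex.exp (2 * P1 z) = Complex.exp (P1 z) ^ 2 := by
      rw [← Complex.exp_nat_mul]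
      norm_num
    rw [Complex.exp_add, Complex.exp_sub, Complex.exp_sub, h5, Complex.exp_log (neg_ne_zero.2 hy0),
      Complex.exp_log (Complex.slitPlane_ne_zero (hw z hz.2.1)), hP1e z hz.2.2.1, hP0e _ hz.2.2.2, hwd]
    simp only
    field_simp
  set B1 : ℝ := 2 * B' + B + Real.pi + Real.pi with hB1
  have hΨB : ∀ z ∈ V, |(Ψ z).im| ≤ B1 := by
    intro z hz
    have h1 := abs_le.1 (hP1B z hz.2.2.1)
    have h2 := abs_le.1 (hP0B _ hz.2.2.2)
    have h3 := abs_le.1 (Complex.abs_arg_le_pi (w z))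
    have h4 := abs_le.1 (Complex.abs_arg_le_pi (-y : ℂ))
    have h5 : (Ψ z).im = 2 * (P1 z).im - (P0 (f c z)).im - Complex.arg (w z) + Complex.arg (-y : ℂ) := by
      rw [hΨd]
      simp [Complex.log_im]
    rw [h5, hB1, abs_le]
    constructor <;> linarith [h1.1, h1.2, h2.1, h2.2, h3.1, h3.2, h4.1, h4.2]
  -- the bound on the boundary
  obtain ⟨b1, hb1⟩ := hF'.exists_bound_of_continuousOn (hL.mono hFK')
  have hpre : IsCompact (f c ⁻¹' F) := by
    obtain ⟨M, hM⟩ := hF.isBounded.subset_closedBall 0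
    refine (isCompact_closedBall (0 : ℂ) (max (R0 c) M)).of_isClosed_subset (hF.isClosed.preimage (continuous_f c)) ?_
    intro z hz
    rw [mem_closedBall_zero_iff]
    by_contra hcon
    have h1 : R0 c ≤ ‖z‖ := (le_max_left _ _).trans (not_le.1 hcon).le
    have h2 := norm_f_ge h1
    have h3 := mem_closedBall_zero_iff.1 (hM hz)
    have h4 : M < ‖z‖ := lt_of_le_of_lt (le_max_right _ _) (not_le.1 hcon)
    linarith [norm_nonneg z]
  obtain ⟨b2, hb2⟩ := hpre.exists_bound_of_continuousOn (hL.mono fun z hz => hFK hz)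
  obtain ⟨b3, hb3⟩ := seg83 ha ha1 hne hseg1 hL hLe
  obtain ⟨b4, hb4⟩ := seg83' hcV ha hac hseg ha1 hne hL hLe
  set M1 : ℝ := max B0 (max (max b1 b2) (max b3 b4)) with hM1
  have e1 : B0 ≤ M1 := le_max_left _ _
  have e2 : b1 ≤ M1 := (le_max_left _ _).trans ((le_max_left _ _).trans (le_max_right _ _))
  have e3 : b2 ≤ M1 := (le_max_right _ _).trans ((le_max_left _ _).trans (le_max_right _ _))
  have e4 : b3 ≤ M1 := (le_max_left _ _).trans ((le_max_right _ _).trans (le_max_right _ _))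
  have e5 : b4 ≤ M1 := (le_max_right _ _).trans ((le_max_right _ _).trans (le_max_right _ _))
  have hsegp : ∀ {b x : ℂ}, ∀ z ∈ segment ℝ b x, z ≠ b → ∃ s ∈ Ioc (0 : ℝ) 1, z = b + s * (x - b) := by
    intro b x z hz hzX
    rw [segment_eq_image] at hz
    obtain ⟨s, hs, rfl⟩ := hz
    have h1 : (1 - s) • b + s • x = b + s * (x - b) := by
      rw [Complex.real_smul, Complex.real_smul]
      push_cast
      ring
    refine ⟨s, ⟨lt_of_le_of_ne hs.1 ?_, hs.2⟩, h1⟩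
    intro h0
    apply hzX
    show (1 - s) • b + s • x = b
    rw [h1, ← h0]
    simp
  have hbd : ∀ z, f c z ∈ V0 → z ∉ V → |(L z).im| ≤ M1 := by
    intro z hz hzV
    by_cases h1 : ‖z‖ < r2
    · by_cases h2 : z ∈ F1
      · rcases h2 with h2 | h2
        · obtain ⟨s, hs, rfl⟩ := hsegp z h2 fun h3 => ha1 (h3 ▸ hz)
          exact (hb3 s hs).trans e4
        · exact (Complex.abs_im_le_norm _).trans ((hb1 z h2).trans e2)
      · by_cases h3 : f c z ∈ F0
        · rcases h3 with h3 | h3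
          · obtain ⟨s, hs, h4⟩ := hsegp _ h3 fun h5 => ha (h5 ▸ hz)
            exact (hb4 z s hs h4).trans e5
          · exact (Complex.abs_im_le_norm _).trans ((hb2 z h3).trans e3)
        · exact absurd ⟨hz, h1, h2, h3⟩ hzV
    · exact (hLfar z (not_lt.1 h1)).trans e1
  -- the difference is locally constant
  have hloc : ∀ z ∈ V, ∃ ε : ℝ, 0 < ε ∧ ball z ε ⊆ V ∧ ∀ x ∈ ball z ε, L x - Ψ x = L z - Ψ z := by
    intro z hz
    obtain ⟨ε, hε, hs⟩ := Metric.isOpen_iff.1 hV z hz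
    refine ⟨ε, hε, hs, fun x hx => ?_⟩
    exact log_unique (convex_ball z ε).isPreconnected (hL.mono fun t ht => (hs ht).1) (hΨ.mono hs)
      (fun t ht => by rw [hLe t (hs ht).1, hΨe t (hs ht)]) hx (mem_ball_self hε)
  set M2 : ℝ := M1 + 1 + B1 with hM2
  set A : Set ℂ := {z | z ∈ V ∧ M2 < |(L z - Ψ z).im|} with hA
  have hAo : IsOpen A := by
    rw [Metric.isOpen_iff]
    rintro z ⟨hz, hz2⟩
    obtain ⟨ε, hε, hs, hc⟩ := hloc z hz
    exact ⟨ε, hε, fun x hx => ⟨hs hx, by rw [hc x hx]; exact hz2⟩⟩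
  have hA'o : IsOpen ((f c ⁻¹' V0) \ A) := by
    rw [Metric.isOpen_iff]
    rintro z ⟨hz, hzA⟩
    by_cases hzV : z ∈ V
    · obtain ⟨ε, hε, hs, hc⟩ := hloc z hzV
      refine ⟨ε, hε, fun x hx => ⟨(hs hx).1, fun hxA => hzA ⟨hzV, ?_⟩⟩⟩
      rw [← hc x hx]
      exact hxA.2
    · have h1 := hbd z hz hzV
      have h2 : ContinuousAt L z := hL.continuousAt (hWo.mem_nhds hz)
      obtain ⟨ε, hε, hs⟩ := Metric.continuousAt_iff.1 h2 1 one_pos
      obtain ⟨ε', hε', hs'⟩ := Metric.isOpen_iff.1 hWo z hz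
      refine ⟨min ε ε', lt_min hε hε', fun x hx => ⟨hs' (ball_subset_ball (min_le_right _ _) hx), fun hxA => ?_⟩⟩
      have h3 := hs (ball_subset_ball (min_le_left _ _) hx)
      have h4 : |(L x).im| ≤ M1 + 1 := by
        have h5 : |(L x - L z).im| ≤ 1 := by
          rw [dist_eq_norm] at h3
          exact (Complex.abs_im_le_norm _).trans h3.le
        rw [Complex.sub_im] at h5
        have h6 := abs_le.1 h5
        have h7 := abs_le.1 h1
        rw [abs_le]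
        constructor <;> linarith [h6.1, h6.2, h7.1, h7.2]
      have h8 := hΨB x hxA.1
      have h9 : |(L x - Ψ x).im| ≤ M2 := by
        rw [Complex.sub_im]
        refine (abs_sub _ _).trans ?_
        rw [hM2]
        linarith
      exact absurd hxA.2 (not_lt.2 h9)
  have hAe : ∀ z ∈ V, |(L z - Ψ z).im| ≤ M2 := by
    intro z hz
    by_contra hcon
    have hzA : z ∈ A := ⟨hz, not_le.1 hcon⟩
    have hyV : (y : ℂ) ∉ V := by
      intro hyV
      have h1 := hyV.2.1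
      rw [Complex.norm_real] at h1
      exact absurd (h1.trans_le (hyr.trans (le_abs_self y))) (lt_irrefl _)
    obtain ⟨x, -, hx1, hx2⟩ := hV1 A ((f c ⁻¹' V0) \ A) hAo hA'o
      (fun x hx => by
        by_cases hxA : x ∈ A
        · exact Or.inl hxA
        · exact Or.inr ⟨hx, hxA⟩)
      ⟨z, hz.1, hzA⟩ ⟨y, hWK _ hyK, hWK _ hyK, fun hyA => hyV hyA.1⟩
    exact hx2.2 hx1
  refine ⟨max M1 (M2 + B1), fun z hz => ?_⟩
  by_cases hzV : z ∈ V
  · refine le_trans ?_ (le_max_right _ _)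
    have h1 := abs_le.1 (hAe z hzV)
    have h2 := abs_le.1 (hΨB z hzV)
    rw [Complex.sub_im] at h1
    rw [abs_le]
    constructor <;> linarith [h1.1, h1.2, h2.1, h2.2]
  · exact (hbd z hz hzV).trans (le_max_left _ _)

end Pool.Agent.Helper83.AD
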