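import Pool.Agent.Helper66.QK.Bound

/-!
# The argument of `(z - p) / (z - q)` is bounded on `V`: version inside `K`

`bound_LK` is `bound_L` (file Helper96/AD/BoundL, proof by helper54) without the hypothesis that the end points `v`, `v'` of
the two segments are outside `K`.
-/

set_option autoImplicit false

open Set Topology Metric Bornology Filter Pool.Agent.Helper66.QJ

namespace Pool.Agent.Helper83.AD

private theorem seg_h83 {p v : ℂ} {V : Set ℂ} (hp : p ∉ V) {z : ℂ} (hz : z ∈ segment ℝ p v) (hzV : z ∈ V) :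
    ∃ s ∈ Ioc (0 : ℝ) 1, z = p + s * (v - p) := by
  rw [segment_eq_image] at hz
  obtain ⟨s, hs, rfl⟩ := hz
  have h1 : (1 - s) • p + s • v = p + s * (v - p) := by
    rw [Complex.real_smul, Complex.real_smul]
    push_cast
    ring
  refine ⟨s, ⟨lt_of_le_of_ne hs.1 ?_, hs.2⟩, h1⟩
  intro h0
  apply hp
  have h2 : (1 - s) • p + s • v ∈ V := hzV
  rw [h1, ← h0] at h2
  simpa using h2

private theorem segcl_h83 (x y : ℂ) : IsClosed (segment ℝ x y) := by
  rw [segment_eq_image]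
  exact (isCompact_Icc.image (by fun_prop)).isClosed

theorem bound_LK {p q v v' : ℂ} {V : Set ℂ} (hV : IsOpen V) (hVc : IsPreconnected V)
    (hp : p ∉ V) (hq : q ∉ V) (hs : ∀ s ∈ Ioc (0 : ℝ) 1, p + s * (v - p) ∈ V)
    (hs' : ∀ s ∈ Ioc (0 : ℝ) 1, q + s * (v' - q) ∈ V) {L : ℂ → ℂ} (hL : ContinuousOn L V)
    (hLe : ∀ z ∈ V, Complex.exp (L z) = (z - p) / (z - q)) : ∃ B : ℝ, ∀ z ∈ V, |(L z).im| ≤ B := by
  have hvV : v ∈ V := by
    have h1 := hs 1 ⟨one_pos, le_rfl⟩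
    rwa [Complex.ofReal_one, one_mul, add_sub_cancel] at h1
  have hv'V : v' ∈ V := by
    have h1 := hs' 1 ⟨one_pos, le_rfl⟩
    rwa [Complex.ofReal_one, one_mul, add_sub_cancel] at h1
  have hnp : ∀ z ∈ V, z - p ≠ 0 := fun z hz h0 => hp (sub_eq_zero.1 h0 ▸ hz)
  have hnq : ∀ z ∈ V, z - q ≠ 0 := fun z hz h0 => hq (sub_eq_zero.1 h0 ▸ hz)
  by_cases hpq : p = q
  · refine ⟨|(L v).im|, fun z hz => ?_⟩
    have h1 := log_unique (r' := fun _ => (0 : ℂ)) hVc hL continuousOn_const (fun t ht => by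
      rw [hLe t ht, Complex.exp_zero, ← hpq]
      exact div_self (hnp t ht)) hz hvV
    rw [sub_zero, sub_zero] at h1
    rw [h1]
  have hpq' : p - q ≠ 0 := sub_ne_zero.2 hpq
  obtain ⟨F, P, B, hF, -, hFV, hvF, hv'F, hP, hPe, hPB⟩ := good hV hVc (x := v) (y := v') hvV hv'V
  set Γ : Set ℂ := segment ℝ p v ∪ F ∪ segment ℝ v' q with hΓ
  have hΓc : IsClosed Γ := ((segcl_h83 p v).union hF.isClosed).union (segcl_h83 v' q)
  have g1 : segment ℝ p v ⊆ Γ := fun z hz => Or.inl (Or.inl hz)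
  have g2 : F ⊆ Γ := fun z hz => Or.inl (Or.inr hz)
  have g3 : segment ℝ v' q ⊆ Γ := fun z hz => Or.inr hz
  have hne : ∀ {z w : ℂ}, w ∈ Γ → z ∉ Γ → z - w ≠ 0 := fun hw hz h0 => hz (sub_eq_zero.1 h0 ▸ hw)
  set Ψ : ℂ → ℂ := fun z => Complex.log ((z - p) / (z - v)) + P z + Complex.log ((z - v') / (z - q)) with hΨd
  have hΨ : ContinuousOn Ψ Γᶜ :=
    (((good_segment p v).mono (compl_subset_compl.2 g1)).add (hP.mono (compl_subset_compl.2 g2))).add
      ((good_segment v' q).mono (compl_subset_compl.2 g3))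
  have hΨe : ∀ z ∉ Γ, Complex.exp (Ψ z) = (z - p) / (z - q) := by
    intro z hz
    have h1 := hne (g1 (left_mem_segment ℝ p v)) hz
    have h2 := hne (g1 (right_mem_segment ℝ p v)) hz
    have h3 := hne (g3 (left_mem_segment ℝ v' q)) hz
    have h4 := hne (g3 (right_mem_segment ℝ v' q)) hz
    rw [hΨd]
    simp only
    rw [Complex.exp_add, Complex.exp_add, Complex.exp_log (div_ne_zero h1 h2), Complex.exp_log (div_ne_zero h3 h4),
      hPe z fun h => hz (g2 h)]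
    field_simp
  have hΨB : ∀ z ∉ Γ, |(Ψ z).im| ≤ Real.pi + B + Real.pi := by
    intro z hz
    rw [hΨd]
    simp only [Complex.add_im]
    refine (abs_add_le _ _).trans (add_le_add ((abs_add_le _ _).trans (add_le_add ?_
      (hPB z fun h => hz (g2 h)))) ?_)
    · rw [Complex.log_im]
      exact Complex.abs_arg_le_pi _
    · rw [Complex.log_im]
      exact Complex.abs_arg_le_pi _
  obtain ⟨b1, hb1⟩ := hF.exists_bound_of_continuousOn (hL.mono hFV)
  obtain ⟨b2, hb2⟩ : ∃ B : ℝ, ∀ s ∈ Ioc (0 : ℝ) 1, |(L (p + s * (v - p))).im| ≤ B := by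
    have hd : ∀ s ∈ Icc (0 : ℝ) 1, p + s * (v - p) - q ≠ 0 := by
      intro s hs1
      rcases hs1.1.eq_or_lt with h1 | h1
      · rw [← h1]
        simpa using hpq'
      · exact hnq _ (hs s ⟨h1, hs1.2⟩)
    refine bdd_path (H := fun s : ℝ => (v - p) / (p + s * (v - p) - q)) 1 ?_ ?_ ?_ ?_
    · exact hL.comp (Continuous.continuousOn (by fun_prop)) fun s h => hs s h
    · exact ContinuousOn.div continuousOn_const (Continuous.continuousOn (by fun_prop)) hd
    · intro s h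
      exact div_ne_zero (hnp v hvV) (hd s h)
    · intro s h
      rw [hLe _ (hs s h), zpow_one, add_sub_cancel_left, mul_div_assoc]
  obtain ⟨b3, hb3⟩ : ∃ B : ℝ, ∀ s ∈ Ioc (0 : ℝ) 1, |(L (q + s * (v' - q))).im| ≤ B := by
    have hd : ∀ s ∈ Icc (0 : ℝ) 1, q + s * (v' - q) - p ≠ 0 := by
      intro s hs1
      rcases hs1.1.eq_or_lt with h1 | h1
      · rw [← h1]
        simpa using (neg_ne_zero.2 hpq')
      · exact hnp _ (hs' s ⟨h1, hs1.2⟩)
    refine bdd_path (H := fun s : ℝ => (q + s * (v' - q) - p) / (v' - q)) (-1) ?_ ?_ ?_ ?_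
    · exact hL.comp (Continuous.continuousOn (by fun_prop)) fun s h => hs' s h
    · exact ContinuousOn.div (Continuous.continuousOn (by fun_prop)) continuousOn_const
        (fun _ _ => hnq v' hv'V)
    · intro s h
      exact div_ne_zero (hd s h) (hnq v' hv'V)
    · intro s h
      have h0 : (s : ℂ) ≠ 0 := by exact_mod_cast h.1.ne'
      have h5 := hnq v' hv'V
      rw [hLe _ (hs' s h), zpow_neg_one, add_sub_cancel_left]
      field_simp
  set M1 : ℝ := max b1 (max b2 b3) with hM1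
  have hbd : ∀ z ∈ V, z ∈ Γ → |(L z).im| ≤ M1 := by
    intro z hz hzΓ
    rcases hzΓ with (h1 | h1) | h1
    · obtain ⟨s, h2, rfl⟩ := seg_h83 hp h1 hz
      exact (hb2 s h2).trans ((le_max_left _ _).trans (le_max_right _ _))
    · exact (Complex.abs_im_le_norm _).trans ((hb1 z h1).trans (le_max_left _ _))
    · rw [segment_symm] at h1
      obtain ⟨s, h2, rfl⟩ := seg_h83 hq h1 hz
      exact (hb3 s h2).trans ((le_max_right _ _).trans (le_max_right _ _))
  set U : Set ℂ := V ∩ Γᶜ with hU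
  have hUo : IsOpen U := hV.inter hΓc.isOpen_compl
  have hloc : ∀ z ∈ U, ∃ ε : ℝ, 0 < ε ∧ ball z ε ⊆ U ∧ ∀ x ∈ ball z ε, L x - Ψ x = L z - Ψ z := by
    intro z hz
    obtain ⟨ε, hε, hs1⟩ := Metric.isOpen_iff.1 hUo z hz
    refine ⟨ε, hε, hs1, fun x hx => ?_⟩
    exact log_unique (convex_ball z ε).isPreconnected (hL.mono fun t ht => (hs1 ht).1)
      (hΨ.mono fun t ht => (hs1 ht).2) (fun t ht => by rw [hLe t (hs1 ht).1, hΨe t (hs1 ht).2]) hx
      (mem_ball_self hε)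
  set B1 : ℝ := Real.pi + B + Real.pi with hB1
  set M2 : ℝ := M1 + 1 + B1 with hM2
  set A : Set ℂ := {z | z ∈ U ∧ M2 < |(L z - Ψ z).im|} with hA
  have hAo : IsOpen A := by
    rw [Metric.isOpen_iff]
    rintro z ⟨hz, hz2⟩
    obtain ⟨ε, hε, hs1, hc⟩ := hloc z hz
    exact ⟨ε, hε, fun x hx => ⟨hs1 hx, by rw [hc x hx]; exact hz2⟩⟩
  have hA'o : IsOpen (V \ A) := by
    rw [Metric.isOpen_iff]
    rintro z ⟨hz, hzA⟩
    by_cases hzΓ : z ∈ Γ
    · have h1 := hbd z hz hzΓ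
      have h2 : ContinuousAt L z := hL.continuousAt (hV.mem_nhds hz)
      obtain ⟨ε, hε, hs1⟩ := Metric.continuousAt_iff.1 h2 1 one_pos
      obtain ⟨ε', hε', hs2⟩ := Metric.isOpen_iff.1 hV z hz
      refine ⟨min ε ε', lt_min hε hε', fun x hx => ⟨hs2 (ball_subset_ball (min_le_right _ _) hx), fun hxA => ?_⟩⟩
      have h3 := hs1 (ball_subset_ball (min_le_left _ _) hx)
      have h4 : |(L x).im| ≤ M1 + 1 := by
        have h5 : |(L x - L z).im| ≤ 1 := by
          rw [dist_eq_norm] at h3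
          exact (Complex.abs_im_le_norm _).trans h3.le
        rw [Complex.sub_im] at h5
        have h6 := abs_le.1 h5
        have h7 := abs_le.1 h1
        rw [abs_le]
        constructor <;> linarith [h6.1, h6.2, h7.1, h7.2]
      have h8 := hΨB x hxA.1.2
      have h9 : |(L x - Ψ x).im| ≤ M2 := by
        rw [Complex.sub_im]
        refine (abs_sub _ _).trans ?_
        rw [hM2]
        linarith
      exact absurd hxA.2 (not_lt.2 h9)
    · obtain ⟨ε, hε, hs1, hc⟩ := hloc z ⟨hz, hzΓ⟩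
      refine ⟨ε, hε, fun x hx => ⟨(hs1 hx).1, fun hxA => hzA ⟨⟨hz, hzΓ⟩, ?_⟩⟩⟩
      rw [← hc x hx]
      exact hxA.2
  have hAe : ∀ z ∈ U, |(L z - Ψ z).im| ≤ M2 := by
    intro z hz
    by_contra hcon
    have hzA : z ∈ A := ⟨hz, not_le.1 hcon⟩
    obtain ⟨x, -, hx1, hx2⟩ := hVc A (V \ A) hAo hA'o
      (fun x hx => by
        by_cases hxA : x ∈ A
        · exact Or.inl hxA
        · exact Or.inr ⟨hx, hxA⟩)
      ⟨z, hz.1, hzA⟩ ⟨v, hvV, hvV, fun hvA => hvA.1.2 (g2 hvF)⟩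
    exact hx2.2 hx1
  refine ⟨max M1 (M2 + B1), fun z hz => ?_⟩
  by_cases hzΓ : z ∈ Γ
  · exact (hbd z hz hzΓ).trans (le_max_left _ _)
  · refine le_trans ?_ (le_max_right _ _)
    have h1 := abs_le.1 (hAe z ⟨hz, hzΓ⟩)
    have h2 := abs_le.1 (hΨB z hzΓ)
    rw [Complex.sub_im] at h1
    rw [abs_le]
    constructor <;> linarith [h1.1, h1.2, h2.1, h2.2]

end Pool.Agent.Helper83.AD
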