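import Pool.Agent.Helper96.AD.Comps

/-!
# Hulls and visible points (MP_a03adf_an)

`Hl c T` is the complement of `Cm c T` (the component of `Tᶜ` which contains the basin of infinity). `prec_diff`: an open
connected subset of the plane minus a finite set is connected. `front_sub`: if the frontier points of `Cm c W` in `U` are in
`E` then `U \ E ⊆ Cm c W`. `near_K`: near every frontier point `x ∈ A \ B` of `Cm c (A ∪ B)` there is a point of `A \ B` which
is the end point of a segment in `Cm c (A ∪ B)`.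
-/

set_option autoImplicit false

open Set Topology Metric Bornology Filter Pool.Agent.Helper66.QJ Pool.Agent.Helper96.AD

namespace Pool.Agent.Helper83.AD

variable {c : ℂ} {T : Set ℂ}

/-- the hull of `T` -/
def Hl (c : ℂ) (T : Set ℂ) : Set ℂ := (Cm c T)ᶜ

theorem sub_Hl : T ⊆ Hl c T := fun _ hz h => cm_sub h hz

theorem Hl_sub_K (hTK : T ⊆ K c) : Hl c T ⊆ K c := fun _ hz => by
  by_contra h
  exact hz (cm_sup hTK h)

theorem Hl_compact (hT : IsCompact T) (hTK : T ⊆ K c) : IsCompact (Hl c T) :=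
  (isCompact_K c).of_isClosed_subset (cm_open hT).isClosed_compl (Hl_sub_K hTK)

theorem Hl_J (hT : IsCompact T) (hTK : T ⊆ K c) {z : ℂ} (hz : z ∈ J c) (hzH : z ∈ Hl c T) : z ∈ T := by
  by_contra h
  exact hzH (cm_J hT hTK hz h)

theorem Hl_compl_conn (c : ℂ) (T : Set ℂ) : IsPreconnected (Hl c T)ᶜ := by
  rw [Hl, compl_compl]
  exact cm_conn c T

theorem Hl_conn (hT : IsCompact T) (hTc : IsPreconnected T) (hTn : T.Nonempty) : IsPreconnected (Hl c T) := by
  have hXo : IsOpen Tᶜ := hT.isClosed.isOpen_compl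
  have hΩo : IsOpen (Cm c T) := cm_open hT
  have hUo : IsOpen (Tᶜ \ Cm c T) := by
    rw [isOpen_iff_mem_nhds]
    intro z hz
    have h1 : connectedComponentIn Tᶜ z ∈ 𝓝 z :=
      hXo.connectedComponentIn.mem_nhds (mem_connectedComponentIn hz.1)
    refine Filter.mem_of_superset h1 fun w hw => ⟨connectedComponentIn_subset _ _ hw, fun hwΩ => ?_⟩
    apply hz.2
    have h2 := connectedComponentIn_eq hw
    have h3 := connectedComponentIn_eq hwΩ
    rw [Cm, h3, ← h2]
    exact mem_connectedComponentIn hz.1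
  have hconnH : IsConnected (univ \ Cm c T) := by
    refine conn_part (C := T) (U := Tᶜ \ Cm c T) isClosed_univ isPreconnected_univ ⟨hTn, hTc⟩
      (subset_univ _) hUo hΩo ?_ disjoint_sdiff_left ?_
    · intro z _
      by_cases h1 : z ∈ T
      · exact Or.inl h1
      · by_cases h2 : z ∈ Cm c T
        · exact Or.inr (Or.inr h2)
        · exact Or.inr (Or.inl ⟨h1, h2⟩)
    · rw [Set.disjoint_left]
      intro z h1 h2
      exact cm_sub h2 h1
  rw [Hl, Set.compl_eq_univ_sdiff]
  exact hconnH.isPreconnected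

/-- the punctured disc is connected -/
theorem punct (e : ℂ) (r : ℝ) : IsPreconnected (ball e r \ {e}) := by
  have h1 : ball e r \ {e} =
      (fun p : ℝ × ℝ => e + (p.1 : ℂ) * Complex.exp (p.2 * Complex.I)) '' (Ioo 0 r ×ˢ univ) := by
    ext z
    constructor
    · rintro ⟨hz, hze⟩
      rw [mem_ball, dist_eq_norm] at hz
      have hze' : 0 < ‖z - e‖ := norm_pos_iff.2 (sub_ne_zero.2 hze)
      refine ⟨(‖z - e‖, Complex.arg (z - e)), ⟨⟨hze', hz⟩, mem_univ _⟩, ?_⟩
      show e + (‖z - e‖ : ℂ) * Complex.exp (Complex.arg (z - e) * Complex.I) = z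
      rw [Complex.norm_mul_exp_arg_mul_I]
      ring
    · rintro ⟨⟨s, t⟩, ⟨hs, -⟩, rfl⟩
      have h2 : ‖(s : ℂ) * Complex.exp (t * Complex.I)‖ = s := by
        rw [norm_mul, Complex.norm_exp_ofReal_mul_I, mul_one, Complex.norm_real, Real.norm_of_nonneg hs.1.le]
      refine ⟨?_, ?_⟩
      · show e + (s : ℂ) * Complex.exp (t * Complex.I) ∈ ball e r
        rw [mem_ball, dist_eq_norm, add_sub_cancel_left, h2]
        exact hs.2
      · intro h3
        have h4 : e + (s : ℂ) * Complex.exp (t * Complex.I) = e := h3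
        rw [add_eq_left] at h4
        rw [h4, norm_zero] at h2
        exact hs.1.ne h2
  rw [h1]
  exact (isPreconnected_Ioo.prod isPreconnected_univ).image _ (by fun_prop)

theorem prec_diff1 {U : Set ℂ} (hU : IsOpen U) (hUc : IsPreconnected U) (e : ℂ) : IsPreconnected (U \ {e}) := by
  by_cases he : e ∈ U
  swap
  · rwa [sdiff_singleton_eq_self he]
  obtain ⟨r, hr, hrU⟩ := Metric.isOpen_iff.1 hU e he
  have hP : ball e r \ {e} ⊆ U \ {e} := sdiff_subset_sdiff_left hrU
  have main : ∀ u v : Set ℂ, IsOpen u → IsOpen v → U \ {e} ⊆ u ∪ v → ((U \ {e}) ∩ v).Nonempty →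
      ball e r \ {e} ⊆ u → ((U \ {e}) ∩ (u ∩ v)).Nonempty := by
    intro u v hu hv huv hnv hPu
    obtain ⟨z, hzU, hz1, hz2⟩ := hUc (u ∪ ball e r) (v \ {e}) (hu.union isOpen_ball)
      (hv.sdiff isClosed_singleton) (fun z hz => by
        by_cases hze : z = e
        · rw [hze]
          exact Or.inl (Or.inr (mem_ball_self hr))
        · rcases huv ⟨hz, hze⟩ with h | h
          · exact Or.inl (Or.inl h)
          · exact Or.inr ⟨h, hze⟩) ⟨e, he, Or.inr (mem_ball_self hr)⟩ (by
        obtain ⟨w, hw, hwv⟩ := hnv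
        exact ⟨w, hw.1, hwv, hw.2⟩)
    refine ⟨z, ⟨hzU, hz2.2⟩, ?_, hz2.1⟩
    rcases hz1 with h | h
    · exact h
    · exact hPu ⟨h, hz2.2⟩
  intro u v hu hv huv hnu hnv
  by_contra hemp
  rw [Set.not_nonempty_iff_eq_empty] at hemp
  have hPc := punct e r
  have h1 : ball e r \ {e} ⊆ u ∨ ball e r \ {e} ⊆ v := by
    by_contra hcon
    push Not at hcon
    obtain ⟨⟨x, hx, hxu⟩, ⟨y, hy, hyv⟩⟩ := And.imp Set.not_subset.1 Set.not_subset.1 hcon
    obtain ⟨z, hz, hz2⟩ := hPc u v hu hv (hP.trans huv) ⟨y, hy, (huv (hP hy)).resolve_right hyv⟩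
      ⟨x, hx, (huv (hP hx)).resolve_left hxu⟩
    have : z ∈ (U \ {e}) ∩ (u ∩ v) := ⟨hP hz, hz2⟩
    rw [hemp] at this
    exact this
  rcases h1 with h1 | h1
  · obtain ⟨z, hz⟩ := main u v hu hv huv hnv h1
    rw [hemp] at hz
    exact hz
  · obtain ⟨z, hz, hz2⟩ := main v u hv hu (by rwa [union_comm]) hnu h1
    have : z ∈ (U \ {e}) ∩ (u ∩ v) := ⟨hz, hz2.2, hz2.1⟩
    rw [hemp] at this
    exact this

/-- an open connected subset of the plane minus a finite set is connected -/
theorem prec_diff {U E : Set ℂ} (hU : IsOpen U) (hUc : IsPreconnected U) (hE : E.Finite) : IsPreconnected (U \ E) := by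
  induction E, hE using Set.Finite.induction_on with
  | empty => rwa [sdiff_empty]
  | @insert e E _ hE ih =>
    have h1 : U \ insert e E = (U \ E) \ {e} := by
      ext z
      simp only [Set.mem_sdiff, mem_insert_iff, mem_singleton_iff]
      tauto
    rw [h1]
    exact prec_diff1 (hU.sdiff hE.isClosed) ih e

/-- a point of the closure of a component is in the component or in the removed set -/
theorem cm_closure {W : Set ℂ} (hW : IsCompact W) {z : ℂ} (hz : z ∈ closure (Cm c W)) (hzW : z ∉ W) : z ∈ Cm c W := by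
  obtain ⟨r, hr, hrW⟩ := Metric.isOpen_iff.1 hW.isClosed.isOpen_compl z hzW
  obtain ⟨p, hp, hzp⟩ := Metric.mem_closure_iff.1 hz r hr
  have h1 : ball z r ⊆ connectedComponentIn Wᶜ p :=
    (convex_ball z r).isPreconnected.subset_connectedComponentIn (by rwa [mem_ball, dist_comm]) hrW
  have h2 := connectedComponentIn_eq hp
  rw [Cm, h2]
  exact h1 (mem_ball_self hr)

theorem front_sub {W U E : Set ℂ} (hW : IsCompact W) (hUE : IsPreconnected (U \ E))
    (hne : ((U \ E) ∩ Cm c W).Nonempty) (hsub : closure (Cm c W) ∩ (U ∩ W) ⊆ E) : U \ E ⊆ Cm c W := by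
  refine IsPreconnected.subset_left_of_subset_union (cm_open hW) (isClosed_closure (s := Cm c W)).isOpen_compl
    (disjoint_left.2 fun z hz hz' => hz' (subset_closure hz)) ?_ hne hUE
  intro z hz
  by_cases h : z ∈ closure (Cm c W)
  · left
    refine cm_closure hW h fun hzW => ?_
    exact hz.2 (hsub ⟨h, hz.1, hzW⟩)
  · exact Or.inr h

theorem near_K {A B : Set ℂ} (hA : IsCompact A) (hB : IsCompact B) {x : ℂ}
    (hxA : x ∈ A) (hxB : x ∉ B) (hxV : x ∈ closure (Cm c (A ∪ B))) {ε : ℝ} (hε : 0 < ε) :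
    ∃ a v : ℂ, a ∈ A ∧ a ∉ B ∧ ‖a - x‖ < ε ∧ ∀ s ∈ Ioc (0 : ℝ) 1, a + s * (v - a) ∈ Cm c (A ∪ B) := by
  obtain ⟨r, hr, hrB⟩ := Metric.isOpen_iff.1 hB.isClosed.isOpen_compl x hxB
  obtain ⟨δ, hδ, hδr, hδε⟩ : ∃ δ : ℝ, 0 < δ ∧ 2 * δ ≤ r ∧ 2 * δ ≤ ε :=
    ⟨min (r / 2) (ε / 2), by positivity, by have := min_le_left (r / 2) (ε / 2); linarith,
      by have := min_le_right (r / 2) (ε / 2); linarith⟩
  obtain ⟨p, hp, hxp⟩ := Metric.mem_closure_iff.1 hxV δ hδ
  have hpW : p ∉ A ∪ B := cm_sub hp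
  obtain ⟨a, ha, hap⟩ := (hA.union hB).exists_infDist_eq_dist ⟨x, Or.inl hxA⟩ p
  have hmin : ∀ w ∈ A ∪ B, dist p a ≤ dist p w := fun w hw => hap ▸ Metric.infDist_le_dist_of_mem hw
  have h1 : dist p a ≤ dist p x := hmin x (Or.inl hxA)
  have h2 : dist a x < 2 * δ := by
    calc dist a x ≤ dist a p + dist p x := dist_triangle _ _ _
      _ = dist p a + dist x p := by rw [dist_comm a p, dist_comm p x]
      _ < 2 * δ := by rw [dist_comm p x] at h1; linarith
  have haB : a ∉ B := fun h => hrB (mem_ball.2 (h2.trans_le hδr)) h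
  have haA : a ∈ A := ha.resolve_right haB
  refine ⟨a, p, haA, haB, ?_, ?_⟩
  · rw [← dist_eq_norm]
    exact h2.trans_le hδε
  · have hpa : 0 < dist p a := by
      rw [dist_pos]
      rintro rfl
      exact hpW ha
    have h3 : IsPreconnected ((fun s : ℝ => a + s * (p - a)) '' Ioc (0 : ℝ) 1) :=
      isPreconnected_Ioc.image _ (by fun_prop)
    have h4 : (fun s : ℝ => a + s * (p - a)) '' Ioc (0 : ℝ) 1 ⊆ Cm c (A ∪ B) := by
      have h5 : (fun s : ℝ => a + s * (p - a)) '' Ioc (0 : ℝ) 1 ⊆ connectedComponentIn (A ∪ B)ᶜ p := by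
        refine h3.subset_connectedComponentIn ⟨1, by simp, by simp⟩ ?_
        rintro _ ⟨s, hs, rfl⟩ hsT
        have h5 := hmin _ hsT
        have h6 : dist p (a + s * (p - a)) = (1 - s) * dist p a := by
          rw [dist_eq_norm, dist_eq_norm]
          have e1 : p - (a + s * (p - a)) = ((1 - s : ℝ) : ℂ) * (p - a) := by push_cast; ring
          rw [e1, norm_mul, Complex.norm_real, Real.norm_of_nonneg (by linarith [hs.2])]
        have h7 : dist p a ≤ (1 - s) * dist p a := by
          rw [← h6]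
          exact h5
        nlinarith [hs.1]
      have h6 := connectedComponentIn_eq hp
      rw [Cm, h6]
      exact h5
    exact fun s hs => h4 (mem_image_of_mem _ hs)

end Pool.Agent.Helper83.AD
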