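import Pool.Agent.Helper83.AD.PairK
import Pool.Agent.Helper83.AD.HullK
import Pool.Agent.Helper96.AD.Cases

/-!
# Continua in `K` containing the critical point and the critical value (MP_a03adf_an)

Versions of `dec_of_diff` and `dec_of_inv` (file Helper96/AD/Cases) for continua in `K` (not in `J`).
-/

set_option autoImplicit false

open Set Topology Metric Bornology Filter Pool.Agent.Helper66.QJ Pool.Agent.Helper96.AD

namespace Pool.Agent.Helper83.AD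

variable {c : ℂ}

theorem infinite_basin (c : ℂ) : (K c)ᶜ.Infinite := by
  intro hfin
  have h1 : (univ : Set ℂ).Finite → False := fun h => Set.infinite_univ h
  have h2 : IsBounded (univ : Set ℂ) := by
    rw [← union_compl_self (K c)]
    exact (isCompact_K c).isBounded.union hfin.isBounded
  have h3 := h2.subset_closedBall (0 : ℂ)
  obtain ⟨R, hR⟩ := h3
  have h4 := hR (mem_univ (((|R| + 1 : ℝ)) : ℂ))
  rw [mem_closedBall_zero_iff, Complex.norm_real, Real.norm_of_nonneg (by positivity)] at h4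
  linarith [le_abs_self R]

theorem dec_of_diffK {Q : Set ℂ} (hQ : IsCompact Q) (hQc : IsPreconnected Q) (hQK : Q ⊆ K c)
    (hQf : IsPreconnected Qᶜ) (h0 : (0 : ℂ) ∈ Q)
    (hcQ : c ∈ Q) {b : ℂ} (hb : f c b = b) (hbJ : b ∈ J c) (hbQ : b ∉ Q) (hx : (Q \ f c ⁻¹' Q).Nonempty)
    (hy : (f c ⁻¹' Q \ Q).Nonempty) : Dec (J c) := by
  have hW1K : f c ⁻¹' Q ⊆ K c := fun z hz => f_mem_K_iff.1 (hQK hz)
  have hW1 : IsCompact (f c ⁻¹' Q) :=
    (isCompact_K c).of_isClosed_subset (hQ.isClosed.preimage (continuous_f c)) hW1K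
  have hW1c : IsPreconnected (f c ⁻¹' Q) := preimage_conn0 hQc hcQ
  have h01 : (0 : ℂ) ∈ f c ⁻¹' Q := by
    show f c 0 ∈ Q
    rwa [f_zero]
  have hW : IsCompact (Q ∪ f c ⁻¹' Q) := hQ.union hW1
  have hWK : Q ∪ f c ⁻¹' Q ⊆ K c := union_subset hQK hW1K
  have hQcm : Cm c Q = Qᶜ := by
    apply subset_antisymm
    · exact fun z hz => cm_sub hz
    · exact sub_cm hQK hQf (disjoint_compl_left) (far_point c |> fun h h' => h (hQK h')) (far_point c)
  have hW1f : IsPreconnected (f c ⁻¹' Q)ᶜ := by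
    have h1 := cm_conn c (f c ⁻¹' Q)
    rw [← cm_pre hQ hQK, hQcm] at h1
    exact h1
  have hinf := infinite_basin c
  -- the point `a`
  obtain ⟨x, ⟨hxV, hxQ, hxW1⟩, hxc⟩ : ∃ x, x ∈ closure (Cm c (Q ∪ f c ⁻¹' Q)) ∩ (Q \ f c ⁻¹' Q) ∧ x ≠ c := by
    by_contra hcon
    push Not at hcon
    have h1 : (f c ⁻¹' Q)ᶜ \ {c} ⊆ Cm c (Q ∪ f c ⁻¹' Q) := by
      refine front_sub hW (prec_diff hW1.isClosed.isOpen_compl hW1f (Set.finite_singleton c)) ?_ ?_
      · obtain ⟨p, hp, hp2⟩ := hinf.exists_notMem_finite (Set.finite_singleton c)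
        exact ⟨p, ⟨fun h => hp (hW1K h), hp2⟩, cm_sup hWK hp⟩
      · rintro z ⟨hz1, hz2, hz3⟩
        have hzQ : z ∈ Q := hz3.resolve_right hz2
        exact hcon z ⟨hz1, hzQ, hz2⟩
    refine infinite_diff hQc hW1.isClosed ⟨0, h0, h01⟩ hx ((Set.finite_singleton c).subset ?_)
    rintro z ⟨hzQ, hz1⟩
    by_contra hzc
    exact cm_sub (h1 ⟨hz1, hzc⟩) (Or.inl hzQ)
  have hxc' : 0 < ‖x - c‖ := norm_pos_iff.2 (sub_ne_zero.2 hxc)
  obtain ⟨a, v, haQ, -, hax, hs⟩ := near_K hQ hW1 hxQ hxW1 hxV hxc'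
  have hac : a ≠ c := by
    rintro rfl
    rw [norm_sub_rev] at hax
    exact lt_irrefl _ hax
  -- the point `a1`
  have hEa := finite_pre c a
  obtain ⟨y, ⟨hyV, hyW1, hyQ⟩, hya⟩ : ∃ y, y ∈ closure (Cm c (Q ∪ f c ⁻¹' Q)) ∩ (f c ⁻¹' Q \ Q) ∧ f c y ≠ a := by
    by_contra hcon
    push Not at hcon
    have h1 : Qᶜ \ {z | f c z = a} ⊆ Cm c (Q ∪ f c ⁻¹' Q) := by
      refine front_sub hW (prec_diff hQ.isClosed.isOpen_compl hQf hEa) ?_ ?_
      · obtain ⟨p, hp, hp2⟩ := hinf.exists_notMem_finite hEa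
        exact ⟨p, ⟨fun h => hp (hQK h), hp2⟩, cm_sup hWK hp⟩
      · rintro z ⟨hz1, hz2, hz3⟩
        have hzQ : z ∈ f c ⁻¹' Q := hz3.resolve_left hz2
        exact hcon z ⟨hz1, hzQ, hz2⟩
    refine infinite_diff hW1c hQ.isClosed ⟨0, h01, h0⟩ hy (hEa.subset ?_)
    rintro z ⟨hzQ, hz1⟩
    by_contra hzc
    exact cm_sub (h1 ⟨hz1, hzc⟩) (Or.inr hzQ)
  have hopen : IsOpen {z : ℂ | f c z ≠ a} := isOpen_ne_fun (continuous_f c) continuous_const
  obtain ⟨ε, hε, hεs⟩ := Metric.isOpen_iff.1 hopen y hya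
  rw [union_comm] at hyV
  obtain ⟨a1, v1, ha1T, -, ha1y, hs1⟩ := near_K hW1 hQ hyW1 hyQ hyV hε
  have hne : f c a1 ≠ a := hεs (by rwa [mem_ball, dist_eq_norm])
  refine dec_of_pairK hQ hQc hQK h0 hcQ hb hbJ hbQ haQ hac hs ha1T hne (v1 := v1) ?_
  rw [union_comm]
  exact hs1

theorem dec_of_invK {X : Set ℂ} (hX : IsCompact X) (hXc : IsPreconnected X) (hXK : X ⊆ K c) (h0 : (0 : ℂ) ∈ X)
    (hc0 : c ≠ 0) (hfX : f c '' X = X) {b : ℂ} (hb : f c b = b) (hbJ : b ∈ J c) (hbX : b ∉ X) : Dec (J c) := by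
  have hX1K : f c ⁻¹' X ⊆ K c := fun z hz => f_mem_K_iff.1 (hXK hz)
  have hX1 : IsCompact (f c ⁻¹' X) :=
    (isCompact_K c).of_isClosed_subset (hX.isClosed.preimage (continuous_f c)) hX1K
  have hcX : c ∈ X := by
    rw [← hfX]
    exact ⟨0, h0, f_zero c⟩
  have hsub : X ⊆ f c ⁻¹' X := fun x hx => by
    show f c x ∈ X
    rw [← hfX]
    exact ⟨x, hx, rfl⟩
  have hun : X ∪ f c ⁻¹' X = f c ⁻¹' X := union_eq_self_of_subset_left hsub
  -- a point off the finite exceptional set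
  have hE : (({z : ℂ | f c z = 1 * z} ∪ {z : ℂ | f c z = -1 * z}) ∪ {c, -c}).Finite :=
    ((finite_fix c 1).union (finite_fix c (-1))).union (Set.toFinite _)
  set E : Set ℂ := ({z : ℂ | f c z = 1 * z} ∪ {z : ℂ | f c z = -1 * z}) ∪ {c, -c} with hEd
  obtain ⟨x, ⟨hxV, hxX⟩, hxE⟩ : ∃ x, x ∈ closure (Cm c (f c ⁻¹' X)) ∩ f c ⁻¹' X ∧ x ∉ E := by
    by_contra hcon
    push Not at hcon
    have h1 : univ \ E ⊆ Cm c (f c ⁻¹' X) := by
      refine front_sub hX1 (prec_diff isOpen_univ isPreconnected_univ hE) ?_ ?_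
      · obtain ⟨p, hp, hp2⟩ := (infinite_basin c).exists_notMem_finite hE
        exact ⟨p, ⟨mem_univ p, hp2⟩, cm_sup hX1K hp⟩
      · rintro z ⟨hz1, -, hz3⟩
        exact hcon z ⟨hz1, hz3⟩
    refine infinite_diff hXc (isClosed_singleton (x := (0 : ℂ))) ⟨0, h0, rfl⟩ ⟨c, hcX, hc0⟩ (hE.subset ?_)
    rintro z ⟨hzX, -⟩
    by_contra hzE
    exact cm_sub (h1 ⟨mem_univ z, hzE⟩) (hsub hzX)
  obtain ⟨ε, hε, hεs⟩ := Metric.isOpen_iff.1 hE.isClosed.isOpen_compl x hxE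
  obtain ⟨a, v, haX1, -, hax, hs⟩ := near_K (A := f c ⁻¹' X) (B := ∅) hX1 isCompact_empty hxX
    (notMem_empty x) (by rwa [union_empty]) hε
  rw [union_empty] at hs
  have haE := hεs (by rwa [mem_ball, dist_eq_norm] : a ∈ ball x ε)
  rw [hEd] at haE
  simp only [mem_compl_iff, mem_union, mem_ofPred_eq, mem_insert_iff, mem_singleton_iff, not_or, one_mul,
    neg_mul] at haE
  obtain ⟨⟨hfa, hfa'⟩, hac, hac'⟩ := haE
  have haf : f c a ∈ X := haX1
  have h2 : a ∈ X ∨ -a ∈ X := by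
    rw [← hfX] at haf
    obtain ⟨t, ht, hta⟩ := haf
    rcases f_eq_iff.1 hta with h | h
    · exact Or.inl (h ▸ ht)
    · exact Or.inr (h ▸ ht)
  rcases h2 with h2 | h2
  · refine dec_of_pairK hX hXc hXK h0 hcX hb hbJ hbX h2 hac (v := v) ?_ haX1 hfa (v1 := v) ?_
    · rw [hun]
      exact hs
    · rw [hun]
      exact hs
  · have hs' : ∀ s ∈ Ioc (0 : ℝ) 1, -a + s * (-v - -a) ∈ Cm c (X ∪ f c ⁻¹' X) := by
      intro s hs1
      have h3 := hs s hs1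
      rw [hun, ← cm_pre hX hXK] at *
      rw [mem_preimage] at h3 ⊢
      rw [show -a + (s : ℂ) * (-v - -a) = -(a + s * (v - a)) by ring, f_neg]
      exact h3
    refine dec_of_pairK hX hXc hXK h0 hcX hb hbJ hbX h2 (fun h => hac' (by rw [← h, neg_neg]))
      hs' ?_ ?_ hs'
    · rw [f_neg]
      exact haX1
    · rw [f_neg]
      exact hfa'

end Pool.Agent.Helper83.AD
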