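import Pool.Agent.Helper83.AD.Tau

/-!
# The external angle from bounded logarithms (MP_a03adf_an, step (3) of helper96's proof, sequence version of helper41)

`dec_of_P`: let `a n` be points of `K`, `b` a fixed point in the Julia set, `b ≠ a n`, and `P n` uniformly bounded
continuous functions on `Kᶜ ∪ {b}` with `|u| * e (P n z) = u` for `u = (f z - a (n + 1)) / (z - a n) ^ 2`. Then the Julia set
is decomposable.
-/

set_option autoImplicit false

open Set Topology Metric Bornology Filter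

namespace Pool.Agent.Helper83.AD

open Pool.Agent.Helper66.QJ

/-- the direction of a complex number -/
noncomputable def unit (z : ℂ) : ℂ := z / ‖z‖

theorem norm_unit {z : ℂ} (hz : z ≠ 0) : ‖unit z‖ = 1 := by
  rw [unit, norm_div, Complex.norm_real, norm_norm, div_self (norm_ne_zero_iff.2 hz)]

theorem unit_mul (z w : ℂ) : unit (z * w) = unit z * unit w := by
  rw [unit, unit, unit, norm_mul, Complex.ofReal_mul, mul_div_mul_comm]

theorem unit_neg (z : ℂ) : unit (-z) = -unit z := by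
  rw [unit, unit, norm_neg, neg_div]

theorem continuousOn_unit : ContinuousOn unit {z | z ≠ 0} := by
  refine continuousOn_id.div (Complex.continuous_ofReal.comp continuous_norm).continuousOn fun z hz => ?_
  simpa using hz

theorem unit_eq_e {z : ℂ} (hz : z ≠ 0) : unit z = e (Complex.arg z / (2 * Real.pi)) := by
  have h1 : (‖z‖ : ℂ) ≠ 0 := by simpa using hz
  rw [unit, div_eq_iff h1, e, mul_comm]
  have h2 : (2 * Real.pi * ((Complex.arg z / (2 * Real.pi) : ℝ) : ℂ) * Complex.I) = Complex.arg z * Complex.I := by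
    have h3 : (Real.pi : ℂ) ≠ 0 := by exact_mod_cast Real.pi_ne_zero
    push_cast
    field_simp
  rw [h2]
  exact (Complex.norm_mul_exp_arg_mul_I z).symm

theorem unit_ofReal_mul {r : ℝ} (hr : 0 < r) (z : ℂ) : unit (r * z) = unit z := by
  have h1 : (r : ℂ) ≠ 0 := by exact_mod_cast hr.ne'
  rw [unit_mul]
  have : unit (r : ℂ) = 1 := by
    rw [unit, Complex.norm_real, Real.norm_of_nonneg hr.le, div_self h1]
  rw [this, one_mul]

/-- the quotient `w / (w - a)` lies in the right half plane for `‖a‖ < ‖w‖` -/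
theorem re_quot {a w : ℂ} (h : ‖a‖ < ‖w‖) : 0 < (w / (w - a)).re := by
  have hw : w ≠ 0 := by
    intro h0
    rw [h0, norm_zero] at h
    exact absurd h (not_lt.2 (norm_nonneg a))
  have h1 : w / (w - a) = (1 - a / w)⁻¹ := by
    rw [one_sub_div hw, inv_div]
  rw [h1]
  have h2 : ‖a / w‖ < 1 := by
    rw [norm_div, div_lt_one (norm_pos_iff.2 hw)]
    exact h
  have h3 : 0 < (1 - a / w).re := by
    rw [Complex.sub_re, Complex.one_re]
    have := Complex.re_le_norm (a / w)
    linarith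
  rw [Complex.inv_re]
  refine div_pos h3 (Complex.normSq_pos.2 fun h0 => ?_)
  rw [h0, Complex.zero_re] at h3
  exact lt_irrefl _ h3

section

variable {c : ℂ}

/-- the complement of `K` with the point `b` -/
def Dom (c b : ℂ) : Set ℂ := (K c)ᶜ ∪ {b}

theorem maps_Dom {b : ℂ} (hfb : f c b = b) {z : ℂ} (hz : z ∈ Dom c b) : f c z ∈ Dom c b := by
  rcases hz with hz | hz
  · exact Or.inl fun h => hz (f_mem_K_iff.1 h)
  · right
    rw [mem_singleton_iff.1 hz, hfb]
    rfl

theorem iter_Dom {b : ℂ} (hfb : f c b = b) (n : ℕ) {z : ℂ} (hz : z ∈ Dom c b) : (f c)^[n] z ∈ Dom c b := by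
  induction n with
  | zero => exact hz
  | succ n ih =>
    rw [Function.iterate_succ_apply']
    exact maps_Dom hfb ih

/-- the correction of the argument -/
noncomputable def Dv (c : ℂ) (P : ℕ → ℂ → ℝ) (m : ℕ) (z : ℂ) : ℝ :=
  -∑' n : ℕ, (1 / 2 : ℝ) ^ (n + 1) * P (m + n) ((f c)^[n] z)

variable {P : ℕ → ℂ → ℝ} {C : ℝ} {b : ℂ}

theorem term_bound (hfb : f c b = b) (hPb : ∀ n, ∀ z ∈ Dom c b, |P n z| ≤ C) (m n : ℕ) {z : ℂ} (hz : z ∈ Dom c b) :
    ‖(1 / 2 : ℝ) ^ (n + 1) * P (m + n) ((f c)^[n] z)‖ ≤ (1 / 2 : ℝ) ^ (n + 1) * C := by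
  rw [norm_mul, Real.norm_of_nonneg (by positivity : (0 : ℝ) ≤ (1 / 2) ^ (n + 1)), Real.norm_eq_abs]
  exact mul_le_mul_of_nonneg_left (hPb _ _ (iter_Dom hfb n hz)) (by positivity)

theorem hasSum_bound (C : ℝ) : HasSum (fun n : ℕ => (1 / 2 : ℝ) ^ (n + 1) * C) C := by
  have h1 := (hasSum_geometric_two.mul_left (1 / 2 : ℝ)).mul_right C
  rw [show (1 / 2 : ℝ) * 2 * C = C by ring] at h1
  refine h1.congr_fun ?_
  intro n
  rw [pow_succ]
  ring

theorem term_summable (hfb : f c b = b) (hPb : ∀ n, ∀ z ∈ Dom c b, |P n z| ≤ C) (m : ℕ) {z : ℂ} (hz : z ∈ Dom c b) :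
    Summable fun n : ℕ => (1 / 2 : ℝ) ^ (n + 1) * P (m + n) ((f c)^[n] z) :=
  Summable.of_norm_bounded (hasSum_bound C).summable fun n => term_bound hfb hPb m n hz

theorem Dv_bound (hfb : f c b = b) (hPb : ∀ n, ∀ z ∈ Dom c b, |P n z| ≤ C) (m : ℕ) {z : ℂ} (hz : z ∈ Dom c b) :
    |Dv c P m z| ≤ C := by
  rw [Dv, abs_neg, ← Real.norm_eq_abs]
  exact tsum_of_norm_bounded (hasSum_bound C) fun n => term_bound hfb hPb m n hz

theorem Dv_cont (hfb : f c b = b) (hPb : ∀ n, ∀ z ∈ Dom c b, |P n z| ≤ C) (hPc : ∀ n, ContinuousOn (P n) (Dom c b))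
    (m : ℕ) : ContinuousOn (Dv c P m) (Dom c b) := by
  refine ContinuousOn.neg (continuousOn_tsum (fun n => ?_) (hasSum_bound C).summable
    fun n z hz => term_bound hfb hPb m n hz)
  exact continuousOn_const.mul ((hPc (m + n)).comp ((continuous_f c).iterate n).continuousOn
    fun z hz => iter_Dom hfb n hz)

theorem Dv_f (hfb : f c b = b) (hPb : ∀ n, ∀ z ∈ Dom c b, |P n z| ≤ C) (m : ℕ) {z : ℂ} (hz : z ∈ Dom c b) :
    Dv c P (m + 1) (f c z) = 2 * Dv c P m z + P m z := by
  have h1 := (term_summable hfb hPb m hz).tsum_eq_zero_add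
  have h2 : (∑' n : ℕ, (1 / 2 : ℝ) ^ (n + 1 + 1) * P (m + (n + 1)) ((f c)^[n + 1] z)) =
      1 / 2 * ∑' n : ℕ, (1 / 2 : ℝ) ^ (n + 1) * P (m + 1 + n) ((f c)^[n] (f c z)) := by
    rw [← tsum_mul_left]
    refine tsum_congr fun n => ?_
    rw [Function.iterate_succ_apply, show m + (n + 1) = m + 1 + n by ring, pow_succ (1 / 2 : ℝ) (n + 1)]
    ring
  rw [Dv, Dv, h1, h2]
  simp only [zero_add, pow_one, Nat.add_zero, Function.iterate_zero, id_eq]
  ring

theorem Dv_sub (hfb : f c b = b) (hPb : ∀ n, ∀ z ∈ Dom c b, |P n z| ≤ C) (m : ℕ) {z : ℂ} (hz : z ∈ Dom c b)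
    (hz' : -z ∈ Dom c b) : Dv c P m z - Dv c P m (-z) = -(P m z - P m (-z)) / 2 := by
  have h1 := Dv_f hfb hPb m hz
  have h2 := Dv_f hfb hPb m hz'
  rw [f_neg] at h2
  linarith

/-- the external angle -/
noncomputable def chiv (c : ℂ) (P : ℕ → ℂ → ℝ) (a : ℕ → ℂ) (m : ℕ) (z : ℂ) : ℂ :=
  unit (z - a m) * e (-Dv c P m z)

variable {a : ℕ → ℂ}

theorem neg_notMem_K {z : ℂ} (hz : z ∉ K c) : -z ∉ K c := by
  intro h
  apply hz
  rw [← f_mem_K_iff, ← f_neg, f_mem_K_iff]
  exact h

theorem chiv_norm (had : ∀ m, a m ∉ Dom c b) (m : ℕ) {z : ℂ} (hz : z ∈ Dom c b) : ‖chiv c P a m z‖ = 1 := by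
  rw [chiv, norm_mul, norm_e, mul_one]
  exact norm_unit (sub_ne_zero.2 fun h => had m (h ▸ hz))

theorem chiv_cont (hfb : f c b = b) (had : ∀ m, a m ∉ Dom c b) (hPb : ∀ n, ∀ z ∈ Dom c b, |P n z| ≤ C)
    (hPc : ∀ n, ContinuousOn (P n) (Dom c b)) (m : ℕ) : ContinuousOn (chiv c P a m) (Dom c b) := by
  refine ContinuousOn.mul ?_ (continuous_e.comp_continuousOn (Dv_cont hfb hPb hPc m).neg)
  exact continuousOn_unit.comp (continuousOn_id.sub continuousOn_const) fun z hz =>
    sub_ne_zero.2 fun h => had m (h ▸ hz)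

theorem chiv_sq (hfb : f c b = b) (hPb : ∀ n, ∀ z ∈ Dom c b, |P n z| ≤ C)
    (hPe : ∀ n, ∀ z ∈ Dom c b, unit (f c z - a (n + 1)) = e (P n z) * unit (z - a n) ^ 2) (m : ℕ) {z : ℂ}
    (hz : z ∈ Dom c b) : chiv c P a (m + 1) (f c z) = chiv c P a m z ^ 2 := by
  rw [chiv, chiv, hPe m z hz, Dv_f hfb hPb m hz, mul_pow, sq (e _), ← e_add]
  have h1 : e (P m z) * unit (z - a m) ^ 2 * e (-(2 * Dv c P m z + P m z)) =
      unit (z - a m) ^ 2 * (e (P m z) * e (-(2 * Dv c P m z + P m z))) := by ring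
  rw [h1, ← e_add]
  congr 2
  ring

theorem chiv_neg (hfb : f c b = b) (had : ∀ m, a m ∉ Dom c b)
    (hPb : ∀ n, ∀ z ∈ Dom c b, |P n z| ≤ C) (hPc : ∀ n, ContinuousOn (P n) (Dom c b))
    (hPe : ∀ n, ∀ z ∈ Dom c b, unit (f c z - a (n + 1)) = e (P n z) * unit (z - a n) ^ 2)
    (hPi : ∀ n, Tendsto (fun z => P n z - P n (-z)) (cobounded ℂ) (𝓝 0)) (m : ℕ) {z : ℂ} (hz : z ∉ K c) :
    chiv c P a m (-z) = -chiv c P a m z := by
  have hD : (K c)ᶜ ⊆ Dom c b := subset_union_left
  have hcont : ContinuousOn (chiv c P a m) (K c)ᶜ := (chiv_cont hfb had hPb hPc m).mono hD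
  have hnegK : ∀ z, z ∉ K c → -z ∉ K c := fun z hz => neg_notMem_K hz
  have hcont' : ContinuousOn (fun z => chiv c P a m (-z)) (K c)ᶜ :=
    hcont.comp continuous_neg.continuousOn fun z hz => hnegK z hz
  -- the square
  have hsq : ∀ z, z ∉ K c → chiv c P a m (-z) = chiv c P a m z ∨ chiv c P a m (-z) = -chiv c P a m z := by
    intro z hz
    rw [← sq_eq_sq_iff_eq_or_eq_neg, ← chiv_sq hfb hPb hPe m (hD hz), ← chiv_sq hfb hPb hPe m (hD (hnegK z hz)),
      f_neg]
  -- a point with the minus sign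
  have h1 : ∀ᶠ z in cobounded ℂ, chiv c P a m (-z) ≠ chiv c P a m z := by
    have hu : Tendsto (fun z : ℂ => ((z + a m) / (z - a m)) * e ((P m (-z) - P m z) / 2)) (cobounded ℂ) (𝓝 1) := by
      have h2 : Tendsto (fun z : ℂ => (z + a m) / (z - a m)) (cobounded ℂ) (𝓝 1) := by
        have h3 : Tendsto (fun z : ℂ => 1 + 2 * a m * (z - a m)⁻¹) (cobounded ℂ) (𝓝 (1 + 2 * a m * 0)) := by
          refine tendsto_const_nhds.add (tendsto_const_nhds.mul ?_)
          refine tendsto_inv₀_cobounded.comp ?_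
          exact tendsto_sub_const_cobounded (a m)
        rw [mul_zero, add_zero] at h3
        refine h3.congr' ?_
        filter_upwards [(tendsto_norm_cobounded_atTop (E := ℂ)).eventually_gt_atTop ‖a m‖] with z hz
        have hz' : z - a m ≠ 0 := by
          intro h
          rw [sub_eq_zero.1 h] at hz
          exact lt_irrefl _ hz
        field_simp
        ring
      have h4 : Tendsto (fun z : ℂ => e ((P m (-z) - P m z) / 2)) (cobounded ℂ) (𝓝 (e 0)) := by
        refine (continuous_e.tendsto 0).comp ?_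
        have := ((hPi m).neg).div_const 2
        rw [neg_zero, zero_div] at this
        refine this.congr fun z => ?_
        ring
      have h5 : e 0 = 1 := by
        have := e_int 0
        rwa [Int.cast_zero] at this
      rw [h5] at h4
      have := h2.mul h4
      rwa [one_mul] at this
    have hre : ∀ᶠ z : ℂ in cobounded ℂ, 0 < (((z + a m) / (z - a m)) * e ((P m (-z) - P m z) / 2)).re := by
      have h6 := (Complex.continuous_re.tendsto (1 : ℂ)).comp hu
      rw [Complex.one_re] at h6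
      exact h6.eventually (lt_mem_nhds one_pos)
    filter_upwards [hre, (tendsto_norm_cobounded_atTop (E := ℂ)).eventually_gt_atTop (R0 c)] with z hz hzR heq
    have hzK : z ∉ K c := not_mem_K_of_lt hzR
    have hzD : z ∈ Dom c b := hD hzK
    have hzD' : -z ∈ Dom c b := hD (hnegK z hzK)
    have hza : z - a m ≠ 0 := sub_ne_zero.2 fun h => had m (h ▸ hzD)
    have hza' : z + a m ≠ 0 := by
      intro h
      apply had m
      rw [← neg_eq_iff_add_eq_zero] at h
      rw [← h]
      exact hzD'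
    -- the quotient
    have h7 : unit (z + a m) * e (-Dv c P m (-z)) = -(unit (z - a m) * e (-Dv c P m z)) := by
      have h8 : chiv c P a m (-z) = -(unit (z + a m) * e (-Dv c P m (-z))) := by
        rw [chiv, show -z - a m = -(z + a m) by ring, unit_neg, neg_mul]
      rw [h8] at heq
      rw [neg_eq_iff_eq_neg.1 heq]
      rfl
    have h9 : unit ((z + a m) / (z - a m)) * e ((P m (-z) - P m z) / 2) = -1 := by
      have h10 : (P m (-z) - P m z) / 2 = -Dv c P m (-z) + Dv c P m z := by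
        have := Dv_sub hfb hPb m hzD hzD'
        linarith
      have h11 : unit ((z + a m) / (z - a m)) * unit (z - a m) = unit (z + a m) := by
        rw [← unit_mul, div_mul_cancel₀ _ hza]
      have h12 : unit (z - a m) * e (-Dv c P m z) ≠ 0 := mul_ne_zero (by
        intro h
        have := norm_unit hza
        rw [h, norm_zero] at this
        exact zero_ne_one this) (e_ne_zero _)
      apply mul_right_cancel₀ h12
      rw [neg_one_mul, ← h7, ← h11, h10, e_add]
      have h13 : e (Dv c P m z) * e (-Dv c P m z) = 1 := by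
        rw [← e_add, add_neg_cancel]
        have := e_int 0
        rwa [Int.cast_zero] at this
      linear_combination (unit ((z + a m) / (z - a m)) * e (-Dv c P m (-z)) * unit (z - a m)) * h13
    have h14 : ((z + a m) / (z - a m)) * e ((P m (-z) - P m z) / 2) = ((-‖(z + a m) / (z - a m)‖ : ℝ) : ℂ) := by
      have h15 : (z + a m) / (z - a m) = ‖(z + a m) / (z - a m)‖ * unit ((z + a m) / (z - a m)) := by
        rw [unit, mul_div_cancel₀]
        simpa using div_ne_zero hza' hza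
      rw [h15, mul_assoc, h9]
      push_cast
      rw [← h15]
      ring
    rw [h14, Complex.ofReal_re] at hz
    linarith [norm_nonneg ((z + a m) / (z - a m))]
  obtain ⟨z0, hz0, hz0R⟩ := (h1.and ((tendsto_norm_cobounded_atTop (E := ℂ)).eventually_gt_atTop (R0 c))).exists
  have hz0K : z0 ∉ K c := not_mem_K_of_lt hz0R
  -- connectedness
  by_contra hcon
  have hU : IsOpen ((K c)ᶜ ∩ (fun z => ‖chiv c P a m (-z) - chiv c P a m z‖) ⁻¹' Iio 1) :=
    (hcont'.sub hcont).norm.isOpen_inter_preimage (isClosed_K c).isOpen_compl isOpen_Iio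
  have hV : IsOpen ((K c)ᶜ ∩ (fun z => ‖chiv c P a m (-z) + chiv c P a m z‖) ⁻¹' Iio 1) :=
    (hcont'.add hcont).norm.isOpen_inter_preimage (isClosed_K c).isOpen_compl isOpen_Iio
  obtain ⟨w, hw, hw1, hw2⟩ := isPreconnected_compl_K c _ _ hU hV (by
    intro w hw
    rcases hsq w hw with h | h
    · left
      refine ⟨hw, ?_⟩
      show ‖chiv c P a m (-w) - chiv c P a m w‖ < 1
      rw [h, sub_self, norm_zero]
      exact one_pos
    · right
      refine ⟨hw, ?_⟩
      show ‖chiv c P a m (-w) + chiv c P a m w‖ < 1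
      rw [h, neg_add_cancel, norm_zero]
      exact one_pos) ⟨z, hz, hz, by
    show ‖chiv c P a m (-z) - chiv c P a m z‖ < 1
    rw [(hsq z hz).resolve_right hcon, sub_self, norm_zero]
    exact one_pos⟩ ⟨z0, hz0K, hz0K, by
    show ‖chiv c P a m (-z0) + chiv c P a m z0‖ < 1
    rw [(hsq z0 hz0K).resolve_left hz0, neg_add_cancel, norm_zero]
    exact one_pos⟩
  have h2 : ‖chiv c P a m (-w) - chiv c P a m w‖ < 1 := hw1.2
  have h3 : ‖chiv c P a m (-w) + chiv c P a m w‖ < 1 := hw2.2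
  have h4 := chiv_norm had m (P := P) (hD hw)
  have h5 := norm_sub_le (chiv c P a m (-w) + chiv c P a m w) (chiv c P a m (-w) - chiv c P a m w)
  have h6 : chiv c P a m (-w) + chiv c P a m w - (chiv c P a m (-w) - chiv c P a m w) = 2 * chiv c P a m w := by ring
  rw [h6, norm_mul, h4, Complex.norm_ofNat] at h5
  linarith

/-- `P n z - P n (-z)` tends to `0` at infinity -/
theorem tendsto_diff {Q : ℂ → ℝ} {p q : ℂ} (hQc : ContinuousOn Q (K c)ᶜ) (hp : p ∈ K c)
    (hQe : ∀ z, z ∉ K c → (‖(f c z - q) / (z - p) ^ 2‖ : ℂ) * e (Q z) = (f c z - q) / (z - p) ^ 2) :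
    Tendsto (fun z => Q z - Q (-z)) (cobounded ℂ) (𝓝 0) := by
  set u : ℂ → ℂ := fun z => (f c z - q) / (z - p) ^ 2 with hu
  have hut : Tendsto u (cobounded ℂ) (𝓝 1) := by
    have h2 : Tendsto (fun z : ℂ => (z - p)⁻¹) (cobounded ℂ) (𝓝 0) :=
      tendsto_inv₀_cobounded.comp (tendsto_sub_const_cobounded p)
    have h3 : Tendsto (fun z : ℂ => 1 + 2 * p * (z - p)⁻¹ + (p ^ 2 + c - q) * (z - p)⁻¹ ^ 2) (cobounded ℂ)
        (𝓝 (1 + 2 * p * 0 + (p ^ 2 + c - q) * 0 ^ 2)) :=
      (tendsto_const_nhds.add (tendsto_const_nhds.mul h2)).add (tendsto_const_nhds.mul (h2.pow 2))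
    have h4 : (1 + 2 * p * 0 + (p ^ 2 + c - q) * 0 ^ 2 : ℂ) = 1 := by ring
    rw [h4] at h3
    refine h3.congr' ?_
    filter_upwards [(tendsto_norm_cobounded_atTop (E := ℂ)).eventually_gt_atTop ‖p‖] with z hz
    have hz' : z - p ≠ 0 := by
      intro h
      rw [sub_eq_zero.1 h] at hz
      exact lt_irrefl _ hz
    simp only [hu, f]
    field_simp
    ring
  have hre : ∀ᶠ z : ℂ in cobounded ℂ, 0 < (u z).re := by
    have h6 := (Complex.continuous_re.tendsto (1 : ℂ)).comp hut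
    rw [Complex.one_re] at h6
    exact h6.eventually (lt_mem_nhds one_pos)
  obtain ⟨r, hr0⟩ := (hasBasis_cobounded_norm (E := ℂ)).eventually_iff.1 hre
  set R : ℝ := max r (R0 c) with hR
  have hr : ∀ z : ℂ, R < ‖z‖ → 0 < (u z).re ∧ z ∉ K c := fun z hz =>
    ⟨hr0.2 (le_trans (le_max_left _ _) hz.le), not_mem_K_of_lt (lt_of_le_of_lt (le_max_right _ _) hz)⟩
  have hR0 : 0 < R := lt_of_lt_of_le (R0_pos c) (le_max_right _ _)
  have hconn : IsPreconnected {z : ℂ | R < ‖z‖} := by
    have h1 : {z : ℂ | R < ‖z‖} = (fun p : ℝ × ℝ => (p.1 : ℂ) * Complex.exp (p.2 * Complex.I)) '' (Ioi R ×ˢ univ) := by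
      ext z
      constructor
      · intro hz
        exact ⟨(‖z‖, Complex.arg z), ⟨hz, mem_univ _⟩, Complex.norm_mul_exp_arg_mul_I z⟩
      · rintro ⟨⟨r, t⟩, ⟨hr, -⟩, rfl⟩
        show R < ‖(r : ℂ) * Complex.exp (t * Complex.I)‖
        rw [norm_mul, Complex.norm_exp_ofReal_mul_I, mul_one, Complex.norm_real]
        exact lt_of_lt_of_le hr (le_abs_self r)
    rw [h1]
    exact (isPreconnected_Ioi.prod isPreconnected_univ).image _ (by fun_prop)
  have huc : ContinuousOn u {z : ℂ | R < ‖z‖} := by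
    refine ContinuousOn.div (by unfold f; fun_prop) (by fun_prop) fun z hz => pow_ne_zero 2 (sub_ne_zero.2 ?_)
    intro h
    exact (hr z hz).2 (h ▸ hp)
  have hargc : ContinuousOn (fun z => Complex.arg (u z) / (2 * Real.pi)) {z : ℂ | R < ‖z‖} :=
    (Complex.continuousOn_arg.comp huc fun z hz => Or.inl (hr z hz).1).div_const _
  have hint : ∀ z : ℂ, R < ‖z‖ → ∃ m : ℤ, Q z - Complex.arg (u z) / (2 * Real.pi) = m := by
    intro z hz
    have hu0 : u z ≠ 0 := by
      intro h
      have := (hr z hz).1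
      rw [h, Complex.zero_re] at this
      exact lt_irrefl _ this
    have h1 : e (Q z) = e (Complex.arg (u z) / (2 * Real.pi)) := by
      rw [← unit_eq_e hu0, unit, eq_div_iff (by simpa using hu0), mul_comm]
      exact hQe z (hr z hz).2
    obtain ⟨m, hm⟩ := e_eq_iff.1 h1
    exact ⟨m, by rw [hm]; ring⟩
  obtain ⟨z0, hz0⟩ : ∃ z0 : ℂ, R < ‖z0‖ := by
    refine ⟨((R + 1 : ℝ) : ℂ), ?_⟩
    rw [Complex.norm_real, Real.norm_of_nonneg (by linarith)]
    linarith
  have hconst : ∀ z : ℂ, R < ‖z‖ →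
      Q z - Complex.arg (u z) / (2 * Real.pi) = Q z0 - Complex.arg (u z0) / (2 * Real.pi) := by
    intro z hz
    refine hconn.constant_of_mapsTo (T := range ((↑) : ℤ → ℝ)) ?_
      (f := fun z => Q z - Complex.arg (u z) / (2 * Real.pi)) ((hQc.mono fun z hz => (hr z hz).2).sub hargc) ?_ hz hz0
    · exact Int.isClosedEmbedding_coe_real.isEmbedding.isDiscrete_range
    · intro z hz
      obtain ⟨m, hm⟩ := hint z hz
      exact ⟨m, hm.symm⟩
  have harg : Tendsto (fun z => Complex.arg (u z) / (2 * Real.pi)) (cobounded ℂ) (𝓝 0) := by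
    have h1 : Tendsto Complex.arg (𝓝 1) (𝓝 (Complex.arg 1)) :=
      (Complex.continuousAt_arg (Or.inl (by simp))).tendsto
    rw [Complex.arg_one] at h1
    have := (h1.comp hut).div_const (2 * Real.pi)
    rwa [zero_div] at this
  have hnegt : Tendsto (fun z : ℂ => -z) (cobounded ℂ) (cobounded ℂ) := by
    rw [← tendsto_norm_atTop_iff_cobounded]
    simpa using tendsto_norm_cobounded_atTop (E := ℂ)
  have h5 := harg.sub (harg.comp hnegt)
  rw [sub_zero] at h5
  refine h5.congr' ?_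
  filter_upwards [(tendsto_norm_cobounded_atTop (E := ℂ)).eventually_gt_atTop R] with z hz
  have h6 := hconst z hz
  have h7 := hconst (-z) (by rwa [norm_neg])
  simp only [Function.comp_apply]
  linarith

/-- **main theorem**: uniformly bounded logarithms of `(f z - a (n + 1)) / (z - a n) ^ 2` outside `K` and at the point `b`,
where `b` is a fixed point in the Julia set, make the Julia set decomposable -/
theorem dec_of_P (hb : b ∈ J c) (hfb : f c b = b) (haK : ∀ n, a n ∈ K c) (hab : ∀ n, a n ≠ b)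
    (hPb : ∀ n, ∀ z ∈ Dom c b, |P n z| ≤ C) (hPc : ∀ n, ContinuousOn (P n) (Dom c b))
    (hPu : ∀ n, ∀ z ∈ Dom c b, (‖(f c z - a (n + 1)) / (z - a n) ^ 2‖ : ℂ) * e (P n z) =
      (f c z - a (n + 1)) / (z - a n) ^ 2) : Dec (J c) := by
  have had : ∀ m, a m ∉ Dom c b := by
    intro m h
    rcases h with h | h
    · exact h (haK m)
    · exact hab m h
  have hD : (K c)ᶜ ⊆ Dom c b := subset_union_left
  have hbD : b ∈ Dom c b := Or.inr rfl
  have hPi : ∀ n, Tendsto (fun z => P n z - P n (-z)) (cobounded ℂ) (𝓝 0) := fun n =>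
    tendsto_diff ((hPc n).mono hD) (haK n) fun z hz => hPu n z (hD hz)
  have hPe : ∀ n, ∀ z ∈ Dom c b, unit (f c z - a (n + 1)) = e (P n z) * unit (z - a n) ^ 2 := by
    intro n z hz
    have h1 : z - a n ≠ 0 := sub_ne_zero.2 fun h => had n (h ▸ hz)
    have h2 : f c z - a (n + 1) ≠ 0 := sub_ne_zero.2 fun h => had (n + 1) (h ▸ maps_Dom hfb hz)
    have h3 : (f c z - a (n + 1)) / (z - a n) ^ 2 ≠ 0 := div_ne_zero h2 (pow_ne_zero 2 h1)
    have h4 : unit ((f c z - a (n + 1)) / (z - a n) ^ 2) = e (P n z) := by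
      rw [unit, div_eq_iff (by simpa using h3), mul_comm]
      exact (hPu n z hz).symm
    rw [← h4, sq (unit _), ← unit_mul, ← unit_mul, ← sq, div_mul_cancel₀ _ (pow_ne_zero 2 h1)]
  have hneg : ∀ m, ∀ z, z ∉ K c → chiv c P a m (-z) = -chiv c P a m z :=
    fun m z hz => chiv_neg hfb had hPb hPc hPe hPi m hz
  have hcont := chiv_cont hfb had hPb hPc
  have hnb : ‖chiv c P a 0 b‖ = 1 := chiv_norm had 0 hbD
  have hnb0 : chiv c P a 0 b ≠ 0 := by
    intro h
    rw [h, norm_zero] at hnb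
    exact zero_ne_one hnb
  -- the function `E`
  set ρ : ℝ := R0 c + 1 with hρ
  have hρ0 : 0 < ρ := by
    have := R0_pos c
    linarith
  have haρ : ∀ m, ‖a m‖ < ρ := fun m => by
    have := norm_le_of_mem_K (haK m)
    linarith
  have hsphere : ∀ w : ℂ, ‖w‖ = ρ → w ∈ Dom c b := fun w hw => hD (not_mem_K_of_lt (by rw [hw]; linarith))
  refine dec_of_chi (ρ := ρ) (chi := chiv c P a)
    (E := fun m w => Dv c P m w + Complex.arg (w / (w - a m)) / (2 * Real.pi)) (b := -b) (u := -(chiv c P a 0 b)⁻¹)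
    (V := Dom c b) (M := C + 1) (by linarith) (neg_mem_J hb) (by rwa [neg_neg]) hD (fun m => (hcont m).mono hD) (hcont 0)
    (fun m z hz => chiv_norm had m (hD hz)) (fun m z hz => chiv_sq hfb hPb hPe m (hD hz)) hneg
    (by rw [norm_neg, norm_inv, hnb, inv_one]) (by rw [neg_neg, mul_neg, mul_inv_cancel₀ hnb0]) ?_ ?_ ?_
  · intro m w hw
    have hw0 : w ≠ 0 := by
      intro h
      rw [h, norm_zero] at hw
      exact hρ0.ne hw
    have hwa : w - a m ≠ 0 := sub_ne_zero.2 fun h => had m (h ▸ hsphere w hw)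
    have h1 : unit w = unit (w - a m) * e (Complex.arg (w / (w - a m)) / (2 * Real.pi)) := by
      rw [← unit_eq_e (div_ne_zero hw0 hwa), ← unit_mul, mul_div_cancel₀ _ hwa]
    have h2 : w = ρ * unit w := by
      rw [unit, hw, mul_div_cancel₀]
      exact_mod_cast hρ0.ne'
    have h3 : e (-Dv c P m w) * e (Dv c P m w) = 1 := by
      rw [← e_add, neg_add_cancel]
      have := e_int 0
      rwa [Int.cast_zero] at this
    conv_lhs => rw [h2, h1]
    rw [chiv, e_add]
    linear_combination (-(ρ : ℂ) * unit (w - a m) * e (Complex.arg (w / (w - a m)) / (2 * Real.pi))) * h3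
  · intro m
    refine ((Dv_cont hfb hPb hPc m).mono fun w hw => hsphere w (by simpa using hw)).add
      (ContinuousOn.div_const ?_ _)
    refine Complex.continuousOn_arg.comp ?_ ?_
    · refine continuousOn_id.div (continuousOn_id.sub continuousOn_const) fun w hw => ?_
      exact sub_ne_zero.2 fun h => had m (h ▸ hsphere w (by simpa using hw))
    · intro w hw
      refine Or.inl (re_quot ?_)
      rw [mem_sphere_zero_iff_norm.1 hw]
      exact haρ m
  · intro m w hw
    have h1 := Dv_bound hfb hPb m (hsphere w hw)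
    have h2 : |Complex.arg (w / (w - a m)) / (2 * Real.pi)| ≤ 1 := by
      rw [abs_div, abs_of_pos (by positivity : (0 : ℝ) < 2 * Real.pi), div_le_one (by positivity)]
      have := Complex.abs_arg_le_pi (w / (w - a m))
      linarith [Real.pi_pos]
    exact (abs_add_le _ _).trans (add_le_add h1 h2)

end

end Pool.Agent.Helper83.AD
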