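import Pool.Agent.Helper83.AD.Chi

/-!
# The external angle from bounded logarithms, general domain (MP_a03adf_an)

`dec_of_PS`: like `dec_of_P` (file Chi) with a forward invariant set `S ⊇ Kᶜ` and a point `x ∈ J ∩ S` in place of
`Kᶜ ∪ {b}` and the fixed point `b`.
-/

set_option autoImplicit false

open Set Topology Metric Bornology Filter

namespace Pool.Agent.Helper83.AD

open Pool.Agent.Helper66.QJ

section

variable {c : ℂ}

theorem iter_S {S : Set ℂ} (hfb : ∀ z ∈ S, f c z ∈ S) (n : ℕ) {z : ℂ} (hz : z ∈ S) : (f c)^[n] z ∈ S := by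
  induction n with
  | zero => exact hz
  | succ n ih =>
    rw [Function.iterate_succ_apply']
    exact hfb _ ih

variable {P : ℕ → ℂ → ℝ} {C : ℝ} {S : Set ℂ}

theorem term_bound_S (hfb : ∀ z ∈ S, f c z ∈ S) (hPb : ∀ n, ∀ z ∈ S, |P n z| ≤ C) (m n : ℕ) {z : ℂ} (hz : z ∈ S) :
    ‖(1 / 2 : ℝ) ^ (n + 1) * P (m + n) ((f c)^[n] z)‖ ≤ (1 / 2 : ℝ) ^ (n + 1) * C := by
  rw [norm_mul, Real.norm_of_nonneg (by positivity : (0 : ℝ) ≤ (1 / 2) ^ (n + 1)), Real.norm_eq_abs]
  exact mul_le_mul_of_nonneg_left (hPb _ _ (iter_S hfb n hz)) (by positivity)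

theorem term_summable_S (hfb : ∀ z ∈ S, f c z ∈ S) (hPb : ∀ n, ∀ z ∈ S, |P n z| ≤ C) (m : ℕ) {z : ℂ} (hz : z ∈ S) :
    Summable fun n : ℕ => (1 / 2 : ℝ) ^ (n + 1) * P (m + n) ((f c)^[n] z) :=
  Summable.of_norm_bounded (hasSum_bound C).summable fun n => term_bound_S hfb hPb m n hz

theorem Dv_bound_S (hfb : ∀ z ∈ S, f c z ∈ S) (hPb : ∀ n, ∀ z ∈ S, |P n z| ≤ C) (m : ℕ) {z : ℂ} (hz : z ∈ S) :
    |Dv c P m z| ≤ C := by
  rw [Dv, abs_neg, ← Real.norm_eq_abs]
  exact tsum_of_norm_bounded (hasSum_bound C) fun n => term_bound_S hfb hPb m n hz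

theorem Dv_cont_S (hfb : ∀ z ∈ S, f c z ∈ S) (hPb : ∀ n, ∀ z ∈ S, |P n z| ≤ C) (hPc : ∀ n, ContinuousOn (P n) (S))
    (m : ℕ) : ContinuousOn (Dv c P m) (S) := by
  refine ContinuousOn.neg (continuousOn_tsum (fun n => ?_) (hasSum_bound C).summable
    fun n z hz => term_bound_S hfb hPb m n hz)
  exact continuousOn_const.mul ((hPc (m + n)).comp ((continuous_f c).iterate n).continuousOn
    fun z hz => iter_S hfb n hz)

theorem Dv_f_S (hfb : ∀ z ∈ S, f c z ∈ S) (hPb : ∀ n, ∀ z ∈ S, |P n z| ≤ C) (m : ℕ) {z : ℂ} (hz : z ∈ S) :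
    Dv c P (m + 1) (f c z) = 2 * Dv c P m z + P m z := by
  have h1 := (term_summable_S hfb hPb m hz).tsum_eq_zero_add
  have h2 : (∑' n : ℕ, (1 / 2 : ℝ) ^ (n + 1 + 1) * P (m + (n + 1)) ((f c)^[n + 1] z)) =
      1 / 2 * ∑' n : ℕ, (1 / 2 : ℝ) ^ (n + 1) * P (m + 1 + n) ((f c)^[n] (f c z)) := by
    rw [← tsum_mul_left]
    refine tsum_congr fun n => ?_
    rw [Function.iterate_succ_apply, show m + (n + 1) = m + 1 + n by ring, pow_succ (1 / 2 : ℝ) (n + 1)]
    ring
  rw [Dv, Dv, h1, h2]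
  simp only [zero_add, pow_one, Nat.add_zero, Function.iterate_zero, id_eq]
  ring

theorem Dv_sub_S (hfb : ∀ z ∈ S, f c z ∈ S) (hPb : ∀ n, ∀ z ∈ S, |P n z| ≤ C) (m : ℕ) {z : ℂ} (hz : z ∈ S)
    (hz' : -z ∈ S) : Dv c P m z - Dv c P m (-z) = -(P m z - P m (-z)) / 2 := by
  have h1 := Dv_f_S hfb hPb m hz
  have h2 := Dv_f_S hfb hPb m hz'
  rw [f_neg] at h2
  linarith

variable {a : ℕ → ℂ}

theorem chiv_norm_S (had : ∀ m, a m ∉ S) (m : ℕ) {z : ℂ} (hz : z ∈ S) : ‖chiv c P a m z‖ = 1 := by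
  rw [chiv, norm_mul, norm_e, mul_one]
  exact norm_unit (sub_ne_zero.2 fun h => had m (h ▸ hz))

theorem chiv_cont_S (hfb : ∀ z ∈ S, f c z ∈ S) (had : ∀ m, a m ∉ S) (hPb : ∀ n, ∀ z ∈ S, |P n z| ≤ C)
    (hPc : ∀ n, ContinuousOn (P n) (S)) (m : ℕ) : ContinuousOn (chiv c P a m) (S) := by
  refine ContinuousOn.mul ?_ (continuous_e.comp_continuousOn (Dv_cont_S hfb hPb hPc m).neg)
  exact continuousOn_unit.comp (continuousOn_id.sub continuousOn_const) fun z hz =>
    sub_ne_zero.2 fun h => had m (h ▸ hz)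

theorem chiv_sq_S (hfb : ∀ z ∈ S, f c z ∈ S) (hPb : ∀ n, ∀ z ∈ S, |P n z| ≤ C)
    (hPe : ∀ n, ∀ z ∈ S, unit (f c z - a (n + 1)) = e (P n z) * unit (z - a n) ^ 2) (m : ℕ) {z : ℂ}
    (hz : z ∈ S) : chiv c P a (m + 1) (f c z) = chiv c P a m z ^ 2 := by
  rw [chiv, chiv, hPe m z hz, Dv_f_S hfb hPb m hz, mul_pow, sq (e _), ← e_add]
  have h1 : e (P m z) * unit (z - a m) ^ 2 * e (-(2 * Dv c P m z + P m z)) =
      unit (z - a m) ^ 2 * (e (P m z) * e (-(2 * Dv c P m z + P m z))) := by ring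
  rw [h1, ← e_add]
  congr 2
  ring

theorem chiv_neg_S (hfb : ∀ z ∈ S, f c z ∈ S) (hD : (K c)ᶜ ⊆ S) (had : ∀ m, a m ∉ S)
    (hPb : ∀ n, ∀ z ∈ S, |P n z| ≤ C) (hPc : ∀ n, ContinuousOn (P n) (S))
    (hPe : ∀ n, ∀ z ∈ S, unit (f c z - a (n + 1)) = e (P n z) * unit (z - a n) ^ 2)
    (hPi : ∀ n, Tendsto (fun z => P n z - P n (-z)) (cobounded ℂ) (𝓝 0)) (m : ℕ) {z : ℂ} (hz : z ∉ K c) :
    chiv c P a m (-z) = -chiv c P a m z := by
  have hcont : ContinuousOn (chiv c P a m) (K c)ᶜ := (chiv_cont_S hfb had hPb hPc m).mono hD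
  have hnegK : ∀ z, z ∉ K c → -z ∉ K c := fun z hz => neg_notMem_K hz
  have hcont' : ContinuousOn (fun z => chiv c P a m (-z)) (K c)ᶜ :=
    hcont.comp continuous_neg.continuousOn fun z hz => hnegK z hz
  -- the square
  have hsq : ∀ z, z ∉ K c → chiv c P a m (-z) = chiv c P a m z ∨ chiv c P a m (-z) = -chiv c P a m z := by
    intro z hz
    rw [← sq_eq_sq_iff_eq_or_eq_neg, ← chiv_sq_S hfb hPb hPe m (hD hz), ← chiv_sq_S hfb hPb hPe m (hD (hnegK z hz)),
      f_neg]
  -- a point with the minus sign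
  have h1 : ∀ᶠ z in cobounded ℂ, chiv c P a m (-z) ≠ chiv c P a m z := by
    have hu : Tendsto (fun z : ℂ => ((z + a m) / (z - a m)) * e ((P m (-z) - P m z) / 2)) (cobounded ℂ) (𝓝 1) := by
      have h2 : Tendsto (fun z : ℂ => (z + a m) / (z - a m)) (cobounded ℂ) (𝓝 1) := by
        have h3 : Tendsto (fun z : ℂ => 1 + 2 * a m * (z - a m)⁻¹) (cobounded ℂ) (𝓝 (1 + 2 * a m * 0)) := by
          refine tendsto_const_nhds.add (tendsto_const_nhds.mul ?_)
          refine tendsto_inv₀_cobounded.comp ?_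
          exact tendsto_sub_const_cobounded (a m)
        rw [mul_zero, add_zero] at h3
        refine h3.congr' ?_
        filter_upwards [(tendsto_norm_cobounded_atTop (E := ℂ)).eventually_gt_atTop ‖a m‖] with z hz
        have hz' : z - a m ≠ 0 := by
          intro h
          rw [sub_eq_zero.1 h] at hz
          exact lt_irrefl _ hz
        field_simp
        ring
      have h4 : Tendsto (fun z : ℂ => e ((P m (-z) - P m z) / 2)) (cobounded ℂ) (𝓝 (e 0)) := by
        refine (continuous_e.tendsto 0).comp ?_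
        have := ((hPi m).neg).div_const 2
        rw [neg_zero, zero_div] at this
        refine this.congr fun z => ?_
        ring
      have h5 : e 0 = 1 := by
        have := e_int 0
        rwa [Int.cast_zero] at this
      rw [h5] at h4
      have := h2.mul h4
      rwa [one_mul] at this
    have hre : ∀ᶠ z : ℂ in cobounded ℂ, 0 < (((z + a m) / (z - a m)) * e ((P m (-z) - P m z) / 2)).re := by
      have h6 := (Complex.continuous_re.tendsto (1 : ℂ)).comp hu
      rw [Complex.one_re] at h6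
      exact h6.eventually (lt_mem_nhds one_pos)
    filter_upwards [hre, (tendsto_norm_cobounded_atTop (E := ℂ)).eventually_gt_atTop (R0 c)] with z hz hzR heq
    have hzK : z ∉ K c := not_mem_K_of_lt hzR
    have hzD : z ∈ S := hD hzK
    have hzD' : -z ∈ S := hD (hnegK z hzK)
    have hza : z - a m ≠ 0 := sub_ne_zero.2 fun h => had m (h ▸ hzD)
    have hza' : z + a m ≠ 0 := by
      intro h
      apply had m
      rw [← neg_eq_iff_add_eq_zero] at h
      rw [← h]
      exact hzD'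
    -- the quotient
    have h7 : unit (z + a m) * e (-Dv c P m (-z)) = -(unit (z - a m) * e (-Dv c P m z)) := by
      have h8 : chiv c P a m (-z) = -(unit (z + a m) * e (-Dv c P m (-z))) := by
        rw [chiv, show -z - a m = -(z + a m) by ring, unit_neg, neg_mul]
      rw [h8] at heq
      rw [neg_eq_iff_eq_neg.1 heq]
      rfl
    have h9 : unit ((z + a m) / (z - a m)) * e ((P m (-z) - P m z) / 2) = -1 := by
      have h10 : (P m (-z) - P m z) / 2 = -Dv c P m (-z) + Dv c P m z := by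
        have := Dv_sub_S hfb hPb m hzD hzD'
        linarith
      have h11 : unit ((z + a m) / (z - a m)) * unit (z - a m) = unit (z + a m) := by
        rw [← unit_mul, div_mul_cancel₀ _ hza]
      have h12 : unit (z - a m) * e (-Dv c P m z) ≠ 0 := mul_ne_zero (by
        intro h
        have := norm_unit hza
        rw [h, norm_zero] at this
        exact zero_ne_one this) (e_ne_zero _)
      apply mul_right_cancel₀ h12
      rw [neg_one_mul, ← h7, ← h11, h10, e_add]
      have h13 : e (Dv c P m z) * e (-Dv c P m z) = 1 := by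
        rw [← e_add, add_neg_cancel]
        have := e_int 0
        rwa [Int.cast_zero] at this
      linear_combination (unit ((z + a m) / (z - a m)) * e (-Dv c P m (-z)) * unit (z - a m)) * h13
    have h14 : ((z + a m) / (z - a m)) * e ((P m (-z) - P m z) / 2) = ((-‖(z + a m) / (z - a m)‖ : ℝ) : ℂ) := by
      have h15 : (z + a m) / (z - a m) = ‖(z + a m) / (z - a m)‖ * unit ((z + a m) / (z - a m)) := by
        rw [unit, mul_div_cancel₀]
        simpa using div_ne_zero hza' hza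
      rw [h15, mul_assoc, h9]
      push_cast
      rw [← h15]
      ring
    rw [h14, Complex.ofReal_re] at hz
    linarith [norm_nonneg ((z + a m) / (z - a m))]
  obtain ⟨z0, hz0, hz0R⟩ := (h1.and ((tendsto_norm_cobounded_atTop (E := ℂ)).eventually_gt_atTop (R0 c))).exists
  have hz0K : z0 ∉ K c := not_mem_K_of_lt hz0R
  -- connectedness
  by_contra hcon
  have hU : IsOpen ((K c)ᶜ ∩ (fun z => ‖chiv c P a m (-z) - chiv c P a m z‖) ⁻¹' Iio 1) :=
    (hcont'.sub hcont).norm.isOpen_inter_preimage (isClosed_K c).isOpen_compl isOpen_Iio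
  have hV : IsOpen ((K c)ᶜ ∩ (fun z => ‖chiv c P a m (-z) + chiv c P a m z‖) ⁻¹' Iio 1) :=
    (hcont'.add hcont).norm.isOpen_inter_preimage (isClosed_K c).isOpen_compl isOpen_Iio
  obtain ⟨w, hw, hw1, hw2⟩ := isPreconnected_compl_K c _ _ hU hV (by
    intro w hw
    rcases hsq w hw with h | h
    · left
      refine ⟨hw, ?_⟩
      show ‖chiv c P a m (-w) - chiv c P a m w‖ < 1
      rw [h, sub_self, norm_zero]
      exact one_pos
    · right
      refine ⟨hw, ?_⟩
      show ‖chiv c P a m (-w) + chiv c P a m w‖ < 1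
      rw [h, neg_add_cancel, norm_zero]
      exact one_pos) ⟨z, hz, hz, by
    show ‖chiv c P a m (-z) - chiv c P a m z‖ < 1
    rw [(hsq z hz).resolve_right hcon, sub_self, norm_zero]
    exact one_pos⟩ ⟨z0, hz0K, hz0K, by
    show ‖chiv c P a m (-z0) + chiv c P a m z0‖ < 1
    rw [(hsq z0 hz0K).resolve_left hz0, neg_add_cancel, norm_zero]
    exact one_pos⟩
  have h2 : ‖chiv c P a m (-w) - chiv c P a m w‖ < 1 := hw1.2
  have h3 : ‖chiv c P a m (-w) + chiv c P a m w‖ < 1 := hw2.2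
  have h4 := chiv_norm_S (c := c) had m (P := P) (hD hw)
  have h5 := norm_sub_le (chiv c P a m (-w) + chiv c P a m w) (chiv c P a m (-w) - chiv c P a m w)
  have h6 : chiv c P a m (-w) + chiv c P a m w - (chiv c P a m (-w) - chiv c P a m w) = 2 * chiv c P a m w := by ring
  rw [h6, norm_mul, h4, Complex.norm_ofNat] at h5
  linarith

/-- **main theorem**: uniformly bounded logarithms of `(f z - a (n + 1)) / (z - a n) ^ 2` on a forward invariant set `S`
which contains the complement of `K` and a point of the Julia set, make the Julia set decomposable -/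
theorem dec_of_PS (hD : (K c)ᶜ ⊆ S) (hfb : ∀ z ∈ S, f c z ∈ S) {x : ℂ} (hb : x ∈ J c) (hbD : x ∈ S)
    (haK : ∀ n, a n ∈ K c) (had : ∀ n, a n ∉ S)
    (hPb : ∀ n, ∀ z ∈ S, |P n z| ≤ C) (hPc : ∀ n, ContinuousOn (P n) S)
    (hPu : ∀ n, ∀ z ∈ S, (‖(f c z - a (n + 1)) / (z - a n) ^ 2‖ : ℂ) * e (P n z) =
      (f c z - a (n + 1)) / (z - a n) ^ 2) : Dec (J c) := by
  have hPi : ∀ n, Tendsto (fun z => P n z - P n (-z)) (cobounded ℂ) (𝓝 0) := fun n =>
    tendsto_diff ((hPc n).mono hD) (haK n) fun z hz => hPu n z (hD hz)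
  have hPe : ∀ n, ∀ z ∈ S, unit (f c z - a (n + 1)) = e (P n z) * unit (z - a n) ^ 2 := by
    intro n z hz
    have h1 : z - a n ≠ 0 := sub_ne_zero.2 fun h => had n (h ▸ hz)
    have h2 : f c z - a (n + 1) ≠ 0 := sub_ne_zero.2 fun h => had (n + 1) (h ▸ hfb z hz)
    have h3 : (f c z - a (n + 1)) / (z - a n) ^ 2 ≠ 0 := div_ne_zero h2 (pow_ne_zero 2 h1)
    have h4 : unit ((f c z - a (n + 1)) / (z - a n) ^ 2) = e (P n z) := by
      rw [unit, div_eq_iff (by simpa using h3), mul_comm]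
      exact (hPu n z hz).symm
    rw [← h4, sq (unit _), ← unit_mul, ← unit_mul, ← sq, div_mul_cancel₀ _ (pow_ne_zero 2 h1)]
  have hneg : ∀ m, ∀ z, z ∉ K c → chiv c P a m (-z) = -chiv c P a m z :=
    fun m z hz => chiv_neg_S hfb hD had hPb hPc hPe hPi m hz
  have hcont := chiv_cont_S hfb had hPb hPc
  have hnb : ‖chiv c P a 0 x‖ = 1 := chiv_norm_S (c := c) had 0 hbD
  have hnb0 : chiv c P a 0 x ≠ 0 := by
    intro h
    rw [h, norm_zero] at hnb
    exact zero_ne_one hnb
  -- the function `E`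
  set ρ : ℝ := R0 c + 1 with hρ
  have hρ0 : 0 < ρ := by
    have := R0_pos c
    linarith
  have haρ : ∀ m, ‖a m‖ < ρ := fun m => by
    have := norm_le_of_mem_K (haK m)
    linarith
  have hsphere : ∀ w : ℂ, ‖w‖ = ρ → w ∈ S := fun w hw => hD (not_mem_K_of_lt (by rw [hw]; linarith))
  refine dec_of_chi (ρ := ρ) (chi := chiv c P a)
    (E := fun m w => Dv c P m w + Complex.arg (w / (w - a m)) / (2 * Real.pi)) (b := -x) (u := -(chiv c P a 0 x)⁻¹)
    (V := S) (M := C + 1) (by linarith) (neg_mem_J hb) (by rwa [neg_neg]) hD (fun m => (hcont m).mono hD) (hcont 0)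
    (fun m z hz => chiv_norm_S (c := c) had m (hD hz)) (fun m z hz => chiv_sq_S hfb hPb hPe m (hD hz)) hneg
    (by rw [norm_neg, norm_inv, hnb, inv_one]) (by rw [neg_neg, mul_neg, mul_inv_cancel₀ hnb0]) ?_ ?_ ?_
  · intro m w hw
    have hw0 : w ≠ 0 := by
      intro h
      rw [h, norm_zero] at hw
      exact hρ0.ne hw
    have hwa : w - a m ≠ 0 := sub_ne_zero.2 fun h => had m (h ▸ hsphere w hw)
    have h1 : unit w = unit (w - a m) * e (Complex.arg (w / (w - a m)) / (2 * Real.pi)) := by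
      rw [← unit_eq_e (div_ne_zero hw0 hwa), ← unit_mul, mul_div_cancel₀ _ hwa]
    have h2 : w = ρ * unit w := by
      rw [unit, hw, mul_div_cancel₀]
      exact_mod_cast hρ0.ne'
    have h3 : e (-Dv c P m w) * e (Dv c P m w) = 1 := by
      rw [← e_add, neg_add_cancel]
      have := e_int 0
      rwa [Int.cast_zero] at this
    conv_lhs => rw [h2, h1]
    rw [chiv, e_add]
    linear_combination (-(ρ : ℂ) * unit (w - a m) * e (Complex.arg (w / (w - a m)) / (2 * Real.pi))) * h3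
  · intro m
    refine ((Dv_cont_S hfb hPb hPc m).mono fun w hw => hsphere w (by simpa using hw)).add
      (ContinuousOn.div_const ?_ _)
    refine Complex.continuousOn_arg.comp ?_ ?_
    · refine continuousOn_id.div (continuousOn_id.sub continuousOn_const) fun w hw => ?_
      exact sub_ne_zero.2 fun h => had m (h ▸ hsphere w (by simpa using hw))
    · intro w hw
      refine Or.inl (re_quot ?_)
      rw [mem_sphere_zero_iff_norm.1 hw]
      exact haρ m
  · intro m w hw
    have h1 := Dv_bound_S hfb hPb m (hsphere w hw)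
    have h2 : |Complex.arg (w / (w - a m)) / (2 * Real.pi)| ≤ 1 := by
      rw [abs_div, abs_of_pos (by positivity : (0 : ℝ) < 2 * Real.pi), div_le_one (by positivity)]
      have := Complex.abs_arg_le_pi (w / (w - a m))
      linarith [Real.pi_pos]
    exact (abs_add_le _ _).trans (add_le_add h1 h2)

end

end Pool.Agent.Helper83.AD
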