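import Pool.Agent.Helper83.AD.MainS

/-!
# A closed forward invariant set containing a piece of `J` contains `J` (MP_a03adf_an)

`no_domain`: a domain `V` with `f V ⊆ V` which contains the complement of `K` and meets `K` meets every nondegenerate
continuum. `leo`: if `X` is closed, `f X ⊆ X`, and `X` contains a nonempty relatively open part of `J`, then `J ⊆ X` (for
connected `J`). `dec_of_inv_final`: if `X ⊆ K` is a continuum with `0 ∈ X = f X` and `J` is not inside `X`, then `J` is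
decomposable.
-/

set_option autoImplicit false

open Set Topology Metric Bornology Filter Pool.Agent.Helper66.QJ Pool.Agent.Helper96.AD

namespace Pool.Agent.Helper83.AD

/-- boundary bumping -/
theorem bump {A : Set ℂ} (hA : IsCompact A) (hAc : IsPreconnected A) {x : ℂ} (hx : x ∈ A) {ε : ℝ} (hε : 0 < ε) {y : ℂ}
    (hy : y ∈ A) (hyx : ε < dist y x) :
    ∃ Z ⊆ A ∩ closedBall x ε, IsClosed Z ∧ IsPreconnected Z ∧ x ∈ Z ∧ ∃ q ∈ Z, q ≠ x := by
  set B : Set ℂ := A ∩ closedBall x ε with hB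
  have hBc : IsCompact B := hA.inter_right isClosed_closedBall
  have hxB : x ∈ B := ⟨hx, mem_closedBall_self hε.le⟩
  have : CompactSpace B := isCompact_iff_compactSpace.1 hBc
  obtain ⟨x', hx'⟩ : ∃ x' : B, x' = ⟨x, hxB⟩ := ⟨_, rfl⟩
  have hxx : (x' : ℂ) = x := by rw [hx']
  refine ⟨(↑) '' connectedComponent x', ?_, ?_, ?_, ⟨x', mem_connectedComponent, hxx⟩, ?_⟩
  · rintro _ ⟨z, -, rfl⟩
    exact z.2
  · exact (isClosed_connectedComponent.isCompact.image continuous_subtype_val).isClosed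
  · exact isPreconnected_connectedComponent.image _ continuous_subtype_val.continuousOn
  · by_contra hcon
    push Not at hcon
    have : Nonempty { s : Set B // IsClopen s ∧ x' ∈ s } := ⟨⟨univ, isClopen_univ, mem_univ _⟩⟩
    obtain ⟨⟨D, hD, hxD⟩, hDb⟩ := exists_subset_nhds_of_compactSpace
      (V := fun s : { s : Set B // IsClopen s ∧ x' ∈ s } => (s : Set B))
      (fun s t => ⟨⟨s.1 ∩ t.1, s.2.1.inter t.2.1, s.2.2, t.2.2⟩, inter_subset_left, inter_subset_right⟩)
      (fun s => s.2.1.1) (U := (↑) ⁻¹' ball x ε) (by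
        intro z hz
        rw [← connectedComponent_eq_iInter_isClopen] at hz
        have h1 : (z : ℂ) = x := hcon _ ⟨z, hz, rfl⟩
        refine (isOpen_ball.preimage continuous_subtype_val).mem_nhds ?_
        rw [mem_preimage, h1]
        exact mem_ball_self hε)
    obtain ⟨O, hO, hOD⟩ := isOpen_induced_iff.1 hD.isOpen
    have hD' : IsClosed ((↑) '' D : Set ℂ) := (hD.isClosed.isCompact.image continuous_subtype_val).isClosed
    obtain ⟨z, hz, ⟨hz1, hz2⟩, hz3⟩ := hAc (O ∩ ball x ε) ((↑) '' D : Set ℂ)ᶜ (hO.inter isOpen_ball) hD'.isOpen_compl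
      (fun z hz => by
        by_cases h : z ∈ ((↑) '' D : Set ℂ)
        · left
          obtain ⟨w, hw, rfl⟩ := h
          refine ⟨?_, hDb hw⟩
          rw [← hOD] at hw
          exact hw
        · exact Or.inr h)
      ⟨x, hx, by
        have h := hxD
        rw [← hOD, mem_preimage, hxx] at h
        exact h, mem_ball_self hε⟩
      ⟨y, hy, by
        rintro ⟨w, hw, rfl⟩
        have := hDb hw
        rw [mem_preimage, mem_ball] at this
        linarith⟩
    refine hz3 ⟨⟨z, hz, ball_subset_closedBall hz2⟩, ?_, rfl⟩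
    rw [← hOD]
    exact hz1

/-- a forward invariant domain which contains the basin of infinity and meets `K` meets every nondegenerate continuum -/
theorem no_domain {c b p q : ℂ} {V Z : Set ℂ} (hV : IsOpen V) (hVc : IsPreconnected V) (hKV : (K c)ᶜ ⊆ V)
    (hVf : ∀ z ∈ V, f c z ∈ V) (hZ : IsClosed Z) (hZc : IsPreconnected Z) (hVZ : ∀ z ∈ V, z ∉ Z) (hp : p ∈ Z)
    (hq : q ∈ Z) (hpq : p ≠ q) (hbV : b ∈ V) (hbK : b ∈ K c) : False := by
  classical
  have hVn : ∀ n : ℕ, ∀ z ∈ V, (f c)^[n] z ∈ V := by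
    intro n
    induction n with
    | zero => exact fun z hz => hz
    | succ n ih =>
      intro z hz
      rw [Function.iterate_succ_apply']
      exact hVf _ (ih z hz)
  have hqV : q ∉ V := fun h => hVZ q h hq
  have hpV : p ∉ V := fun h => hVZ p h hp
  obtain ⟨L, hL, hLe⟩ := exists_log hZ hZc hp hq hV hVc hVZ
  obtain ⟨r, hrdef⟩ : ∃ r : ℂ → ℂ, r = fun z => Complex.exp (L z / 2) := ⟨_, rfl⟩
  have hr : ContinuousOn r V := by
    rw [hrdef]
    exact Complex.continuous_exp.comp_continuousOn (hL.div_const 2)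
  have hr0 : ∀ z ∈ V, r z ≠ 0 := by
    intro z _
    rw [hrdef]
    exact Complex.exp_ne_zero _
  have hre : ∀ z ∈ V, r z ^ 2 = (z - p) / (z - q) := by
    intro z hz
    rw [← hLe z hz, hrdef]
    show Complex.exp (L z / 2) ^ 2 = _
    rw [← Complex.exp_nat_mul]
    congr 1
    push_cast
    ring
  obtain ⟨σ, hσ, hσr⟩ : ∃ σ : ℂ, σ ^ 2 = 1 ∧ Tendsto r (cobounded ℂ) (𝓝 σ) := by
    rw [hrdef]
    obtain ⟨R, hR1, hR2⟩ : ∃ R : ℝ, R0 c ≤ R ∧ ∀ z : ℂ, R < ‖z‖ → ‖(z - p) / (z - q) - 1‖ < 1 := by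
      have h1 := Metric.tendsto_nhds.1 (ratio_far p q) 1 one_pos
      rw [← comap_norm_atTop, eventually_comap, eventually_atTop] at h1
      obtain ⟨R, hR⟩ := h1
      refine ⟨max R (R0 c), le_max_right _ _, fun z hz => ?_⟩
      have h2 := hR ‖z‖ ((le_max_left _ _).trans hz.le) z rfl
      rwa [dist_eq_norm] at h2
    have hfar : {z : ℂ | R < ‖z‖} ⊆ V := fun z hz => hKV (not_mem_K_of_lt (hR1.trans_lt hz))
    refine root_far (u := fun z => (z - p) / (z - q)) (r := R) (hL.mono hfar) (fun z hz => hLe z (hfar hz)) ?_ hR2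
      (ratio_far p q)
    refine ContinuousOn.div (by fun_prop) (by fun_prop) fun z hz h => ?_
    rw [sub_eq_zero] at h
    exact hqV (h ▸ hfar hz)
  obtain ⟨z', hz'⟩ : ∃ z', z' ∈ V := ⟨b, hbV⟩
  obtain ⟨δ, hδ, hlow⟩ := root_low hV hpq hqV hr hr0 hre hz'
  have hne : ∀ z ∈ V, r z + r z' ≠ 0 := fun z hz h => by
    have := hlow z hz
    rw [h, norm_zero] at this
    linarith
  have hrd := root_diff hV hpq hqV hr hr0 hre
  have hhd : DifferentiableOn ℂ (fun z => (r z + r z')⁻¹) V := (hrd.add_const _).inv hne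
  have hfd : ∀ n : ℕ, Differentiable ℂ ((f c)^[n]) := by
    intro n
    induction n with
    | zero => exact differentiable_id
    | succ n ih =>
      rw [Function.iterate_succ']
      have : Differentiable ℂ (f c) := by
        unfold f
        fun_prop
      exact this.comp ih
  let F : ℕ → ℂ → ℂ := fun n z => if z ∈ V then (r ((f c)^[n] z) + r z')⁻¹ else 0
  have hF : ∀ n, ∀ z ∈ V, F n z = (r ((f c)^[n] z) + r z')⁻¹ := fun n z hz => if_pos hz
  have hFb : ∀ n z, ‖F n z‖ ≤ δ⁻¹ := by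
    intro n z
    by_cases hz : z ∈ V
    · rw [hF n z hz, norm_inv]
      exact inv_anti₀ hδ (hlow _ (hVn n z hz))
    · show ‖if z ∈ V then (r ((f c)^[n] z) + r z')⁻¹ else 0‖ ≤ _
      rw [if_neg hz, norm_zero]
      positivity
  have hFd : ∀ n, DifferentiableOn ℂ (F n) V := by
    intro n
    refine DifferentiableOn.congr (f := fun z => (r ((f c)^[n] z) + r z')⁻¹) ?_ (hF n)
    exact hhd.comp (hfd n).differentiableOn fun z hz => hVn n z hz
  obtain ⟨g, k, hk, hg⟩ := Helper39.exists_subseq_tendstoLocallyUniformlyOn hV hFb (fun z hz => by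
    obtain ⟨s, hs, hsV⟩ := Metric.isOpen_iff.1 hV z hz
    refine ⟨s / 2, by positivity, 2 * δ⁻¹ / (s / 2), Eventually.of_forall fun j => ?_⟩
    refine Helper39.lipschitz_of_bounded (by positivity) ((hFd j).mono ?_) fun w _ => hFb j w
    rwa [show 2 * (s / 2) = s by ring])
  have hgd : DifferentiableOn ℂ g V := hg.differentiableOn (Eventually.of_forall fun j => hFd (k j)) hV
  have hσ0 : σ + r z' ≠ 0 := by
    intro h
    have h1 : Tendsto (fun z => ‖r z + r z'‖) (cobounded ℂ) (𝓝 ‖σ + r z'‖) := (hσr.add_const _).norm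
    rw [h, norm_zero] at h1
    have h2 : ∀ᶠ z in cobounded ℂ, δ ≤ ‖r z + r z'‖ := by
      have h3 : ∀ᶠ z in cobounded ℂ, R0 c < ‖z‖ := tendsto_norm_cobounded_atTop.eventually_gt_atTop _
      filter_upwards [h3] with z hz
      exact hlow z (hKV (not_mem_K_of_lt hz))
    exact absurd (ge_of_tendsto h1 h2) (not_le.2 hδ)
  have hgK : ∀ z, z ∉ K c → g z = (σ + r z')⁻¹ := by
    intro z hz
    have h1 : Tendsto (fun n => (f c)^[n] z) atTop (cobounded ℂ) := by
      rw [← tendsto_norm_atTop_iff_cobounded, Filter.tendsto_atTop]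
      intro M
      obtain ⟨N, hN⟩ := escape (c := c) hz M
      rw [eventually_atTop]
      exact ⟨N, fun n hn => (hN.self_of_nhds n hn).le⟩
    have h2 : Tendsto (fun n => (r ((f c)^[n] z) + r z')⁻¹) atTop (𝓝 (σ + r z')⁻¹) :=
      ((hσr.comp h1).add_const _).inv₀ hσ0
    have h3 : Tendsto (fun j => F (k j) z) atTop (𝓝 (g z)) := hg.tendsto_at (hKV hz)
    have h4 : Tendsto (fun j => F (k j) z) atTop (𝓝 (σ + r z')⁻¹) :=
      (h2.comp hk.tendsto_atTop).congr fun j => (hF (k j) z (hKV hz)).symm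
    exact tendsto_nhds_unique h3 h4
  have hconst : EqOn g (fun _ => (σ + r z')⁻¹) V := by
    have hfp : ((R0 c : ℂ) + 1) ∈ (K c)ᶜ := far_point c
    refine (hgd.analyticOnNhd hV).eqOn_of_preconnected_of_eventuallyEq analyticOnNhd_const hVc (hKV hfp) ?_
    filter_upwards [(isClosed_K c).isOpen_compl.mem_nhds hfp] with z hz
    exact hgK z hz
  have h3 : Tendsto (fun j => F (k j) b) atTop (𝓝 (σ + r z')⁻¹) := by
    have := hg.tendsto_at hbV
    rwa [hconst hbV] at this
  have h4 : Tendsto (fun j => (F (k j) b)⁻¹) atTop (𝓝 ((σ + r z')⁻¹)⁻¹) := h3.inv₀ (inv_ne_zero hσ0)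
  rw [inv_inv] at h4
  have h5 : Tendsto (fun j => r ((f c)^[k j] b)) atTop (𝓝 σ) := by
    have h6 := h4.sub_const (r z')
    rw [add_sub_cancel_right] at h6
    refine h6.congr fun j => ?_
    rw [hF _ b hbV, inv_inv, add_sub_cancel_right]
  have h6 : Tendsto (fun j => r ((f c)^[k j] b) ^ 2) atTop (𝓝 1) := by
    have := h5.pow 2
    rwa [hσ] at this
  have hq0 : q - p ≠ 0 := sub_ne_zero.2 hpq.symm
  have hqn : 0 < ‖q - p‖ := norm_pos_iff.2 hq0
  have hR := R0_pos c
  have hqq := norm_nonneg q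
  have h7 := Metric.tendsto_nhds.1 h6 (‖q - p‖ / (R0 c + ‖q‖)) (by positivity)
  obtain ⟨j, hj⟩ := h7.exists
  have hjV := hVn (k j) b hbV
  have h8 : (f c)^[k j] b - q ≠ 0 := sub_ne_zero.2 fun h => hqV (h ▸ hjV)
  rw [hre _ hjV, dist_eq_norm] at hj
  have h9 : ((f c)^[k j] b - p) / ((f c)^[k j] b - q) - 1 = (q - p) / ((f c)^[k j] b - q) := by
    field_simp
    ring
  rw [h9, norm_div] at hj
  have h10 : ‖(f c)^[k j] b - q‖ ≤ R0 c + ‖q‖ := (norm_sub_le _ _).trans (by
    have := mem_K_iff.1 hbK (k j)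
    linarith)
  have h11 : ‖q - p‖ / (R0 c + ‖q‖) ≤ ‖q - p‖ / ‖(f c)^[k j] b - q‖ :=
    div_le_div_of_nonneg_left hqn.le (norm_pos_iff.2 h8) h10
  linarith

variable {c : ℂ}

/-- a closed forward invariant set which contains a nonempty relatively open part of `J` contains `J` -/
theorem leo (h0 : (0 : ℂ) ∈ K c) {X O : Set ℂ} (hX : IsClosed X) (hfX : f c '' X ⊆ X) (hO : IsOpen O)
    (hOJ : (O ∩ J c).Nonempty) (hOX : O ∩ J c ⊆ X) : J c ⊆ X := by
  by_contra hcon
  obtain ⟨x, hxJ, hxX⟩ := Set.not_subset.1 hcon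
  obtain ⟨y, hyO, hyJ⟩ := hOJ
  obtain ⟨s, hs, hsO⟩ := Metric.isOpen_iff.1 hO y hyO
  have hyX : y ∈ X := hOX ⟨hyO, hyJ⟩
  have hopf : ∀ n, IsOpenMap ((f c)^[n]) := by
    intro n
    induction n with
    | zero => exact IsOpenMap.id
    | succ n ih =>
      rw [Function.iterate_succ]
      exact ih.comp (isOpenMap_f c)
  have hnX : ∀ n, ∀ z ∈ X, (f c)^[n] z ∈ X := by
    intro n
    induction n with
    | zero => exact fun z hz => hz
    | succ n ih =>
      intro z hz
      rw [Function.iterate_succ_apply']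
      exact hfX ⟨_, ih z hz, rfl⟩
  have hnK : ∀ n, ∀ z, z ∉ K c → (f c)^[n] z ∉ K c := by
    intro n
    induction n with
    | zero => exact fun z hz => hz
    | succ n ih =>
      intro z hz
      rw [Function.iterate_succ_apply', f_mem_K_iff]
      exact ih z hz
  obtain ⟨a, haK, hya⟩ := Metric.mem_closure_iff.1 (mem_J_iff.1 hyJ).2 s hs
  have haO : a ∈ ball y s := by rwa [mem_ball, dist_comm]
  -- the domain
  obtain ⟨V, hVdef⟩ : ∃ V, V = ⋃ n : ℕ, ((K c)ᶜ ∪ (f c)^[n] '' ball y s) := ⟨_, rfl⟩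
  have hV : IsOpen V := by
    rw [hVdef]
    exact isOpen_iUnion fun n => (isClosed_K c).isOpen_compl.union (hopf n _ isOpen_ball)
  have hVc : IsPreconnected V := by
    rw [hVdef]
    refine isPreconnected_iUnion ⟨_, mem_iInter.2 fun n => Or.inl (far_point c)⟩ fun n => ?_
    refine (isPreconnected_compl_K c).union ((f c)^[n] a) (hnK n a haK) ⟨a, haO, rfl⟩ ?_
    exact (convex_ball y s).isPreconnected.image _ ((continuous_f c).iterate n).continuousOn
  have hKV : (K c)ᶜ ⊆ V := by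
    rw [hVdef]
    exact fun z hz => mem_iUnion.2 ⟨0, Or.inl hz⟩
  have hVf : ∀ z ∈ V, f c z ∈ V := by
    intro z hz
    rw [hVdef] at hz ⊢
    obtain ⟨n, hz | ⟨w, hw, rfl⟩⟩ := mem_iUnion.1 hz
    · exact mem_iUnion.2 ⟨0, Or.inl fun h => hz (f_mem_K_iff.1 h)⟩
    · refine mem_iUnion.2 ⟨n + 1, Or.inr ⟨w, hw, ?_⟩⟩
      rw [Function.iterate_succ_apply']
  have hVJ : ∀ z ∈ V, z ∈ J c → z ∈ X := by
    intro z hz hzJ
    rw [hVdef] at hz
    obtain ⟨n, hz | ⟨w, hw, rfl⟩⟩ := mem_iUnion.1 hz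
    · exact absurd (J_sub_K c hzJ) hz
    · exact hnX n w (hOX ⟨hsO hw, (iter_mem_J n).1 hzJ⟩)
  -- the continuum
  obtain ⟨d, hd, hdX⟩ := Metric.isOpen_iff.1 hX.isOpen_compl x hxX
  have hyx : d / 2 < dist y x := by
    by_contra h
    push Not at h
    exact hdX (mem_ball.2 (by linarith : dist y x < d)) hyX
  obtain ⟨Z, hZs, hZ, hZc, hxZ, q, hqZ, hqx⟩ := bump (isCompact_J c) (isPreconnected_J h0) hxJ (half_pos hd) hyJ hyx
  refine no_domain hV hVc hKV hVf hZ hZc (fun z hz hzZ => ?_) hxZ hqZ (Ne.symm hqx) (b := y) ?_ (J_sub_K c hyJ)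
  · have h1 := hZs hzZ
    refine hdX (mem_ball.2 ?_) (hVJ z hz h1.1)
    have := mem_closedBall.1 h1.2
    linarith
  · rw [hVdef]
    exact mem_iUnion.2 ⟨0, Or.inr ⟨y, mem_ball_self hs, rfl⟩⟩

/-- the Julia set of `z ^ 2` is the unit circle -/
theorem J_zero : J 0 = sphere (0 : ℂ) 1 := by
  have hit : ∀ n : ℕ, ∀ z : ℂ, (f 0)^[n] z = z ^ 2 ^ n := by
    intro n
    induction n with
    | zero => simp
    | succ n ih =>
      intro z
      rw [Function.iterate_succ_apply', ih, f, add_zero, ← pow_mul, pow_succ]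
  have hK : K 0 = closedBall (0 : ℂ) 1 := by
    ext z
    rw [mem_K_iff, mem_closedBall_zero_iff]
    constructor
    · intro h
      by_contra hz
      push Not at hz
      have h1 : Tendsto (fun n : ℕ => ‖z‖ ^ 2 ^ n) atTop atTop :=
        (tendsto_pow_atTop_atTop_of_one_lt hz).comp (tendsto_pow_atTop_atTop_of_one_lt one_lt_two)
      obtain ⟨n, hn⟩ := (h1.eventually_gt_atTop (R0 0)).exists
      have := h n
      rw [hit, norm_pow] at this
      linarith
    · intro h n
      rw [hit, norm_pow]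
      refine (pow_le_one₀ (norm_nonneg _) h).trans ?_
      show (1 : ℝ) ≤ ‖(0 : ℂ)‖ + 2
      rw [norm_zero]
      norm_num
  rw [J, hK, frontier_closedBall _ one_ne_zero]

/-- the unit circle is decomposable -/
theorem dec_zero : Dec (J 0) := by
  have hg : Continuous fun t : ℝ => Complex.exp (t * Complex.I) := by fun_prop
  have him : ∀ t : ℝ, (Complex.exp (t * Complex.I)).im = Real.sin t := fun t => Complex.exp_ofReal_mul_I_im t
  have hsub : ∀ s : Set ℝ, (fun t : ℝ => Complex.exp (t * Complex.I)) '' s ⊆ J 0 := by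
    rintro s _ ⟨t, -, rfl⟩
    rw [J_zero, mem_sphere_zero_iff_norm]
    exact Complex.norm_exp_ofReal_mul_I t
  have hpi := Real.pi_pos
  refine ⟨(fun t : ℝ => Complex.exp (t * Complex.I)) '' Icc 0 Real.pi,
    (fun t : ℝ => Complex.exp (t * Complex.I)) '' Icc (-Real.pi) 0, hsub _, hsub _, ?_, ?_, isCompact_Icc.image hg,
    (isConnected_Icc hpi.le).image _ hg.continuousOn, isCompact_Icc.image hg,
    (isConnected_Icc (by linarith)).image _ hg.continuousOn, ?_⟩
  · intro h
    have h1 : Complex.exp ((-(Real.pi / 2) : ℝ) * Complex.I) ∈ J 0 :=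
      hsub univ ⟨-(Real.pi / 2), mem_univ _, rfl⟩
    rw [← h] at h1
    obtain ⟨t, ht, ht1⟩ := h1
    have h2 := congrArg Complex.im ht1
    simp only [him] at h2
    rw [Real.sin_neg, Real.sin_pi_div_two] at h2
    have := Real.sin_nonneg_of_mem_Icc ht
    linarith
  · intro h
    have h1 : Complex.exp ((Real.pi / 2 : ℝ) * Complex.I) ∈ J 0 :=
      hsub univ ⟨Real.pi / 2, mem_univ _, rfl⟩
    rw [← h] at h1
    obtain ⟨t, ht, ht1⟩ := h1
    have h2 := congrArg Complex.im ht1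
    simp only [him] at h2
    rw [Real.sin_pi_div_two] at h2
    have := Real.sin_nonpos_of_nonpos_of_neg_pi_le ht.2 ht.1
    linarith
  · refine subset_antisymm (union_subset (hsub _) (hsub _)) fun z hz => ?_
    rw [J_zero, mem_sphere_zero_iff_norm] at hz
    have h1 : Complex.exp ((Complex.arg z : ℝ) * Complex.I) = z := by
      have := Complex.norm_mul_exp_arg_mul_I z
      rwa [hz, Complex.ofReal_one, one_mul] at this
    rcases le_total 0 (Complex.arg z) with h | h
    · exact Or.inl ⟨Complex.arg z, ⟨h, Complex.arg_le_pi z⟩, h1⟩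
    · exact Or.inr ⟨Complex.arg z, ⟨(Complex.neg_pi_lt_arg z).le, h⟩, h1⟩

/-- **final form**: a continuum `X ⊆ K` with `0 ∈ X = f X` which does not contain `J` makes `J` decomposable -/
theorem dec_of_inv_final {X : Set ℂ} (hX : IsCompact X) (hXc : IsPreconnected X) (hXK : X ⊆ K c) (h0 : (0 : ℂ) ∈ X)
    (hfX : f c '' X = X) (hJX : ¬ J c ⊆ X) : Dec (J c) := by
  by_cases hc0 : c = 0
  · rw [hc0]
    exact dec_zero
  obtain ⟨y, hy, -⟩ := Set.not_subset.1 hJX
  obtain ⟨x, hx, hxX⟩ := exists_orbit ⟨y, hy⟩ hX.isClosed fun U hU hUJ hUX =>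
    hJX (leo (hXK h0) hX.isClosed hfX.subset hU hUJ hUX)
  exact dec_of_invS hX hXc hXK h0 hc0 hfX hx hxX

end Pool.Agent.Helper83.AD
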