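import Pool.Agent.Helper83.AD.CasesK
import Pool.Agent.Helper83.AD.NBK
import Pool.Agent.Helper96.AD.Core

/-!
# A continuum in the filled Julia set containing the critical point and the critical value (MP_a03adf_an)

`dec_of_TK`: if `T ⊆ K` is a continuum with `0, c ∈ T` which does not contain the fixed point `b ∈ J` then `J` is
decomposable; for the case that the hull of `T` is forward invariant it is assumed that `0` is recurrent.
-/

set_option autoImplicit false

open Set Topology Metric Bornology Filter Pool.Agent.Helper66.QJ Pool.Agent.Helper96.AD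

namespace Pool.Agent.Helper83.AD

variable {c : ℂ}

theorem dec_of_TK {T : Set ℂ} (hT : IsCompact T) (hTc : IsPreconnected T) (hTK : T ⊆ K c) (hc0 : c ≠ 0)
    (h0 : (0 : ℂ) ∈ T) (hcT : c ∈ T) {b : ℂ} (hb : f c b = b) (hbJ : b ∈ J c) (hbT : b ∉ T)
    (hrec : f c '' Hl c T ⊆ Hl c T → ∀ n : ℕ, (0 : ℂ) ∈ closure ((fun k => (f c)^[k] 0) '' Ioi n)) : Dec (J c) := by
  have hQ : IsCompact (Hl c T) := Hl_compact hT hTK
  have hQc : IsPreconnected (Hl c T) := Hl_conn hT hTc ⟨0, h0⟩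
  have hQK : Hl c T ⊆ K c := Hl_sub_K hTK
  have h0Q : (0 : ℂ) ∈ Hl c T := sub_Hl h0
  have hcQ : c ∈ Hl c T := sub_Hl hcT
  have hbQ : b ∉ Hl c T := fun h => hbT (Hl_J hT hTK hbJ h)
  by_cases hf : f c '' Hl c T ⊆ Hl c T
  · obtain ⟨X, hXT, hX, hXc, h0X, hfX⟩ := exists_core hQ hQc h0Q hf (hrec hf)
    exact dec_of_invK hX hXc (hXT.trans hQK) h0X hc0 hfX hb hbJ fun h => hbQ (hXT h)
  · obtain ⟨_, ⟨x, hx, rfl⟩, hfx⟩ := Set.not_subset.1 hf
    refine dec_of_diffK hQ hQc hQK (Hl_compl_conn c T) h0Q hcQ hb hbJ hbQ ⟨x, hx, hfx⟩ ?_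
    by_contra hy
    rw [Set.not_nonempty_iff_eq_empty, Set.sdiff_eq_empty] at hy
    exact no_backwardK hQ hQK hc0 h0Q hcQ hQc hy hb hbJ hbQ

/-- a continuum in `K` which joins the critical point to a point of its image and misses the two preimages of a fixed point
of the Julia set makes the Julia set decomposable -/
theorem dec_of_join {T : Set ℂ} (hT : IsCompact T) (hTc : IsPreconnected T) (hTK : T ⊆ K c) (hc0 : c ≠ 0)
    (h0 : (0 : ℂ) ∈ T) (hTf : (T ∩ f c '' T).Nonempty) {b : ℂ} (hb : f c b = b) (hbJ : b ∈ J c) (hbT : b ∉ T)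
    (hbT' : -b ∉ T)
    (hrec : f c '' Hl c (T ∪ f c '' T) ⊆ Hl c (T ∪ f c '' T) →
      ∀ n : ℕ, (0 : ℂ) ∈ closure ((fun k => (f c)^[k] 0) '' Ioi n)) : Dec (J c) := by
  obtain ⟨p, hp, hp'⟩ := hTf
  refine dec_of_TK (T := T ∪ f c '' T) (hT.union (hT.image (continuous_f c)))
    (hTc.union p hp hp' (hTc.image _ (continuous_f c).continuousOn)) ?_ hc0 (Or.inl h0) (Or.inr ⟨0, h0, f_zero c⟩) hb hbJ
    ?_ hrec
  · rintro z (hz | ⟨w, hw, rfl⟩)
    · exact hTK hz
    · exact f_mem_K_iff.2 (hTK hw)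
  · rintro (h | ⟨w, hw, hwb⟩)
    · exact hbT h
    · have h1 : f c w = f c b := by rw [hwb, hb]
      rcases f_eq_iff.1 h1 with h2 | h2
      · exact hbT (h2 ▸ hw)
      · exact hbT' (h2 ▸ hw)

/-- **the critical point is accessible from the Siegel disk**: if `T` is a continuum consisting of `0` and of points of the
interior of `K` which contains `0` and a fixed point, then `J` is decomposable -/
theorem dec_of_access (h0J : (0 : ℂ) ∈ J c) {T : Set ℂ} (hT : IsCompact T) (hTc : IsPreconnected T)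
    (h0 : (0 : ℂ) ∈ T) (hTi : T ⊆ interior (K c) ∪ {0}) {p : ℂ} (hp : p ∈ T) (hfp : f c p = p) : Dec (J c) := by
  have h0K : (0 : ℂ) ∈ K c := J_sub_K c h0J
  have hc0 : c ≠ 0 := c_ne_zero h0J
  obtain ⟨b, R, hb, hbJ, -⟩ := external h0K
  have hTK : T ⊆ K c := by
    intro z hz
    rcases hTi hz with h | h
    · exact interior_subset h
    · rw [mem_singleton_iff.1 h]
      exact h0K
  have hJi : ∀ z ∈ J c, z ∉ interior (K c) := fun z hz h => hz.2 h
  have hb0 : b ≠ 0 := by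
    rintro rfl
    rw [f_zero] at hb
    exact hc0 hb
  have hbT : b ∉ T := fun h => by
    rcases hTi h with h1 | h1
    · exact hJi b hbJ h1
    · exact hb0 h1
  have hbT' : -b ∉ T := fun h => by
    rcases hTi h with h1 | h1
    · exact hJi (-b) (neg_mem_J hbJ) h1
    · exact hb0 (neg_eq_zero.1 h1)
  refine dec_of_join hT hTc hTK hc0 h0 ⟨p, hp, p, hp, hfp⟩ hb hbJ hbT hbT' fun hinv n => ?_
  have hUK : T ∪ f c '' T ⊆ K c := by
    rintro z (hz | ⟨w, hw, rfl⟩)
    · exact hTK hz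
    · exact f_mem_K_iff.2 (hTK hw)
  have hUc : IsCompact (T ∪ f c '' T) := hT.union (hT.image (continuous_f c))
  -- the points of `J` in the hull
  have hJH : ∀ z ∈ J c, z ∈ Hl c (T ∪ f c '' T) → z = 0 ∨ z = c := by
    intro z hz hzH
    rcases Hl_J hUc hUK hz hzH with h | ⟨w, hw, rfl⟩
    · rcases hTi h with h1 | h1
      · exact absurd h1 (hJi z hz)
      · exact Or.inl h1
    · rcases hTi hw with h1 | h1
      · exact absurd h1 (hJi w (f_mem_J_iff.1 hz))
      · rw [mem_singleton_iff.1 h1, f_zero]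
        exact Or.inr rfl
  have hcJ : c ∈ J c := c_mem_J h0J
  have hfcJ : f c c ∈ J c := f_mem_J_iff.2 hcJ
  have hcH : c ∈ Hl c (T ∪ f c '' T) := sub_Hl (Or.inr ⟨0, h0, f_zero c⟩)
  have hfcH : f c c ∈ Hl c (T ∪ f c '' T) := hinv ⟨c, hcH, rfl⟩
  rcases hJH _ hfcJ hfcH with h | h
  · -- `0` is periodic of period two
    have h1 : (f c)^[2] 0 = 0 := by
      show f c (f c 0) = 0
      rw [f_zero, h]
    refine subset_closure ⟨2 * (n + 1), ?_, ?_⟩
    · show n < 2 * (n + 1)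
      omega
    · show (f c)^[2 * (n + 1)] 0 = 0
      rw [Function.iterate_mul]
      exact Function.iterate_fixed h1 (n + 1)
  · exfalso
    have h1 : f c c = f c 0 := by rw [h, f_zero]
    rcases f_eq_iff.1 h1 with h2 | h2
    · exact hc0 h2
    · exact hc0 (by rw [h2, neg_zero])

end Pool.Agent.Helper83.AD
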