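import Pool.Agent.Helper96.AD.NB
import Pool.Agent.Helper96.AD.Pair

/-!
# A full continuum in `K` through `0` and `c` which misses a point of `J` is not backward invariant

`no_backwardS` is `no_backward` (file Helper96/AD/NB) for `T ⊆ K`, with a point `x0 ∈ J \ T` in place of the fixed point.
-/

set_option autoImplicit false

open Set Topology Metric Bornology Filter Pool.Agent.Helper66.QJ Pool.Agent.Helper96.AD

namespace Pool.Agent.Helper83.AD

theorem no_backwardS {c b : ℂ} {T : Set ℂ} (hT : IsCompact T) (hTK : T ⊆ K c) (hc0 : c ≠ 0) (h0 : (0 : ℂ) ∈ T) (hcT : c ∈ T)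
    (hTc : IsPreconnected T) (hsub : f c ⁻¹' T ⊆ T) (hbJ : b ∈ J c) (hbT : b ∉ T) : False := by
  classical
  have hT1K : f c ⁻¹' T ⊆ K c := hsub.trans hTK
  have hT1 : IsCompact (f c ⁻¹' T) :=
    (isCompact_K c).of_isClosed_subset (hT.isClosed.preimage (continuous_f c)) hT1K
  have hT1c : IsPreconnected (f c ⁻¹' T) := preimage_conn0 hTc hcT
  obtain ⟨q, hq⟩ := surj_f c 0
  have hqT : q ∈ f c ⁻¹' T := by
    show f c q ∈ T
    rwa [hq]
  have hpT : (0 : ℂ) ∈ f c ⁻¹' T := by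
    show f c 0 ∈ T
    rwa [f_zero]
  have hpq : (0 : ℂ) ≠ q := by
    rintro rfl
    rw [f_zero] at hq
    exact hc0 hq
  obtain ⟨V, hVdef⟩ : ∃ V, V = Cm c (f c ⁻¹' T) := ⟨_, rfl⟩
  have hV : IsOpen V := by
    rw [hVdef]
    exact cm_open hT1
  have hVc : IsPreconnected V := by
    rw [hVdef]
    exact cm_conn c _
  have hVT : ∀ z ∈ V, z ∉ f c ⁻¹' T := by
    intro z hz
    rw [hVdef] at hz
    exact cm_sub hz
  have hVf : ∀ z ∈ V, f c z ∈ V := by
    intro z hz
    rw [hVdef, ← cm_pre hT hTK] at hz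
    rw [hVdef]
    exact cm_anti hTK hsub hz
  have hKV : (K c)ᶜ ⊆ V := by
    rw [hVdef]
    exact cm_sup hT1K
  have hbV : b ∈ V := by
    rw [hVdef]
    exact cm_J hT1 hT1K hbJ fun h => hbT (hsub h)
  have hVn : ∀ n : ℕ, ∀ z ∈ V, (f c)^[n] z ∈ V := by
    intro n
    induction n with
    | zero => exact fun z hz => hz
    | succ n ih =>
      intro z hz
      rw [Function.iterate_succ_apply']
      exact hVf _ (ih z hz)
  have hqV : q ∉ V := fun h => hVT q h hqT
  have hpV : (0 : ℂ) ∉ V := fun h => hVT 0 h hpT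
  obtain ⟨L, hL, hLe⟩ := exists_log hT1.isClosed hT1c hpT hqT hV hVc hVT
  obtain ⟨r, hrdef⟩ : ∃ r : ℂ → ℂ, r = fun z => Complex.exp (L z / 2) := ⟨_, rfl⟩
  have hr : ContinuousOn r V := by
    rw [hrdef]
    exact Complex.continuous_exp.comp_continuousOn (hL.div_const 2)
  have hr0 : ∀ z ∈ V, r z ≠ 0 := by
    intro z _
    rw [hrdef]
    exact Complex.exp_ne_zero _
  have hre : ∀ z ∈ V, r z ^ 2 = (z - 0) / (z - q) := by
    intro z hz
    rw [← hLe z hz, hrdef]
    show Complex.exp (L z / 2) ^ 2 = _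
    rw [← Complex.exp_nat_mul]
    congr 1
    push_cast
    ring
  obtain ⟨σ, hσ, hσr⟩ : ∃ σ : ℂ, σ ^ 2 = 1 ∧ Tendsto r (cobounded ℂ) (𝓝 σ) := by
    rw [hrdef]
    obtain ⟨R, hR1, hR2⟩ : ∃ R : ℝ, R0 c ≤ R ∧ ∀ z : ℂ, R < ‖z‖ → ‖(z - 0) / (z - q) - 1‖ < 1 := by
      have h1 := Metric.tendsto_nhds.1 (ratio_far 0 q) 1 one_pos
      rw [← comap_norm_atTop, eventually_comap, eventually_atTop] at h1
      obtain ⟨R, hR⟩ := h1
      refine ⟨max R (R0 c), le_max_right _ _, fun z hz => ?_⟩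
      have h2 := hR ‖z‖ ((le_max_left _ _).trans hz.le) z rfl
      rwa [dist_eq_norm] at h2
    have hfar : {z : ℂ | R < ‖z‖} ⊆ V := fun z hz => hKV (not_mem_K_of_lt (hR1.trans_lt hz))
    refine root_far (u := fun z => (z - 0) / (z - q)) (r := R) (hL.mono hfar) (fun z hz => hLe z (hfar hz)) ?_ hR2
      (ratio_far 0 q)
    refine ContinuousOn.div (by fun_prop) (by fun_prop) fun z hz h => ?_
    rw [sub_eq_zero] at h
    exact hqV (h ▸ hfar hz)
  obtain ⟨z', hz'⟩ : ∃ z', z' ∈ V := ⟨b, hbV⟩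
  obtain ⟨δ, hδ, hlow⟩ := root_low hV hpq hqV hr hr0 hre hz'
  have hne : ∀ z ∈ V, r z + r z' ≠ 0 := fun z hz h => by
    have := hlow z hz
    rw [h, norm_zero] at this
    linarith
  have hrd := root_diff hV hpq hqV hr hr0 hre
  have hhd : DifferentiableOn ℂ (fun z => (r z + r z')⁻¹) V := (hrd.add_const _).inv hne
  have hfd : ∀ n : ℕ, Differentiable ℂ ((f c)^[n]) := by
    intro n
    induction n with
    | zero => exact differentiable_id
    | succ n ih =>
      rw [Function.iterate_succ']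
      have : Differentiable ℂ (f c) := by
        unfold f
        fun_prop
      exact this.comp ih
  let F : ℕ → ℂ → ℂ := fun n z => if z ∈ V then (r ((f c)^[n] z) + r z')⁻¹ else 0
  have hF : ∀ n, ∀ z ∈ V, F n z = (r ((f c)^[n] z) + r z')⁻¹ := fun n z hz => if_pos hz
  have hFb : ∀ n z, ‖F n z‖ ≤ δ⁻¹ := by
    intro n z
    by_cases hz : z ∈ V
    · rw [hF n z hz, norm_inv]
      exact inv_anti₀ hδ (hlow _ (hVn n z hz))
    · show ‖if z ∈ V then (r ((f c)^[n] z) + r z')⁻¹ else 0‖ ≤ _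
      rw [if_neg hz, norm_zero]
      positivity
  have hFd : ∀ n, DifferentiableOn ℂ (F n) V := by
    intro n
    refine DifferentiableOn.congr (f := fun z => (r ((f c)^[n] z) + r z')⁻¹) ?_ (hF n)
    exact hhd.comp (hfd n).differentiableOn fun z hz => hVn n z hz
  obtain ⟨g, k, hk, hg⟩ := Helper39.exists_subseq_tendstoLocallyUniformlyOn hV hFb (fun z hz => by
    obtain ⟨s, hs, hsV⟩ := Metric.isOpen_iff.1 hV z hz
    refine ⟨s / 2, by positivity, 2 * δ⁻¹ / (s / 2), Eventually.of_forall fun j => ?_⟩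
    refine Helper39.lipschitz_of_bounded (by positivity) ((hFd j).mono ?_) fun w _ => hFb j w
    rwa [show 2 * (s / 2) = s by ring])
  have hgd : DifferentiableOn ℂ g V := hg.differentiableOn (Eventually.of_forall fun j => hFd (k j)) hV
  have hσ0 : σ + r z' ≠ 0 := by
    intro h
    have h1 : Tendsto (fun z => ‖r z + r z'‖) (cobounded ℂ) (𝓝 ‖σ + r z'‖) := (hσr.add_const _).norm
    rw [h, norm_zero] at h1
    have h2 : ∀ᶠ z in cobounded ℂ, δ ≤ ‖r z + r z'‖ := by
      have h3 : ∀ᶠ z in cobounded ℂ, R0 c < ‖z‖ := tendsto_norm_cobounded_atTop.eventually_gt_atTop _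
      filter_upwards [h3] with z hz
      exact hlow z (hKV (not_mem_K_of_lt hz))
    exact absurd (ge_of_tendsto h1 h2) (not_le.2 hδ)
  have hgK : ∀ z, z ∉ K c → g z = (σ + r z')⁻¹ := by
    intro z hz
    have h1 : Tendsto (fun n => (f c)^[n] z) atTop (cobounded ℂ) := by
      rw [← tendsto_norm_atTop_iff_cobounded, Filter.tendsto_atTop]
      intro M
      obtain ⟨N, hN⟩ := escape (c := c) hz M
      rw [eventually_atTop]
      exact ⟨N, fun n hn => (hN.self_of_nhds n hn).le⟩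
    have h2 : Tendsto (fun n => (r ((f c)^[n] z) + r z')⁻¹) atTop (𝓝 (σ + r z')⁻¹) :=
      ((hσr.comp h1).add_const _).inv₀ hσ0
    have h3 : Tendsto (fun j => F (k j) z) atTop (𝓝 (g z)) := hg.tendsto_at (hKV hz)
    have h4 : Tendsto (fun j => F (k j) z) atTop (𝓝 (σ + r z')⁻¹) :=
      (h2.comp hk.tendsto_atTop).congr fun j => (hF (k j) z (hKV hz)).symm
    exact tendsto_nhds_unique h3 h4
  have hconst : EqOn g (fun _ => (σ + r z')⁻¹) V := by
    have hfp : ((R0 c : ℂ) + 1) ∈ (K c)ᶜ := far_point c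
    refine (hgd.analyticOnNhd hV).eqOn_of_preconnected_of_eventuallyEq analyticOnNhd_const hVc (hKV hfp) ?_
    filter_upwards [(isClosed_K c).isOpen_compl.mem_nhds hfp] with z hz
    exact hgK z hz
  have h3 : Tendsto (fun j => F (k j) b) atTop (𝓝 (σ + r z')⁻¹) := by
    have := hg.tendsto_at hbV
    rwa [hconst hbV] at this
  have h4 : Tendsto (fun j => (F (k j) b)⁻¹) atTop (𝓝 ((σ + r z')⁻¹)⁻¹) := h3.inv₀ (inv_ne_zero hσ0)
  rw [inv_inv] at h4
  have h5 : Tendsto (fun j => r ((f c)^[k j] b)) atTop (𝓝 σ) := by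
    have h6 := h4.sub_const (r z')
    rw [add_sub_cancel_right] at h6
    refine h6.congr fun j => ?_
    rw [hF _ b hbV, inv_inv, add_sub_cancel_right]
  have h6 : Tendsto (fun j => r ((f c)^[k j] b) ^ 2) atTop (𝓝 1) := by
    have := h5.pow 2
    rwa [hσ] at this
  have hbK : b ∈ K c := J_sub_K c hbJ
  have hq0 : q ≠ 0 := hpq.symm
  have hqn : 0 < ‖q‖ := norm_pos_iff.2 hq0
  have hR := R0_pos c
  have h7 := Metric.tendsto_nhds.1 h6 (‖q‖ / (R0 c + ‖q‖)) (by positivity)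
  obtain ⟨j, hj⟩ := h7.exists
  have hjV := hVn (k j) b hbV
  have h8 : (f c)^[k j] b - q ≠ 0 := sub_ne_zero.2 fun h => hqV (h ▸ hjV)
  rw [hre _ hjV, dist_eq_norm] at hj
  have h9 : ((f c)^[k j] b - 0) / ((f c)^[k j] b - q) - 1 = q / ((f c)^[k j] b - q) := by
    field_simp
    ring
  rw [h9, norm_div] at hj
  have h10 : ‖(f c)^[k j] b - q‖ ≤ R0 c + ‖q‖ := (norm_sub_le _ _).trans (by
    have := mem_K_iff.1 hbK (k j)
    linarith)
  have h11 : ‖q‖ / (R0 c + ‖q‖) ≤ ‖q‖ / ‖(f c)^[k j] b - q‖ :=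
    div_le_div_of_nonneg_left hqn.le (norm_pos_iff.2 h8) h10
  linarith

end Pool.Agent.Helper83.AD
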