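import Pool.Agent.Helper83.AD.CasesS
import Pool.Agent.Helper83.AD.NBS
import Pool.Agent.Helper83.AD.MainK

/-!
# Nowhere dense continua in the filled Julia set (MP_a03adf_an)

`dec_of_TS`: if `T ⊆ K` is a continuum with `0, c ∈ T`, and the forward orbit of some point of `J` misses `T`, then `J` is
decomposable; for the case that the hull of `T` is forward invariant it is assumed that `0` is recurrent. `exists_orbit`: by
the category theorem there is such a point if `T ∩ J` has no interior points in `J`. `dec_of_joinS`: it is enough that `T`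
joins `0` to a point of the image of `T`.
-/

set_option autoImplicit false

open Set Topology Metric Bornology Filter Pool.Agent.Helper66.QJ Pool.Agent.Helper96.AD

namespace Pool.Agent.Helper83.AD

variable {c : ℂ}

theorem iter_mem_J (n : ℕ) {z : ℂ} : (f c)^[n] z ∈ J c ↔ z ∈ J c := by
  induction n with
  | zero => rfl
  | succ n ih =>
    rw [Function.iterate_succ_apply', f_mem_J_iff]
    exact ih

theorem dec_of_TS {T : Set ℂ} (hT : IsCompact T) (hTc : IsPreconnected T) (hTK : T ⊆ K c) (hc0 : c ≠ 0)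
    (h0 : (0 : ℂ) ∈ T) (hcT : c ∈ T) {x : ℂ} (hx : x ∈ J c) (hxT : ∀ n, (f c)^[n] x ∉ T)
    (hrec : f c '' Hl c T ⊆ Hl c T → ∀ n : ℕ, (0 : ℂ) ∈ closure ((fun k => (f c)^[k] 0) '' Ioi n)) : Dec (J c) := by
  have hQ : IsCompact (Hl c T) := Hl_compact hT hTK
  have hQc : IsPreconnected (Hl c T) := Hl_conn hT hTc ⟨0, h0⟩
  have hQK : Hl c T ⊆ K c := Hl_sub_K hTK
  have h0Q : (0 : ℂ) ∈ Hl c T := sub_Hl h0
  have hcQ : c ∈ Hl c T := sub_Hl hcT
  have hbQ : ∀ n, (f c)^[n] x ∉ Hl c T := fun n h => hxT n (Hl_J hT hTK ((iter_mem_J n).2 hx) h)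
  by_cases hf : f c '' Hl c T ⊆ Hl c T
  · obtain ⟨X, hXT, hX, hXc, h0X, hfX⟩ := exists_core hQ hQc h0Q hf (hrec hf)
    exact dec_of_invS hX hXc (hXT.trans hQK) h0X hc0 hfX hx fun n h => hbQ n (hXT h)
  · obtain ⟨_, ⟨y, hy, rfl⟩, hfy⟩ := Set.not_subset.1 hf
    refine dec_of_diffS hQ hQc hQK (Hl_compl_conn c T) h0Q hcQ hx hbQ ⟨y, hy, hfy⟩ ?_
    by_contra hy
    rw [Set.not_nonempty_iff_eq_empty, Set.sdiff_eq_empty] at hy
    exact no_backwardS hQ hQK hc0 h0Q hcQ hQc hy hx (hbQ 0)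

/-- the category theorem: the forward orbit of some point of `J` misses a closed set without interior points in `J` -/
theorem exists_orbit (hJ : (J c).Nonempty) {T : Set ℂ} (hT : IsClosed T)
    (hTJ : ∀ U : Set ℂ, IsOpen U → (U ∩ J c).Nonempty → ¬ U ∩ J c ⊆ T) : ∃ x ∈ J c, ∀ n, (f c)^[n] x ∉ T := by
  have : CompactSpace (J c) := isCompact_iff_compactSpace.1 (isCompact_J c)
  have : Nonempty (J c) := hJ.to_subtype
  set G : ℕ → Set (J c) := fun n => (fun x : J c => (f c)^[n] x) ⁻¹' Tᶜ with hG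
  have hcont : ∀ n, Continuous fun x : J c => (f c)^[n] x := fun n =>
    ((continuous_f c).iterate n).comp continuous_subtype_val
  have hopen : ∀ n, IsOpen (G n) := fun n => hT.isOpen_compl.preimage (hcont n)
  have hopf : ∀ n, IsOpenMap ((f c)^[n]) := by
    intro n
    induction n with
    | zero => exact IsOpenMap.id
    | succ n ih =>
      rw [Function.iterate_succ]
      exact ih.comp (isOpenMap_f c)
  have hdense : ∀ n, Dense (G n) := by
    intro n
    rw [dense_iff_inter_open]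
    rintro _ ⟨U, hU, rfl⟩ ⟨x, hx⟩
    have h1 : ((f c)^[n] '' U ∩ J c).Nonempty := ⟨(f c)^[n] x, ⟨x, hx, rfl⟩, (iter_mem_J n).2 x.2⟩
    obtain ⟨_, ⟨⟨y, hy, rfl⟩, hyJ⟩, hyT⟩ := Set.not_subset.1 (hTJ _ (hopf n U hU) h1)
    exact ⟨⟨y, (iter_mem_J n).1 hyJ⟩, hy, hyT⟩
  obtain ⟨x, hx⟩ := (dense_iInter_of_isOpen hopen hdense).nonempty
  exact ⟨x, x.2, fun n => mem_iInter.1 hx n⟩

/-- the image of a closed set without interior points in `J` has no interior points in `J` -/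
theorem image_nd {T : Set ℂ} (hT : IsCompact T)
    (hTJ : ∀ U : Set ℂ, IsOpen U → (U ∩ J c).Nonempty → ¬ U ∩ J c ⊆ T) {U : Set ℂ} (hU : IsOpen U)
    (hUn : (U ∩ J c).Nonempty) : ¬ U ∩ J c ⊆ T ∪ f c '' T := by
  intro hsub
  -- an open set in `J` inside `T ∪ f T`, take away `T`
  have h1 := hTJ U hU hUn
  obtain ⟨p, hp, hpT⟩ := Set.not_subset.1 h1
  have hU' : IsOpen (U \ T) := hU.sdiff hT.isClosed
  have hU'f : (U \ T) ∩ J c ⊆ f c '' T := by
    rintro z ⟨⟨hz, hzT⟩, hzJ⟩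
    exact (hsub ⟨hz, hzJ⟩).resolve_left hzT
  -- the preimage is in `T ∪ -T`
  set V : Set ℂ := f c ⁻¹' (U \ T) with hV
  have hVo : IsOpen V := hU'.preimage (continuous_f c)
  have hVT : ∀ z ∈ V ∩ J c, z ∈ T ∨ -z ∈ T := by
    rintro z ⟨hz, hzJ⟩
    obtain ⟨t, ht, htz⟩ := hU'f ⟨hz, f_mem_J_iff.2 hzJ⟩
    rcases f_eq_iff.1 htz with h | h
    · exact Or.inl (h ▸ ht)
    · exact Or.inr (h ▸ ht)
  obtain ⟨w, hw⟩ := surj_f c p
  have hwV : w ∈ V ∩ J c := by
    refine ⟨?_, f_mem_J_iff.1 (hw ▸ hp.2)⟩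
    show f c w ∈ U \ T
    rw [hw]
    exact ⟨hp.1, hpT⟩
  obtain ⟨y, hy, hyT⟩ := Set.not_subset.1 (hTJ V hVo ⟨w, hwV⟩)
  have hyn : -y ∈ T := (hVT y hy).resolve_left hyT
  -- near `y` there is no point of `T`, so near `-y` all points of `J` are in `T`
  have hV2 : IsOpen (Neg.neg ⁻¹' (V \ T)) := (hVo.sdiff hT.isClosed).preimage continuous_neg
  refine hTJ _ hV2 ⟨-y, ?_, neg_mem_J hy.2⟩ ?_
  · show -(-y) ∈ V \ T
    rw [neg_neg]
    exact ⟨hy.1, hyT⟩
  · rintro z ⟨⟨hz, hzT⟩, hzJ⟩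
    have := hVT (-z) ⟨hz, neg_mem_J hzJ⟩
    rw [neg_neg] at this
    exact this.resolve_left hzT

/-- **main theorem**: a continuum `T ⊆ K` through the critical point which meets its image and has no interior points
relative to `J` makes `J` decomposable, if the critical point is recurrent (this is only needed if the hull of `T ∪ f T` is
forward invariant) -/
theorem dec_of_joinS (h0J : (0 : ℂ) ∈ J c) {T : Set ℂ} (hT : IsCompact T) (hTc : IsPreconnected T) (hTK : T ⊆ K c)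
    (h0 : (0 : ℂ) ∈ T) (hTf : (T ∩ f c '' T).Nonempty)
    (hTJ : ∀ U : Set ℂ, IsOpen U → (U ∩ J c).Nonempty → ¬ U ∩ J c ⊆ T)
    (hrec : f c '' Hl c (T ∪ f c '' T) ⊆ Hl c (T ∪ f c '' T) →
      ∀ n : ℕ, (0 : ℂ) ∈ closure ((fun k => (f c)^[k] 0) '' Ioi n)) : Dec (J c) := by
  obtain ⟨p, hp, hp'⟩ := hTf
  have hUc : IsCompact (T ∪ f c '' T) := hT.union (hT.image (continuous_f c))
  obtain ⟨x, hx, hxT⟩ := exists_orbit ⟨0, h0J⟩ hUc.isClosed fun U hU hUn => image_nd hT hTJ hU hUn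
  refine dec_of_TS hUc (hTc.union p hp hp' (hTc.image _ (continuous_f c).continuousOn)) ?_ (c_ne_zero h0J) (Or.inl h0)
    (Or.inr ⟨0, h0, f_zero c⟩) hx hxT hrec
  rintro z (hz | ⟨w, hw, rfl⟩)
  · exact hTK hz
  · exact f_mem_K_iff.2 (hTK hw)

end Pool.Agent.Helper83.AD
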