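import Pool.Agent.Helper66.QJ.Dyn
import Pool.Agent.Helper66.QJ.Sep2

/-!
# Limits of half curves (MP_a03adf_an, steps (4) and (5) of helper96's proof)

`Lim S`: limit of sets along a fixed ultrafilter. `dec_of_chi`: if the external angle `chi` (a continuous map to the unit
circle with `chi (f z) = chi z ^ 2` and `chi (-z) = - chi z` outside `K`) extends continuously to a point `-b` of the Julia
set with value `-1`, then the Julia set is decomposable.
-/

set_option autoImplicit false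

open Set Topology Metric Bornology Filter

namespace Pool.Agent.Helper83.AD

open Pool.Agent.Helper66.QJ

/-- the limit of a sequence of sets along a fixed ultrafilter -/
def Lim (S : ℕ → Set ℂ) : Set ℂ :=
  {x | ∀ ε : ℝ, 0 < ε → ∀ᶠ n in (hyperfilter ℕ : Filter ℕ), ∃ z ∈ S n, dist z x < ε}

theorem isClosed_Lim (S : ℕ → Set ℂ) : IsClosed (Lim S) := by
  apply isClosed_of_closure_subset
  intro y hy ε hε
  obtain ⟨z, hz, hyz⟩ := Metric.mem_closure_iff.1 hy (ε / 2) (half_pos hε)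
  filter_upwards [hz (ε / 2) (half_pos hε)] with n ⟨w, hw, hwz⟩
  refine ⟨w, hw, ?_⟩
  calc dist w y ≤ dist w z + dist z y := dist_triangle _ _ _
    _ < ε := by rw [dist_comm z y]; linarith

theorem leave {S : ℕ → Set ℂ} {F : Set ℂ} (hF : IsCompact F) (hd : Disjoint F (Lim S)) :
    ∀ᶠ n in (hyperfilter ℕ : Filter ℕ), ∀ z ∈ S n, z ∉ F := by
  refine hF.induction_on (p := fun F => ∀ᶠ n in (hyperfilter ℕ : Filter ℕ), ∀ z ∈ S n, z ∉ F) ?_ ?_ ?_ ?_
  · exact Eventually.of_forall fun _ _ _ h => h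
  · intro s t hst h
    filter_upwards [h] with n hn z hz hs
    exact hn z hz (hst hs)
  · intro s t h1 h2
    filter_upwards [h1, h2] with n hn1 hn2 z hz hs
    rcases hs with hs | hs
    · exact hn1 z hz hs
    · exact hn2 z hz hs
  · intro y hy
    have h1 : y ∉ Lim S := fun h => Set.disjoint_left.1 hd hy h
    simp only [Lim, mem_ofPred_eq, not_forall] at h1
    obtain ⟨ε, hε, h2⟩ := h1
    rw [← Ultrafilter.eventually_not] at h2
    refine ⟨ball y ε, mem_nhdsWithin_of_mem_nhds (ball_mem_nhds y hε), ?_⟩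
    filter_upwards [h2] with n hn z hz hs
    exact hn ⟨z, hz, hs⟩

theorem Lim_conn {S : ℕ → Set ℂ} {Q : Set ℂ} (hQ : IsCompact Q) (hSQ : ∀ n, S n ⊆ Q) (hSn : ∀ n, (S n).Nonempty)
    (hSc : ∀ n, IsPreconnected (S n)) : IsConnected (Lim S) := by
  have hcl := isClosed_Lim S
  have hsub : Lim S ⊆ Q := by
    intro x hx
    rw [← hQ.isClosed.closure_eq, Metric.mem_closure_iff]
    intro ε hε
    obtain ⟨n, z, hz, hzx⟩ := (hx ε hε).exists
    exact ⟨z, hSQ n hz, by rwa [dist_comm]⟩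
  constructor
  · by_contra hemp
    rw [Set.not_nonempty_iff_eq_empty] at hemp
    have h1 : Disjoint Q (Lim S) := by
      rw [hemp]
      exact disjoint_bot_right
    obtain ⟨n, hn⟩ := (leave hQ h1).exists
    obtain ⟨z, hz⟩ := hSn n
    exact hn z hz (hSQ n hz)
  · rw [isPreconnected_iff_subset_of_fully_disjoint_closed hcl]
    intro u v hu hv huv hd
    by_contra hcon
    push Not at hcon
    obtain ⟨hcu, hcv⟩ := hcon
    obtain ⟨x, hx, hxu⟩ := Set.not_subset.1 hcu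
    obtain ⟨y, hy, hyv⟩ := Set.not_subset.1 hcv
    have hxv : x ∈ v := (huv hx).resolve_left hxu
    have hyu : y ∈ u := (huv hy).resolve_right hyv
    have hK : IsCompact (Lim S) := hQ.of_isClosed_subset hcl hsub
    have hK1 : IsCompact (Lim S ∩ u) := hK.inter_right hu
    have hK2 : IsCompact (Lim S ∩ v) := hK.inter_right hv
    have hdK : Disjoint (Lim S ∩ u) (Lim S ∩ v) :=
      Set.disjoint_of_subset inter_subset_right inter_subset_right hd
    obtain ⟨U, V, hU, hV, hKU, hKV, hUV⟩ := SeparatedNhds.of_isCompact_isCompact hK1 hK2 hdK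
    have hF : IsCompact (Q \ (U ∪ V)) := hQ.diff (hU.union hV)
    have hFd : Disjoint (Q \ (U ∪ V)) (Lim S) := by
      rw [Set.disjoint_left]
      rintro z ⟨-, hz⟩ hzL
      rcases huv hzL with h | h
      · exact hz (Or.inl (hKU ⟨hzL, h⟩))
      · exact hz (Or.inr (hKV ⟨hzL, h⟩))
    obtain ⟨εx, hεx, hbx⟩ := Metric.isOpen_iff.1 hV x (hKV ⟨hx, hxv⟩)
    obtain ⟨εy, hεy, hby⟩ := Metric.isOpen_iff.1 hU y (hKU ⟨hy, hyu⟩)
    obtain ⟨n, ⟨⟨h1, zx, hzx, hzx'⟩, zy, hzy, hzy'⟩⟩ := (((leave hF hFd).and (hx εx hεx)).and (hy εy hεy)).exists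
    have hcov : S n ⊆ U ∪ V := by
      intro z hz
      by_contra h
      exact h1 z hz ⟨hSQ n hz, h⟩
    obtain ⟨w, -, hw1, hw2⟩ := hSc n U V hU hV hcov ⟨zy, hzy, hby hzy'⟩ ⟨zx, hzx, hbx hzx'⟩
    exact Set.disjoint_left.1 hUV hw1 hw2

variable {c : ℂ}

/-- the preimages of a circle -/
def Cir (c : ℂ) (ρ : ℝ) (n : ℕ) : Set ℂ := {z | ‖(f c)^[n] z‖ = ρ}

theorem Cir_out {ρ : ℝ} (hρ : R0 c < ρ) {n : ℕ} {z : ℂ} (hz : z ∈ Cir c ρ n) : z ∉ K c := fun h =>
  absurd (mem_K_iff.1 h n) (not_le.2 (by rw [hz]; exact hρ))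

theorem Cir_sub {ρ : ℝ} (hρ : R0 c < ρ) (n : ℕ) : Cir c ρ n ⊆ closedBall 0 ρ := by
  intro z hz
  rw [mem_closedBall_zero_iff]
  by_contra hcon
  push Not at hcon
  have h1 := iter_ge (c := c) (hρ.le.trans hcon.le) n
  have h2 : ‖z‖ ≤ 2 ^ n * ‖z‖ := le_mul_of_one_le_left (norm_nonneg z) (one_le_pow₀ (by norm_num))
  have h3 : ‖(f c)^[n] z‖ = ρ := hz
  linarith

theorem Cir_compact {ρ : ℝ} (hρ : R0 c < ρ) (n : ℕ) : IsCompact (Cir c ρ n) :=
  (isCompact_closedBall 0 ρ).of_isClosed_subset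
    (isClosed_eq ((continuous_f c).iterate n).norm continuous_const) (Cir_sub hρ n)

theorem Cir_near {ρ : ℝ} (hρ : R0 c < ρ) {x : ℂ} (hx : x ∈ J c) {ε : ℝ} (hε : 0 < ε) :
    ∃ N : ℕ, ∀ n, N ≤ n → ∃ z ∈ Cir c ρ n, dist z x < ε := by
  have hx2 : x ∈ closure (K c)ᶜ := by
    have h1 : x ∈ frontier (K c) := hx
    rw [frontier_eq_closure_inter_closure] at h1
    exact h1.2
  obtain ⟨y, hy, hxy⟩ := Metric.mem_closure_iff.1 hx2 ε hε
  obtain ⟨N, hN⟩ := escape hy ρ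
  refine ⟨N, fun n hn => ?_⟩
  have h1 : ρ < ‖(f c)^[n] y‖ := hN.self_of_nhds n hn
  have h2 : ‖(f c)^[n] x‖ ≤ R0 c := mem_K_iff.1 (J_sub_K c hx) n
  obtain ⟨z, hz, hz2⟩ := (convex_ball x ε).isPreconnected.intermediate_value (f := fun z => ‖(f c)^[n] z‖)
    (mem_ball_self hε) (show y ∈ ball x ε by rw [mem_ball, dist_comm]; exact hxy)
    ((continuous_f c).iterate n).norm.continuousOn ⟨h2.trans hρ.le, h1.le⟩
  exact ⟨z, hz2, hz⟩

/-- the right half of the unit circle is connected -/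
theorem conn_half : IsPreconnected {w : ℂ | ‖w‖ = 1 ∧ 0 ≤ w.re} := by
  have h1 : {w : ℂ | ‖w‖ = 1 ∧ 0 ≤ w.re} =
      (fun t : ℝ => Complex.exp (t * Complex.I)) '' Icc (-(Real.pi / 2)) (Real.pi / 2) := by
    ext w
    constructor
    · rintro ⟨hw1, hw2⟩
      refine ⟨w.arg, abs_le.1 (Complex.abs_arg_le_pi_div_two_iff.2 hw2), ?_⟩
      have := Complex.norm_mul_exp_arg_mul_I w
      rw [hw1, Complex.ofReal_one, one_mul] at this
      exact this
    · rintro ⟨t, ht, rfl⟩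
      refine ⟨Complex.norm_exp_ofReal_mul_I t, ?_⟩
      show 0 ≤ (Complex.exp (t * Complex.I)).re
      rw [Complex.exp_ofReal_mul_I_re]
      exact Real.cos_nonneg_of_mem_Icc ht
  rw [h1]
  exact isPreconnected_Icc.image _ (by fun_prop)

/-- the curve parameter -/
noncomputable def tau (c : ℂ) (chi : ℕ → ℂ → ℂ) (E : ℕ → ℂ → ℝ) (m n : ℕ) (z : ℂ) : ℂ :=
  chi m z * e ((1 / 2 : ℝ) ^ n * E (m + n) ((f c)^[n] z))

section

variable {chi : ℕ → ℂ → ℂ} {E : ℕ → ℂ → ℝ} {ρ : ℝ}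

theorem tau_norm (hn : ∀ m, ∀ z, z ∉ K c → ‖chi m z‖ = 1) (m n : ℕ) {z : ℂ} (hz : z ∉ K c) :
    ‖tau c chi E m n z‖ = 1 := by
  rw [tau, norm_mul, hn m z hz, norm_e, one_mul]

theorem tau_sq (hsq : ∀ m, ∀ z, z ∉ K c → chi (m + 1) (f c z) = chi m z ^ 2) (m n : ℕ) {z : ℂ} (hz : z ∉ K c) :
    tau c chi E m (n + 1) z ^ 2 = tau c chi E (m + 1) n (f c z) := by
  rw [tau, tau, mul_pow, hsq m z hz, sq (e _), ← e_add, Function.iterate_succ_apply,
    show m + 1 + n = m + (n + 1) by ring]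
  congr 2
  ring

theorem tau_neg (hneg : ∀ m, ∀ z, z ∉ K c → chi m (-z) = -chi m z) (m n : ℕ) {z : ℂ} (hz : z ∉ K c) :
    tau c chi E m (n + 1) (-z) = -tau c chi E m (n + 1) z := by
  rw [tau, tau, hneg m z hz, Function.iterate_succ_apply, Function.iterate_succ_apply, f_neg, neg_mul]

theorem tau_bij (hρ : R0 c < ρ) (hsq : ∀ m, ∀ z, z ∉ K c → chi (m + 1) (f c z) = chi m z ^ 2)
    (hneg : ∀ m, ∀ z, z ∉ K c → chi m (-z) = -chi m z)
    (hE : ∀ m, ∀ w : ℂ, ‖w‖ = ρ → w = ρ * (chi m w * e (E m w))) (n : ℕ) :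
    ∀ m, ∀ w : ℂ, ‖w‖ = 1 →
      ∃ z ∈ Cir c ρ n, tau c chi E m n z = w ∧ ∀ z' ∈ Cir c ρ n, tau c chi E m n z' = w → z' = z := by
  have hρ0 : 0 < ρ := (R0_pos c).trans hρ
  induction n with
  | zero =>
    intro m w hw
    have h1 : ‖(ρ : ℂ) * w‖ = ρ := by
      rw [norm_mul, hw, mul_one, Complex.norm_real, Real.norm_of_nonneg hρ0.le]
    have h2 : ∀ z : ℂ, ‖z‖ = ρ → z = ρ * tau c chi E m 0 z := by
      intro z hz
      rw [tau, pow_zero, one_mul]
      exact hE m z hz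
    have hρc : (ρ : ℂ) ≠ 0 := by exact_mod_cast hρ0.ne'
    refine ⟨ρ * w, h1, ?_, ?_⟩
    · have := h2 _ h1
      exact (mul_left_cancel₀ hρc this).symm
    · intro z' hz' hw'
      have := h2 z' hz'
      rw [this, hw']
  | succ n ih =>
    intro m w hw
    obtain ⟨y, hy, hyw, hyu⟩ := ih (m + 1) (w ^ 2) (by rw [norm_pow, hw, one_pow])
    obtain ⟨z, hz⟩ := surj_f c y
    have hzC : ∀ z : ℂ, f c z = y → z ∈ Cir c ρ (n + 1) := by
      intro z hz
      show ‖(f c)^[n + 1] z‖ = ρ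
      rw [Function.iterate_succ_apply, hz]
      exact hy
    have hw0 : w ≠ 0 := by
      intro h
      rw [h, norm_zero] at hw
      exact zero_ne_one hw
    have h1 : tau c chi E m (n + 1) z ^ 2 = w ^ 2 := by
      rw [tau_sq hsq m n (Cir_out hρ (hzC z hz)), hz, hyw]
    obtain ⟨z0, hz0, hz0w⟩ : ∃ z0, f c z0 = y ∧ tau c chi E m (n + 1) z0 = w := by
      rcases sq_eq_sq_iff_eq_or_eq_neg.1 h1 with h | h
      · exact ⟨z, hz, h⟩
      · refine ⟨-z, by rw [f_neg, hz], ?_⟩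
        rw [tau_neg hneg m n (Cir_out hρ (hzC z hz)), h, neg_neg]
    refine ⟨z0, hzC z0 hz0, hz0w, fun z' hz' hw' => ?_⟩
    have h2 : f c z' = y := by
      refine hyu _ ?_ ?_
      · show ‖(f c)^[n] (f c z')‖ = ρ
        rw [← Function.iterate_succ_apply]
        exact hz'
      · rw [← tau_sq hsq m n (Cir_out hρ hz'), hw']
    rw [← hz0] at h2
    rcases f_eq_iff.1 h2 with h | h
    · exact h
    · exfalso
      rw [h, tau_neg hneg m n (Cir_out hρ (hzC z0 hz0)), hz0w] at hw'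
      have : (2 : ℂ) * w = 0 := by linear_combination -hw'
      simp [hw0] at this

/-- the half curves -/
def Hf (c : ℂ) (chi : ℕ → ℂ → ℂ) (E : ℕ → ℂ → ℝ) (ρ : ℝ) (u : ℂ) (n : ℕ) : Set ℂ :=
  {z ∈ Cir c ρ n | 0 ≤ (tau c chi E 0 n z * u).re}

theorem Hf_conn (hρ : R0 c < ρ) (hc : ∀ m, ContinuousOn (chi m) (K c)ᶜ) (hn : ∀ m, ∀ z, z ∉ K c → ‖chi m z‖ = 1)
    (hsq : ∀ m, ∀ z, z ∉ K c → chi (m + 1) (f c z) = chi m z ^ 2)
    (hneg : ∀ m, ∀ z, z ∉ K c → chi m (-z) = -chi m z)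
    (hE : ∀ m, ∀ w : ℂ, ‖w‖ = ρ → w = ρ * (chi m w * e (E m w)))
    (hEc : ∀ m, ContinuousOn (E m) (sphere 0 ρ)) {u : ℂ} (hu : ‖u‖ = 1) (n : ℕ) :
    IsConnected (Hf c chi E ρ u n) := by
  have hcont : ContinuousOn (tau c chi E 0 n) (Cir c ρ n) := by
    refine ContinuousOn.mul ((hc 0).mono fun z hz => Cir_out hρ hz) ?_
    refine continuous_e.comp_continuousOn (continuousOn_const.mul ?_)
    refine (hEc (0 + n)).comp ((continuous_f c).iterate n).continuousOn fun z hz => ?_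
    rw [mem_sphere_zero_iff_norm]
    exact hz
  have hbij := tau_bij hρ hsq hneg hE n 0
  have hu0 : u ≠ 0 := by
    intro h
    rw [h, norm_zero] at hu
    exact zero_ne_one hu
  constructor
  · obtain ⟨z, hz, h1, -⟩ := hbij u⁻¹ (by rw [norm_inv, hu, inv_one])
    refine ⟨z, hz, ?_⟩
    rw [h1, inv_mul_cancel₀ hu0]
    simp
  · have : CompactSpace (Cir c ρ n) := isCompact_iff_compactSpace.1 (Cir_compact hρ n)
    set g : Cir c ρ n → ℂ := fun z => tau c chi E 0 n z * u with hg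
    have hgc : Continuous g := (continuousOn_iff_continuous_domRestrict.1 hcont).mul continuous_const
    have hinj : Function.Injective g := by
      intro x y hxy
      have hxy' : tau c chi E 0 n x = tau c chi E 0 n y := mul_right_cancel₀ hu0 hxy
      obtain ⟨z, -, -, hu⟩ := hbij (tau c chi E 0 n x) (tau_norm hn 0 n (Cir_out hρ x.2))
      exact Subtype.ext ((hu x x.2 rfl).trans (hu y y.2 hxy'.symm).symm)
    have hran : {w : ℂ | ‖w‖ = 1 ∧ 0 ≤ w.re} ⊆ range g := by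
      rintro w ⟨hw, -⟩
      obtain ⟨z, hz, h1, -⟩ := hbij (w * u⁻¹) (by rw [norm_mul, norm_inv, hu, hw, inv_one, mul_one])
      refine ⟨⟨z, hz⟩, ?_⟩
      show tau c chi E 0 n z * u = w
      rw [h1, inv_mul_cancel_right₀ hu0]
    have h1 := conn_half.preimage_of_isClosedMap hinj hgc.isClosedMap hran
    have h2 : Hf c chi E ρ u n = Subtype.val '' (g ⁻¹' {w : ℂ | ‖w‖ = 1 ∧ 0 ≤ w.re}) := by
      ext z
      constructor
      · rintro ⟨hz, hz2⟩
        refine ⟨⟨z, hz⟩, ⟨?_, hz2⟩, rfl⟩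
        show ‖tau c chi E 0 n z * u‖ = 1
        rw [norm_mul, hu, tau_norm hn 0 n (Cir_out hρ hz), one_mul]
      · rintro ⟨⟨z, hz⟩, ⟨-, hz2⟩, rfl⟩
        exact ⟨hz, hz2⟩
    rw [h2]
    exact h1.image _ continuous_subtype_val.continuousOn

/-- **main theorem**: `chi m` is a sequence of continuous maps from the complement of `K` to the unit circle, with
`chi (m + 1) (f z) = chi m z ^ 2` and `chi m (-z) = - chi m z`, and of the form `z / (|z| e (E m z))` on a large circle, with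
`E m` uniformly bounded there. If `chi 0` is continuous at the point `-b` of the Julia set with value `-u⁻¹`
(so `u⁻¹ = chi 0 b`), then the Julia set is decomposable -/
theorem dec_of_chi (hρ : R0 c < ρ) {b u : ℂ} {V : Set ℂ} (hb : b ∈ J c) (hbV : -b ∈ V) (hV : (K c)ᶜ ⊆ V)
    (hc : ∀ m, ContinuousOn (chi m) (K c)ᶜ) (hc0 : ContinuousOn (chi 0) V)
    (hn : ∀ m, ∀ z, z ∉ K c → ‖chi m z‖ = 1)
    (hsq : ∀ m, ∀ z, z ∉ K c → chi (m + 1) (f c z) = chi m z ^ 2)
    (hneg : ∀ m, ∀ z, z ∉ K c → chi m (-z) = -chi m z) (hu : ‖u‖ = 1) (hcb : chi 0 (-b) * u = -1)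
    (hE : ∀ m, ∀ w : ℂ, ‖w‖ = ρ → w = ρ * (chi m w * e (E m w)))
    (hEc : ∀ m, ContinuousOn (E m) (sphere 0 ρ)) {M : ℝ} (hM : ∀ m, ∀ w : ℂ, ‖w‖ = ρ → |E m w| ≤ M) :
    Dec (J c) := by
  have hcon : ∀ n, IsConnected (Hf c chi E ρ u n) := Hf_conn hρ hc hn hsq hneg hE hEc hu
  have hL : IsConnected (Lim (Hf c chi E ρ u)) :=
    Lim_conn (isCompact_closedBall 0 ρ) (fun n => fun z hz => Cir_sub hρ n hz.1) (fun n => (hcon n).nonempty)
      fun n => (hcon n).isPreconnected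
  have hLJ : Lim (Hf c chi E ρ u) ⊆ J c := by
    intro x hx
    have hxK : x ∈ K c := by
      by_contra h
      obtain ⟨N, hN⟩ := escape h ρ
      obtain ⟨ε, hε, hball⟩ := Metric.eventually_nhds_iff.1 hN
      have h1 : ∀ᶠ n in (hyperfilter ℕ : Filter ℕ), N ≤ n :=
        Filter.hyperfilter_le_cofinite (Nat.cofinite_eq_atTop ▸ eventually_ge_atTop N)
      obtain ⟨n, ⟨z, hz, hzx⟩, hn'⟩ := ((hx ε hε).and h1).exists
      have h2 := hball hzx n hn'
      have h3 : ‖(f c)^[n] z‖ = ρ := hz.1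
      linarith
    show x ∈ frontier (K c)
    rw [frontier_eq_closure_inter_closure]
    refine ⟨subset_closure hxK, Metric.mem_closure_iff.2 fun ε hε => ?_⟩
    obtain ⟨n, z, hz, hzx⟩ := (hx ε hε).exists
    exact ⟨z, Cir_out hρ hz.1, by rwa [dist_comm]⟩
  have hbL : -b ∉ Lim (Hf c chi E ρ u) := by
    intro hx
    have hM0 : 0 ≤ M := (abs_nonneg _).trans (hM 0 ρ (by
      rw [Complex.norm_real, Real.norm_of_nonneg ((R0_pos c).trans hρ).le]))
    -- `e` is near one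
    have he : ∀ᶠ t in 𝓝 (0 : ℝ), ‖e t - 1‖ < 1 / 2 := by
      have h1 : ContinuousAt (fun t => ‖e t - 1‖) 0 := (continuous_e.sub continuous_const).norm.continuousAt
      have h2 : ‖e 0 - 1‖ < 1 / 2 := by
        have := e_int 0
        rw [Int.cast_zero] at this
        rw [this]
        norm_num
      exact h1.eventually (gt_mem_nhds h2)
    obtain ⟨δ, hδ, hδe⟩ := Metric.eventually_nhds_iff.1 he
    obtain ⟨N, hN⟩ : ∃ N : ℕ, ∀ n, N ≤ n → (1 / 2 : ℝ) ^ n * M < δ := by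
      have h1 : Tendsto (fun n : ℕ => (1 / 2 : ℝ) ^ n * M) atTop (𝓝 (0 * M)) :=
        (tendsto_pow_atTop_nhds_zero_of_lt_one (by norm_num) (by norm_num)).mul_const M
      rw [zero_mul] at h1
      exact eventually_atTop.1 (h1.eventually (gt_mem_nhds hδ))
    obtain ⟨ε, hε, hch⟩ := Metric.continuousOn_iff.1 hc0 (-b) hbV (1 / 2) (by norm_num)
    have h1 : ∀ᶠ n in (hyperfilter ℕ : Filter ℕ), N ≤ n :=
      Filter.hyperfilter_le_cofinite (Nat.cofinite_eq_atTop ▸ eventually_ge_atTop N)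
    obtain ⟨n, ⟨z, hz, hzx⟩, hn'⟩ := ((hx ε hε).and h1).exists
    have hzK := Cir_out hρ hz.1
    have h2 : ‖chi 0 z * u + 1‖ < 1 / 2 := by
      have h2' := hch z (hV hzK) hzx
      rw [dist_eq_norm] at h2'
      have h2'' : chi 0 z * u + 1 = (chi 0 z - chi 0 (-b)) * u := by
        rw [sub_mul, hcb]
        ring
      rw [h2'', norm_mul, hu, mul_one]
      exact h2'
    have h3 : ‖e ((1 / 2 : ℝ) ^ n * E (0 + n) ((f c)^[n] z)) - 1‖ < 1 / 2 := by
      apply hδe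
      rw [dist_zero_right, norm_mul, norm_pow, Real.norm_of_nonneg (by norm_num : (0 : ℝ) ≤ 1 / 2)]
      exact lt_of_le_of_lt (mul_le_mul_of_nonneg_left (hM _ _ hz.1) (by positivity)) (hN n hn')
    have h4 : ‖tau c chi E 0 n z * u + 1‖ < 1 := by
      have h5 : tau c chi E 0 n z * u + 1 =
          chi 0 z * u * (e ((1 / 2 : ℝ) ^ n * E (0 + n) ((f c)^[n] z)) - 1) + (chi 0 z * u + 1) := by
        rw [tau]
        ring
      rw [h5]
      refine lt_of_le_of_lt (norm_add_le _ _) ?_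
      rw [norm_mul, norm_mul, hn 0 z hzK, hu, one_mul, one_mul]
      linarith
    have h6 := Complex.abs_re_le_norm (tau c chi E 0 n z * u + 1)
    rw [Complex.add_re, Complex.one_re] at h6
    have h7 := le_abs_self ((tau c chi E 0 n z * u).re + 1)
    have h8 : 0 ≤ (tau c chi E 0 n z * u).re := hz.2
    linarith
  have hLc : IsCompact (Lim (Hf c chi E ρ u)) := (isCompact_J c).of_isClosed_subset (isClosed_Lim _) hLJ
  refine ⟨Lim (Hf c chi E ρ u), (fun z => -z) '' Lim (Hf c chi E ρ u), hLJ, ?_, ?_, ?_, hLc, hL,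
    hLc.image continuous_neg, hL.image _ continuous_neg.continuousOn, ?_⟩
  · rintro _ ⟨z, hz, rfl⟩
    exact neg_mem_J (hLJ hz)
  · intro h
    apply hbL
    rw [h]
    exact neg_mem_J hb
  · intro h
    have : b ∈ (fun z => -z) '' Lim (Hf c chi E ρ u) := by
      rw [h]
      exact hb
    obtain ⟨z, hz, hzb⟩ := this
    apply hbL
    have : z = -b := by
      rw [← hzb]
      simp
    rwa [← this]
  · apply Subset.antisymm
    · rintro z (hz | ⟨z, hz, rfl⟩)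
      · exact hLJ hz
      · exact neg_mem_J (hLJ hz)
    · intro x hx
      by_contra hcon'
      rw [mem_union, not_or] at hcon'
      obtain ⟨h1, h2⟩ := hcon'
      have h2' : -x ∉ Lim (Hf c chi E ρ u) := fun h => h2 ⟨-x, h, neg_neg x⟩
      simp only [Lim, mem_ofPred_eq, not_forall] at h1 h2'
      obtain ⟨ε1, hε1, h1⟩ := h1
      obtain ⟨ε2, hε2, h2'⟩ := h2'
      rw [← Ultrafilter.eventually_not] at h1 h2'
      obtain ⟨N, hN⟩ := Cir_near hρ hx (lt_min hε1 hε2)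
      have h3 : ∀ᶠ n in (hyperfilter ℕ : Filter ℕ), N + 1 ≤ n :=
        Filter.hyperfilter_le_cofinite (Nat.cofinite_eq_atTop ▸ eventually_ge_atTop (N + 1))
      obtain ⟨n, ⟨hn1, hn2⟩, hn3⟩ := ((h1.and h2').and h3).exists
      obtain ⟨z, hz, hzx⟩ := hN n (by omega)
      have hzK := Cir_out hρ hz
      by_cases hre : 0 ≤ (tau c chi E 0 n z * u).re
      · exact hn1 ⟨z, ⟨hz, hre⟩, lt_of_lt_of_le hzx (min_le_left _ _)⟩
      · obtain ⟨m, rfl⟩ : ∃ m, n = m + 1 := ⟨n - 1, by omega⟩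
        refine hn2 ⟨-z, ⟨?_, ?_⟩, ?_⟩
        · show ‖(f c)^[m + 1] (-z)‖ = ρ
          rw [Function.iterate_succ_apply, f_neg, ← Function.iterate_succ_apply]
          exact hz
        · rw [tau_neg hneg 0 m hzK, neg_mul, Complex.neg_re]
          linarith
        · rw [dist_neg_neg]
          exact lt_of_lt_of_le hzx (min_le_right _ _)

end

end Pool.Agent.Helper83.AD
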